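import Mathlib
import Pool.Agent.Lib.MP_551055_al.Trim.X.MP_e6f638_al.I1
import Pool.Agent.Lib.MP_551055_al.Trim.X.MP_e6f638_al.Stmts

/-!
# Even Artin groups without triangles 4, 4, 2: statements on words
-/

set_option autoImplicit false

namespace Pool.Agent.Lib.MP_551055_al
end Pool.Agent.Lib.MP_551055_al

namespace Pool.Agent.Lib.MP_e6f638_al
end Pool.Agent.Lib.MP_e6f638_al

namespace Pool.Agent.Lib.MP_551055_al.N4
end Pool.Agent.Lib.MP_551055_al.N4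

namespace Pool.Agent.Lib.MP_551055_al.N6

open Pool.Agent.Lib.MP_551055_al

open Pool.Agent.Lib.MP_e6f638_al (Dat EA gen par rho del IsDatOf IsAxis)

open Pool.Agent.Lib.MP_551055_al.N4

/-- The generators which commute with `t`. -/
def ZZ {S : Type} (l : S → S → ℕ) (t : S) : Set S := {s | s ≠ t ∧ l t s = 1}

/-- No triangle `4, 4, 2` and no infinite label. -/
structure Adm {S : Type} (l : S → S → ℕ) : Prop where
  symm : ∀ s t, l s t = l t s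
  no : ∀ s t v : S, s ≠ t → s ≠ v → t ≠ v → ¬ (l s t = 2 ∧ l s v = 2 ∧ l t v = 1)
  inf : ∀ s t : S, s ≠ t → l s t ≠ 0

/-- Module P6. Elements which commute with a power of a generator. -/
def StP6 : Prop :=
  ∀ (S : Type) [Finite S] (l : S → S → ℕ), Adm l → ∀ (t : S) (k : ℤ), k ≠ 0 →
    ∀ g ∈ par l {t}ᶜ, Commute (gen l t ^ k) g → g ∈ par l (ZZ l t)

/-- Module V6. The strong form of condition (V). -/
def StV6 : Prop :=
  ∀ (S : Type) [Finite S] (l : S → S → ℕ), Adm l → ∀ (t : S) (ε : ℤˣ),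
    ∀ g₁ ∈ par l {t}ᶜ, ∀ g₂ ∈ par l {t}ᶜ, ∀ b ∈ par l {t}ᶜ, ∀ b' ∈ par l {t}ᶜ,
      gen l t ^ (ε : ℤ) * g₁ * gen l t ^ ((-ε : ℤˣ) : ℤ) =
        b * gen l t ^ (ε : ℤ) * g₂ * gen l t ^ ((-ε : ℤˣ) : ℤ) * b' →
      g₁ ∈ par l (ZZ l t) ∨ b ∈ par l (ZZ l t)

/-- Module V16. The condition for straight passes. -/
def StV16 : Prop :=
  ∀ (S : Type) [Finite S] (l : S → S → ℕ), Adm l → ∀ t : S,
    ∀ b₁ ∈ par l {t}ᶜ, ∀ b₂ ∈ par l {t}ᶜ, ∀ θ ∈ par l {t}ᶜ, ∀ θ' ∈ par l {t}ᶜ,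
      gen l t * θ * gen l t * b₂ = b₁ * gen l t * θ' * gen l t → b₁ ∉ par l (ZZ l t) →
        ∃ c, c ≠ t ∧ l t c = 2 ∧ ∃ β₀ ∈ par l (ZZ l t), ∃ β₁ ∈ par l (ZZ l t), ∃ m : ℤ,
          m ≠ 0 ∧ θ = β₀ * gen l c * β₁ ∧
          b₁ = β₀ * gen l c ^ m * β₀⁻¹ * rho l (ZZ l t) b₁ ∧
          b₂ = β₁⁻¹ * gen l c ^ m * β₁ * rho l (ZZ l t) b₂

end Pool.Agent.Lib.MP_551055_al.N6
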