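import Mathlib
import Pool.Agent.Lib.MP_551055_al.Trim.LS.PStmts
import Pool.Agent.Lib.MP_551055_al.Trim.LS.Stmts
import Pool.Agent.Lib.MP_551055_al.Trim.N4.Loc_17
import Pool.Agent.Lib.MP_551055_al.Trim.N4.Rules_17
import Pool.Agent.Lib.MP_551055_al.Trim.N4.Stmts
import Pool.Agent.Lib.MP_551055_al.Trim.N5.Stmts
import Pool.Agent.Lib.MP_551055_al.Trim.N6.Words_17
import Pool.Agent.Lib.MP_551055_al.Trim.RI.LiftNil
import Pool.Agent.Lib.MP_551055_al.Trim.RI.Stmts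
import Pool.Agent.Lib.MP_551055_al.Trim.X.MP_e6f638_al.F
import Pool.Agent.Lib.MP_551055_al.Trim.X.MP_e6f638_al.GDefs
import Pool.Agent.Lib.MP_551055_al.Trim.X.MP_e6f638_al.I1
import Pool.Agent.Lib.MP_551055_al.Trim.X.MP_e6f638_al.I2
import Pool.Agent.Lib.MP_551055_al.Trim.X.MP_e6f638_al.Stmts

/-!
# Even Artin groups without triangles 4, 4, 2: statements of the modules

Notations of `N5/Stmts.lean`: `MM`, `RRM`, `kk`, `S1M`, `LiftOm`, `PureExt`, `StO5`, `StPE`.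
Label six (`l i = 3`) is allowed now.
-/

set_option autoImplicit false

namespace Pool.Agent.Lib.MP_551055_al
end Pool.Agent.Lib.MP_551055_al

namespace Pool.Agent.Lib.MP_e6f638_al
end Pool.Agent.Lib.MP_e6f638_al

namespace Pool.Agent.Lib.MP_551055_al.LS
end Pool.Agent.Lib.MP_551055_al.LS

namespace Pool.Agent.Lib.MP_551055_al.RI
end Pool.Agent.Lib.MP_551055_al.RI

namespace Pool.Agent.Lib.MP_551055_al.N4
end Pool.Agent.Lib.MP_551055_al.N4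

namespace Pool.Agent.Lib.MP_551055_al.N5
end Pool.Agent.Lib.MP_551055_al.N5

namespace Pool.Agent.Lib.MP_551055_al.N6

open Pool.Agent.Lib.MP_551055_al

open Pool.Agent.Lib.MP_e6f638_al (Dat EA gen par rho del IsDatOf IsAxis inD killD)

open Pool.Agent.Lib.MP_551055_al.LS (TreeAct ZN)

open Pool.Agent.Lib.MP_551055_al.RI (BTree stabV LiftData)

open Pool.Agent.Lib.MP_551055_al.N4

open Pool.Agent.Lib.MP_551055_al.N5 (MM RRM kk S1M LiftOm PureExt)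

open Multiplicative

section

variable {G : Type} [Group G] (D : Dat G)

/-- The conditions of the mixed case. -/
structure Mix3 (a : D.ι) : Prop where
  la : D.l a = 2
  w : D.W
  wt : ∀ k, ∃ w : G →* Multiplicative ℤ, w (D.t k) = ofAdd 1 ∧ (∀ i, i ≠ k → w (D.t i) = 1) ∧
    ∀ b ∈ D.B, w b = 1
  rt : ∀ k, ∃ ρ : G →* G, ρ (D.t k) = 1 ∧ (∀ i, i ≠ k → ρ (D.t i) = D.t i) ∧ ∀ b ∈ D.B, ρ b = b
  mm : ∀ m ∈ MM D, D.t a * m * (D.t a)⁻¹ ∈ MM D → m ∈ D.B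

/-- The facts on words. -/
structure WdM3 (a : D.ι) : Prop where
  inj : Function.Injective D.phi
  range : ∀ e : D.E, D.phi e ∈ D.ofG.range → ∃ x : D.h.ker, e = D.inE x
  c1 : ∀ (i : D.ι) (r : ℕ) (g : G), 1 ≤ r → r < D.l i → xi D i ^ r * D.ofG g ∉ RE D
  cS : ∀ g : G, xi D a * D.ofG g * (xi D a)⁻¹ ∈ RE D → g ∈ MM D
  cT : ∀ (i j : D.ι) (r s : ℕ) (g : G), 2 ≤ r → r + 2 ≤ D.l i → 1 ≤ s → s < D.l j →
    xi D i ^ r * D.ofG g * (xi D j ^ s)⁻¹ ∈ RE D →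
      i = j ∧ r = s ∧ g ∈ D.B ∧ Commute g (D.t i)

/-- The local structure of the tile graphs: as `N5.LocM`, only `4 ≤ D.l j` is `3 ≤ D.l j` in `sO`
and `sI`. -/
structure LocM3 (a : D.ι) : Prop where
  /-- the edges at a vertex of type M -/
  mO : ∀ (k : D.Ah), ∀ e ∈ RE D, ∀ w, Ed D k (pt D (k * e)) w →
    ∃ g : G, D.h g = 1 ∧ w = pt D (k * e * D.ofG g * xi D a)
  mI : ∀ (k : D.Ah), ∀ e ∈ RE D, ∀ w, Ed D k w (pt D (k * e)) →
    ∃ g : G, D.h g = 1 ∧ w = pt D (k * e * D.ofG g * (D.u)⁻¹)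
  /-- the edges at a vertex of type S -/
  sO : ∀ (k : D.Ah), ∀ e ∈ RE D, ∀ w, Ed D k (pt D (k * e * xi D a)) w →
    ∃ m ∈ MM D, ∃ j, (j = a ∨ 3 ≤ D.l j) ∧ w = pt D (k * e * xi D a * D.ofG m * xi D j)
  sI : ∀ (k : D.Ah), ∀ e ∈ RE D, ∀ w, Ed D k w (pt D (k * e * xi D a)) →
    ∃ m ∈ MM D, ∃ j, (j = a ∨ 3 ≤ D.l j) ∧
      w = pt D (k * e * xi D a * D.ofG (m * kk D a j) * (D.u)⁻¹)
  /-- the edges at a vertex of type T -/
  tO : ∀ (k : D.Ah), ∀ e ∈ RE D, ∀ (i : D.ι) (r : ℕ), 2 ≤ r → r + 2 ≤ D.l i → ∀ w,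
    Ed D k (pt D (k * e * xi D i ^ r)) w → w = pt D (k * e * xi D i ^ (r + 1))
  tI : ∀ (k : D.Ah), ∀ e ∈ RE D, ∀ (i : D.ι) (r : ℕ), 2 ≤ r → r + 2 ≤ D.l i → ∀ w,
    Ed D k w (pt D (k * e * xi D i ^ r)) → w = pt D (k * e * xi D i ^ (r - 1))
  /-- all vertices -/
  vt : ∀ (k : D.Ah) (v w : AV D), (TK D k).Adj v w →
    (∃ e ∈ RE D, v = pt D (k * e)) ∨ (∃ e ∈ RE D, v = pt D (k * e * xi D a)) ∨
      ∃ e ∈ RE D, ∃ (i : D.ι) (r : ℕ), 2 ≤ r ∧ r + 2 ≤ D.l i ∧ v = pt D (k * e * xi D i ^ r)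
  /-- the last but one vertex of a tile is of type S -/
  last : ∀ (k : D.Ah), ∀ e ∈ RE D, ∀ i, ∃ e' ∈ RE D,
    pt D (k * e * xi D i ^ (D.l i - 1)) = pt D (k * e' * xi D a)
  /-- the second vertex of a tile is of type S -/
  first : ∀ (k : D.Ah), ∀ e ∈ RE D, ∀ i, ∃ e' ∈ RE D,
    pt D (k * e * xi D i) = pt D (k * e' * xi D a)
  /-- interior vertices are not of type M -/
  nm : ∀ (k : D.Ah), ∀ e ∈ RE D, ∀ (i : D.ι) (r : ℕ), 1 ≤ r → r < D.l i →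
    ¬ Mn D k (pt D (k * e * xi D i ^ r))
  /-- vertices of type T are not of type S -/
  ts : ∀ (k : D.Ah), ∀ e ∈ RE D, ∀ e' ∈ RE D, ∀ (i : D.ι) (r : ℕ), 2 ≤ r → r + 2 ≤ D.l i →
    pt D (k * e * xi D i ^ r) ≠ pt D (k * e' * xi D a)

end

/-- Module W6. Words. -/
def StW6 : Prop := ∀ (G : Type) [Group G] (D : Dat G) (a : D.ι), Mix3 D a → WdM3 D a

/-- Module L6. The local structure. -/
def StL6 : Prop := ∀ (G : Type) [Group G] (D : Dat G) (a : D.ι), Mix3 D a → WdM3 D a → LocM3 D a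

/-- Module S1M6. -/
def StS1M6 : Prop :=
  ∀ (G : Type) [Group G] (D : Dat G) (a : D.ι), Mix3 D a → WdM3 D a → LocM3 D a → S1M D a

/-- Module LG6. The lift in the mixed case. -/
def StLG6 : Prop :=
  ∀ (P : ∀ (G : Type) [Group G], Prop), Rules P → ∀ (G : Type) [Group G] (D : Dat G) (a : D.ι),
    Finite D.ι → Mix3 D a → WdM3 D a → S1M D a → ∀ (L : Type) [Group L] (j : G →* L) (w : L),
      P L → PureExt D L j w → ∀ (hφ : D.IsPhi D.phi) (hinj : Function.Injective D.phi),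
        ∃ (L' : Type) (_ : Group L') (th : D.E →* L') (T' X' : L') (π : L' →* D.Om hφ hinj),
          P L' ∧ LiftOm D hφ hinj L' th T' X' π

/-- Module A6. The conditions of the mixed case for even Artin groups. -/
def StA6 : Prop :=
  ∀ (S : Type) [Finite S] (l : S → S → ℕ), (∀ s t, l s t = l t s) →
    (∀ s t v : S, s ≠ t → s ≠ v → t ≠ v → ¬ (l s t = 2 ∧ l s v = 2 ∧ l t v = 1)) →
    ∀ (u : S) (D : Dat (EA (del l u))), IsDatOf l u D → ∀ a : D.ι, D.l a = 2 → Mix3 D a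

/-- Module V36. The conditions of `N4` at a vertex without label four. -/
def StV36 : Prop :=
  StV6 → ∀ (S : Type) [Finite S] (l : S → S → ℕ), Adm l → ∀ u : S, (∀ s, s ≠ u → l u s ≠ 2) →
    ∀ D : Dat (EA (del l u)), IsDatOf l u D → Finite D.ι ∧ Three D ∧ V D

/-- The exceptional case. -/
def O2 {S : Type} (l : S → S → ℕ) (u : S) : Prop :=
  ∃ t c : S, t ≠ u ∧ c ≠ u ∧ t ≠ c ∧ l u t = 3 ∧ l t c = 2 ∧ l u c = 1 ∧
    ∀ s, s ≠ u → s ≠ t → s ≠ c → l t s = 1 ∧ l c s = 1 ∧ l u s ≤ 2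

/-- Module S2M6. -/
def StS2M6 : Prop :=
  StP6 → StV6 → StV16 → ∀ (S : Type) [Finite S] (l : S → S → ℕ), Adm l →
    (∀ s : S, ∃ t, t ≠ s ∧ l s t = 2) → ∀ (u : S) (D : Dat (EA (del l u))), IsDatOf l u D →
    ∀ a : D.ι, Mix3 D a → WdM3 D a → LocM3 D a → (¬ O2 l u ∨ ∀ m ∈ MM D, m ∈ D.B) →
    ∀ lam : D.Ah →* EA l, (∀ g, lam (D.ofG g) = inD l u g) → lam D.u = gen l u →
      (∀ e : D.E, lam (D.phi e) = 1 → e = 1) →
    ∀ q ∈ D.hh.ker, ∀ y ∈ RE D, y ≠ 1 → (∀ s, killD l s (lam y) = 1) → q⁻¹ * y * q ∈ RE D →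
      Sp D q

end Pool.Agent.Lib.MP_551055_al.N6
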