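import Mathlib
import Pool.Agent.Lib.MP_551055_al.Trim.EA.LocW
import Pool.Agent.Lib.MP_551055_al.Trim.N4.ArtThree_4
import Pool.Agent.Lib.MP_551055_al.Trim.N5.A5_54
import Pool.Agent.Lib.MP_551055_al.Trim.N5.Stmts
import Pool.Agent.Lib.MP_551055_al.Trim.N6.Stmts_17
import Pool.Agent.Lib.MP_551055_al.Trim.X.MP_e6f638_al.I1
import Pool.Agent.Lib.MP_551055_al.Trim.X.MP_e6f638_al.Stmts

/-!
# Module A6: the conditions of the mixed case for even Artin groups
-/

set_option autoImplicit false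

namespace Pool.Agent.Lib.MP_551055_al
end Pool.Agent.Lib.MP_551055_al

namespace Pool.Agent.Lib.MP_e6f638_al
end Pool.Agent.Lib.MP_e6f638_al

namespace Pool.Agent.Lib.MP_551055_al.N4
end Pool.Agent.Lib.MP_551055_al.N4

namespace Pool.Agent.Lib.MP_551055_al.N5
end Pool.Agent.Lib.MP_551055_al.N5

namespace Pool.Agent.Lib.MP_551055_al.N6

open Pool.Agent.Lib.MP_551055_al

open Pool.Agent.Lib.MP_e6f638_al (Dat EA gen par rho del IsDatOf IsAxis)

open Pool.Agent.Lib.MP_551055_al.N4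

open Pool.Agent.Lib.MP_551055_al.N5 (MM loc1_of)

/-- Module A6 with a local hypothesis. -/
theorem stA6L {S : Type} [Finite S] (l : S → S → ℕ) (hsymm : ∀ s t, l s t = l t s) (u : S)
    (hno : Pool.Agent.Lib.MP_551055_al.EA.Loc1 l u)
    (D : Dat (EA (del l u))) (hD : IsDatOf l u D) (a : D.ι) (ha : D.l a = 2) : Mix3 D a :=
  ⟨ha, Pool.Agent.Lib.MP_551055_al.EA.w_of_loc l hsymm u (Or.inl hno) D hD, Art4.wt hsymm hD,
    Art4.rt hsymm hD, fun _ hm hm' =>
      N5.A5.mm_core D (N5.A5.starL l hsymm u hno D hD) ha hm hm'⟩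

/-- Module A6. -/
theorem stA6 : StA6 := fun _ _ l hsymm hno u D hD a ha =>
  stA6L l hsymm u (loc1_of hno u) D hD a ha

end Pool.Agent.Lib.MP_551055_al.N6
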