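import Mathlib
import Pool.Agent.Lib.MP_551055_al.Trim.N4.O_17
import Pool.Agent.Lib.MP_551055_al.Trim.N4.Rules_17
import Pool.Agent.Lib.MP_551055_al.Trim.N4.Stmts
import Pool.Agent.Lib.MP_551055_al.Trim.N5.LG5_54
import Pool.Agent.Lib.MP_551055_al.Trim.N5.Stmts
import Pool.Agent.Lib.MP_551055_al.Trim.N6.Stmts_17
import Pool.Agent.Lib.MP_551055_al.Trim.X.MP_e6f638_al.F
import Pool.Agent.Lib.MP_551055_al.Trim.X.MP_e6f638_al.GDefs
import Pool.Agent.Lib.MP_551055_al.Trim.X.MP_e6f638_al.I1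
import Pool.Agent.Lib.MP_551055_al.Trim.X.MP_e6f638_al.Stmts

/-!
# Module LG6: the lift in the mixed case
-/

set_option autoImplicit false

namespace Pool.Agent.Lib.MP_551055_al
end Pool.Agent.Lib.MP_551055_al

namespace Pool.Agent.Lib.MP_e6f638_al
end Pool.Agent.Lib.MP_e6f638_al

namespace Pool.Agent.Lib.MP_551055_al.N4
end Pool.Agent.Lib.MP_551055_al.N4

namespace Pool.Agent.Lib.MP_551055_al.N5
end Pool.Agent.Lib.MP_551055_al.N5

namespace Pool.Agent.Lib.MP_551055_al.N6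

open Pool.Agent.Lib.MP_551055_al

open Pool.Agent.Lib.MP_e6f638_al (Dat EA gen par rho del IsDatOf IsAxis)

open Pool.Agent.Lib.MP_551055_al.N4

open Pool.Agent.Lib.MP_551055_al.N5 (MM RRM kk S1M LiftOm PureExt)

open Multiplicative

/-- Module LG6. -/
theorem stLG6 : StLG6 := by
  classical
  intro P hP G _ D a hfin hM hW hS1 L _ j₀ w₀ hPL hE hφ hinj
  have hfour : ∀ i, D.l i = 2 ∨ 3 ≤ D.l i := fun i => by
    have := D.two_le i
    omega
  have hfin' : Finite {k : D.ι // 3 ≤ D.l k} := Finite.of_injective _ Subtype.val_injective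
  obtain ⟨L', iL', j₁, z₁, hPL', m2, m3⟩ := hP.many hPL {k : D.ι // 3 ≤ D.l k}
    fun k => {j₀ (D.t k)} ∪ (j₀ '' {b | b ∈ D.B ∧ Commute b (D.t k)} ∪ {w₀})
  have hpow := D.psi_pow hφ hinj
  have hc1 : ∀ i, Commute (D.oQ hφ hinj (D.phiQ hφ (D.z i))) (D.psiG hφ hinj (D.t i)) := by
    intro i
    have h5 := D.psi_rel hφ hinj i
    rw [hpow] at h5
    exact h5
  -- the map to `Omega`
  obtain ⟨π₀, q1, q2⟩ := hE.lift (D.Om hφ hinj) (D.psiG hφ hinj) (D.psiv hφ hinj)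
    (fun b hb => (D.psi_comm hφ hinj b hb).symm) (fun i hi => by
      have h5 := D.psi_rel hφ hinj i
      rw [hi] at h5
      exact h5)
  have q1' : ∀ g, π₀ (j₀ g) = D.psiG hφ hinj g := fun g => DFunLike.congr_fun q1 g
  obtain ⟨π, p0, pz⟩ := m3 (D.Om hφ hinj) π₀
    (fun k => D.oQ hφ hinj (D.phiQ hφ (D.z k))) (by
      rintro k x (rfl | ⟨b, ⟨hb, hc⟩, rfl⟩ | rfl)
      · rw [q1']
        exact hc1 k
      · have hb1 := D.h_B b hb
        rw [q1', D.psiG_of_one hφ hinj hb1]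
        change D.oQ hφ hinj (D.phiQ hφ (D.z k)) *
          D.oQ hφ hinj (D.phiQ hφ (D.inE ⟨b, hb1⟩)) = _
        rw [← map_mul, ← map_mul, D.z_comm k ⟨b, hb1⟩ hb hc, map_mul, map_mul]
        rfl
      · rw [q2]
        have h5 := hc1 k
        have h6 : Commute (D.psiG hφ hinj (D.t k) * D.psiv hφ hinj)
            (D.oQ hφ hinj (D.phiQ hφ (D.z k))) := by
          rw [← hpow]
          exact (Commute.refl _).pow_right _
        have h7 : D.psiv hφ hinj = (D.psiG hφ hinj (D.t k))⁻¹ *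
            (D.psiG hφ hinj (D.t k) * D.psiv hφ hinj) := by group
        rw [h7]
        exact (h5.inv_right).mul_right h6.symm)
  have p0' : ∀ g, π (j₁ g) = π₀ g := fun g => DFunLike.congr_fun p0 g
  -- the elements `z`
  let jj : G →* L' := j₁.comp j₀
  let w : L' := j₁ w₀
  let z : D.ι → L' := fun i => if h : 3 ≤ D.l i then z₁ ⟨i, h⟩ else (jj (D.t i) * w) ^ 2
  have zpos : ∀ (i : D.ι) (h : 3 ≤ D.l i), z i = z₁ ⟨i, h⟩ := fun i h => dif_pos h
  have z2 : ∀ i, D.l i = 2 → z i = (jj (D.t i) * w) ^ 2 := by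
    intro i hi
    exact dif_neg (by omega)
  have w1 : ∀ b ∈ D.B, Commute w (jj b) := fun b hb => (hE.comm b hb).map j₁
  have h1 : ∀ i, Commute (z i) (jj (D.t i)) := by
    intro i
    rcases hfour i with hi | hi
    · rw [z2 i hi]
      have h5 := (hE.rel i hi).map j₁
      rw [map_pow, map_mul] at h5
      exact h5
    · rw [zpos i hi]
      exact m2 ⟨i, hi⟩ _ (Or.inl rfl)
  have h2 : ∀ i, ∀ b ∈ D.B, Commute b (D.t i) → Commute (z i) (jj b) := by
    intro i b hb hc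
    rcases hfour i with hi | hi
    · rw [z2 i hi]
      exact ((hc.symm.map jj).mul_left (w1 b hb)).pow_left 2
    · rw [zpos i hi]
      exact m2 ⟨i, hi⟩ _ (Or.inr (Or.inl ⟨b, ⟨hb, hc⟩, rfl⟩))
  have z1 : ∀ i, Commute (z i) (jj (D.t i) * w) := by
    intro i
    rcases hfour i with hi | hi
    · rw [z2 i hi]
      exact (Commute.refl _).pow_left 2
    · refine (h1 i).mul_right ?_
      rw [zpos i hi]
      exact m2 ⟨i, hi⟩ _ (Or.inr (Or.inr rfl))
  have p1 : π.comp jj = D.psiG hφ hinj := by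
    ext g
    change π (j₁ (j₀ g)) = _
    rw [p0', q1']
  have p3 : π w = D.psiv hφ hinj := by
    change π (j₁ w₀) = _
    rw [p0', q2]
  have p2 : ∀ i, π (z i) = D.oQ hφ hinj (D.phiQ hφ (D.z i)) := by
    intro i
    rcases hfour i with hi | hi
    · have h5 := hpow i
      rw [hi] at h5
      rw [z2 i hi, map_pow, map_mul, p3, ← h5]
      have h6 := DFunLike.congr_fun p1 (D.t i)
      rw [MonoidHom.comp_apply] at h6
      rw [h6]
    · rw [zpos i hi, pz]
  have pt : π (jj D.t₀) = D.T hφ hinj := by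
    have h6 := DFunLike.congr_fun p1 D.t₀
    rw [MonoidHom.comp_apply, D.psiG_t₀] at h6
    exact h6
  refine ⟨L', iL', th D jj z h2, jj D.t₀, jj D.t₀ * w, π, hPL', ?_⟩
  refine ⟨fun e => pi_th D hφ hinj jj z h2 π p1 p2 e, pt, pi_xhat D hφ hinj jj w π p1 p3,
    fun e => th_tau D jj z h1 h2 e, fun e e' he => ?_⟩
  have h5 : D.phi e ∈ RRM D a := hS1 _ ⟨e, rfl⟩ (by rw [he]; exact ⟨e', rfl⟩)
  obtain ⟨f, f', k1, k2, k3⟩ := Pool.Agent.Lib.MP_551055_al.N5.LG5.RRM_le D (th D jj z h2) hφ jj z w (th_inE D jj z h2)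
    (th_z D jj z h2) w1 z1 z2 hM.la h5
  rw [← hinj k1, k3]
  congr 1
  exact hinj (by rw [k2, he])

end Pool.Agent.Lib.MP_551055_al.N6
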