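import Mathlib
import Pool.Agent.Lib.MP_551055_al.Trim.LS.Ray
import Pool.Agent.Lib.MP_551055_al.Trim.LS.Stmts
import Pool.Agent.Lib.MP_551055_al.Trim.MT.Defs
import Pool.Agent.Lib.MP_551055_al.Trim.N4.S2_17
import Pool.Agent.Lib.MP_551055_al.Trim.N5.Base_17
import Pool.Agent.Lib.MP_551055_al.Trim.N5.Stmts
import Pool.Agent.Lib.MP_551055_al.Trim.N6.Stmts_17
import Pool.Agent.Lib.MP_551055_al.Trim.T4.GlDim
import Pool.Agent.Lib.MP_551055_al.Trim.T4.Mods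
import Pool.Agent.Lib.MP_551055_al.Trim.X.MP_e6f638_al.I1
import Pool.Agent.Lib.MP_551055_al.Trim.X.MP_e6f638_al.Stmts

/-!
# The mixed case with label six: basic lemmas
-/

set_option autoImplicit false

namespace Pool.Agent.Lib.MP_551055_al
end Pool.Agent.Lib.MP_551055_al

namespace Pool.Agent.Lib.MP_e6f638_al
end Pool.Agent.Lib.MP_e6f638_al

namespace Pool.Agent.Lib.MP_551055_al.N4
end Pool.Agent.Lib.MP_551055_al.N4

namespace Pool.Agent.Lib.MP_551055_al.N5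
end Pool.Agent.Lib.MP_551055_al.N5

namespace Pool.Agent.Lib.MP_551055_al.N6

open Pool.Agent.Lib.MP_551055_al

open Pool.Agent.Lib.MP_e6f638_al (Dat EA gen par rho del IsDatOf IsAxis)

open Pool.Agent.Lib.MP_551055_al.N4

open Pool.Agent.Lib.MP_551055_al.N5 (MM RRM kk S1M B_le tt_mem kk_self kk_mem mm_hom mm_h kk_h xbx xx xi_eq kk_RE xsq_mem xmul_mem xMM xMMx x_xi tt0_RE)

open Multiplicative

section

variable {G : Type} [Group G] {D : Dat G}

variable {a : D.ι} (hM : Mix3 D a)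

include hM in
theorem ne_a {k : D.ι} (hk : 3 ≤ D.l k) : k ≠ a := by
  rintro rfl
  have := hM.la
  omega

include hM in
/-- (F2) -/
theorem two_t {i j : D.ι} (ε : ℤˣ) {b : G} (hb : b ∈ D.B)
    (h : D.t i ^ (ε : ℤ) * b * D.t j ^ ((-ε : ℤˣ) : ℤ) ∈ D.B) : i = j ∧ Commute b (D.t i) := by
  by_contra hn
  refine hM.w i j ε b _ hb (fun h1 h2 => hn ⟨h1, h2⟩)
    (Dat.Chain.base j (-ε) trivial) ?_
  exact h

include hM in
theorem two_pos {i j : D.ι} {b : G} (hb : b ∈ D.B) (h : D.t i * b * (D.t j)⁻¹ ∈ D.B) :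
    i = j ∧ Commute b (D.t i) := by
  refine two_t hM 1 hb ?_
  rwa [units_one_zpow, units_neg_one_zpow]

include hM in
theorem two_neg {i j : D.ι} {b : G} (hb : b ∈ D.B) (h : (D.t i)⁻¹ * b * D.t j ∈ D.B) :
    i = j ∧ Commute b (D.t i) := by
  refine two_t hM (-1) hb ?_
  have hnn : ((- -1 : ℤˣ) : ℤ) = 1 := by simp
  rwa [units_neg_one_zpow, hnn, zpow_one]

include hM in
/-- Weights which vanish on `MM`. -/
theorem wt_mm {k : D.ι} (hk : 3 ≤ D.l k) : ∃ w : G →* Multiplicative ℤ, w (D.t k) = ofAdd 1 ∧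
    (∀ i, i ≠ k → w (D.t i) = 1) ∧ (∀ b ∈ D.B, w b = 1) ∧ ∀ m ∈ MM D, w m = 1 := by
  obtain ⟨w, h1, h2, h3⟩ := hM.wt k
  refine ⟨w, h1, h2, h3, fun m hm => ?_⟩
  refine mm_hom (f := w) (g := 1) (fun b hb => h3 b hb) (fun i hi => h2 i ?_) hm
  rintro rfl
  omega

include hM in
/-- Retractions which are the identity on `MM`. -/
theorem rt_mm {k : D.ι} (hk : 3 ≤ D.l k) : ∃ ρ : G →* G, ρ (D.t k) = 1 ∧
    (∀ i, i ≠ k → ρ (D.t i) = D.t i) ∧ (∀ b ∈ D.B, ρ b = b) ∧ ∀ m ∈ MM D, ρ m = m := by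
  obtain ⟨ρ, h1, h2, h3⟩ := hM.rt k
  refine ⟨ρ, h1, h2, h3, fun m hm => ?_⟩
  refine mm_hom (f := ρ) (g := MonoidHom.id G) (fun b hb => h3 b hb) (fun i hi => h2 i ?_) hm
  rintro rfl
  omega

include hM in
/-- (G2) -/
theorem g2 {i j : D.ι} {b : G} (hb : b ∈ D.B) (hij : 3 ≤ D.l i ∨ 3 ≤ D.l j)
    (h : D.t i * b * (D.t j)⁻¹ ∈ MM D) : i = j ∧ Commute b (D.t i) := by
  have h1 : i = j := by
    by_contra hne
    rcases hij with hk | hk
    · obtain ⟨w, w1, w2, w3, w4⟩ := wt_mm hM hk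
      have h2 := w4 _ h
      rw [map_mul, map_mul, map_inv, w1, w3 b hb, w2 j (fun h => hne h.symm), mul_one, inv_one,
        mul_one] at h2
      exact absurd (congrArg toAdd h2) (by simp)
    · obtain ⟨w, w1, w2, w3, w4⟩ := wt_mm hM hk
      have h2 := w4 _ h
      rw [map_mul, map_mul, map_inv, w1, w3 b hb, w2 i hne, mul_one, one_mul] at h2
      exact absurd (congrArg toAdd h2) (by simp)
  subst h1
  refine ⟨rfl, ?_⟩
  have hk : 3 ≤ D.l i := hij.elim id id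
  obtain ⟨ρ, r1, r2, r3, r4⟩ := rt_mm hM hk
  have h2 := r4 _ h
  rw [map_mul, map_mul, map_inv, r1, r3 b hb, one_mul, inv_one, mul_one] at h2
  exact eq_mul_inv_iff_mul_eq.1 h2

include hM in
/-- (G4) -/
theorem g4 {k : D.ι} (hk : 3 ≤ D.l k) {μ : G} (hμ : μ ∈ MM D)
    (h : D.t a * ((D.t k)⁻¹ * μ * D.t k) * (D.t a)⁻¹ ∈ MM D) :
    μ ∈ D.B ∧ Commute μ (D.t k) := by
  obtain ⟨ρ, r1, r2, r3, r4⟩ := rt_mm hM hk
  have h1 := r4 _ h
  have hak : a ≠ k := fun h => ne_a hM hk h.symm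
  simp only [map_mul, map_inv, r1, r2 a hak, r4 μ hμ, inv_one, one_mul, mul_one] at h1
  have h2 : μ = (D.t k)⁻¹ * μ * D.t k := mul_left_cancel (mul_right_cancel h1)
  refine ⟨hM.mm μ hμ ?_, ?_⟩
  · rw [← h2] at h
    exact h
  · have h3 : D.t k * μ = μ * D.t k := by
      have h4 : D.t k * μ = D.t k * ((D.t k)⁻¹ * μ * D.t k) := by rw [← h2]
      rw [h4]
      group
    exact h3.symm

end

end Pool.Agent.Lib.MP_551055_al.N6
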