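import Mathlib
import Pool.Agent.Lib.MP_551055_al.Trim.LS.Ray
import Pool.Agent.Lib.MP_551055_al.Trim.LS.Stmts
import Pool.Agent.Lib.MP_551055_al.Trim.MT.Defs
import Pool.Agent.Lib.MP_551055_al.Trim.MT.K1
import Pool.Agent.Lib.MP_551055_al.Trim.N4.Loc_17
import Pool.Agent.Lib.MP_551055_al.Trim.N4.Stmts
import Pool.Agent.Lib.MP_551055_al.Trim.N5.Base_17
import Pool.Agent.Lib.MP_551055_al.Trim.N5.S2M_17
import Pool.Agent.Lib.MP_551055_al.Trim.N5.Stmts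
import Pool.Agent.Lib.MP_551055_al.Trim.N6.Base_17
import Pool.Agent.Lib.MP_551055_al.Trim.N6.S2A_17
import Pool.Agent.Lib.MP_551055_al.Trim.N6.Stmts_17
import Pool.Agent.Lib.MP_551055_al.Trim.X.MP_e6f638_al.F
import Pool.Agent.Lib.MP_551055_al.Trim.X.MP_e6f638_al.Stmts

/-!
# Module S2M6, second part: the transitions between exceptional edges
-/

set_option autoImplicit false

namespace Pool.Agent.Lib.MP_551055_al
end Pool.Agent.Lib.MP_551055_al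

namespace Pool.Agent.Lib.MP_e6f638_al
end Pool.Agent.Lib.MP_e6f638_al

namespace Pool.Agent.Lib.MP_551055_al.N4
end Pool.Agent.Lib.MP_551055_al.N4

namespace Pool.Agent.Lib.MP_551055_al.N5
end Pool.Agent.Lib.MP_551055_al.N5

namespace Pool.Agent.Lib.MP_551055_al.N6

open Pool.Agent.Lib.MP_551055_al

open Pool.Agent.Lib.MP_e6f638_al (Dat IsAxis)

open Pool.Agent.Lib.MP_551055_al.N4

open Pool.Agent.Lib.MP_551055_al.N5 (MM RRM kk S1M B_le tt_mem kk_self kk_mem mm_hom mm_h kk_h xbx xx xi_eq kk_RE xsq_mem xmul_mem xMM xMMx x_xi tt0_RE NC nc_of xi_comm pt_xi_u pt_mul_u TV SV SSv mul_ofG_inv OT IT ofAdd_ne ofAdd_inv_ne ofAdd_inv_ne' ss_of TT)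

open Multiplicative

section

variable {G : Type} [Group G] {D : Dat G} {a : D.ι}

/-- Names of exceptional edges. -/
structure XN (D : Dat G) (k k' p : D.Ah) (b : G) (j j' : D.ι) : Prop where
  l : Nm D k p j
  m : b ∈ D.B
  r : Nm D k' (p * D.ofG b) j'

theorem sv_sv (hW : WdM3 D a) {k P : D.Ah} {m : G} (h : SV D a k P)
    (h' : SV D a k (P * D.ofG m)) : m ∈ MM D := by
  obtain ⟨e, he, rfl⟩ := h
  obtain ⟨e', he', h1⟩ := h'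
  apply hW.cS
  have h2 : xi D a * D.ofG m * (xi D a)⁻¹ = e⁻¹ * e' := by
    apply mul_left_cancel (a := k * e)
    apply mul_right_cancel (b := xi D a)
    have h3 : k * e * (xi D a * D.ofG m * (xi D a)⁻¹) * xi D a = k * e * xi D a * D.ofG m := by
      group
    rw [h3, h1]
    group
  rw [h2]
  exact mul_mem (inv_mem he) he'

theorem ss_ss (hW : WdM3 D a) {k k' P₁ P₂ : D.Ah} {g₁ g₂ : G} (h₁ : SSv D a k k' P₁ g₁)
    (h₂ : SSv D a k k' P₂ g₂) (h : pt D P₁ = pt D P₂) :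
    ∃ m ∈ MM D, ∃ m' ∈ MM D, P₂ = P₁ * D.ofG m ∧ m * g₂ = g₁ * m' := by
  obtain ⟨m, rfl⟩ := (pt_eq D).1 h
  refine ⟨m, sv_sv hW h₁.l h₂.l, g₁⁻¹ * (m * g₂), ?_, rfl, by group⟩
  refine sv_sv hW h₁.r ?_
  have h3 : P₁ * D.ofG g₁ * D.ofG (g₁⁻¹ * (m * g₂)) = P₁ * D.ofG m * D.ofG g₂ := by
    simp only [map_mul, map_inv]
    group
  rw [h3]
  exact h₂.r

/-! ### The types -/

/-- The type of an element of `G`. -/
structure Ty (D : Dat G) (g : G) (i i' : D.ι) : Prop where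
  wt : ∀ c, 3 ≤ D.l c → ∀ W : G →* Multiplicative ℤ, (∀ i, i ≠ c → W (D.t i) = 1) →
    (∀ b ∈ D.B, W b = 1) → (∀ m ∈ MM D, W m = 1) → W g = W (D.t i) * (W (D.t i'))⁻¹
  k1 : i = i' → ∀ c, 3 ≤ D.l c → c ≠ i → ∀ ρ : G →* G, (∀ i, i ≠ c → ρ (D.t i) = D.t i) →
    (∀ b ∈ D.B, ρ b = b) → ρ g = g
  k2 : i = i' → 3 ≤ D.l i → ∀ ρ : G →* G, ρ (D.t i) = 1 → (∀ j, j ≠ i → ρ (D.t j) = D.t j) →
    (∀ b ∈ D.B, ρ b = b) → ρ g ∈ MM D

theorem ty_out {b : G} (hb : b ∈ D.B) (j j' : D.ι) : Ty D (D.t j * b * (D.t j')⁻¹) j j' where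
  wt c _ W _ w3 _ := by rw [map_mul, map_mul, map_inv, w3 b hb, mul_one]
  k1 h c _ hc ρ h2 h3 := by
    subst h
    rw [map_mul, map_mul, map_inv, h3 b hb, h2 j hc.symm]
  k2 h _ ρ h1 _ h3 := by
    subst h
    rw [map_mul, map_mul, map_inv, h1, h3 b hb, inv_one, mul_one, one_mul]
    exact B_le hb

theorem ty_in (hM : Mix3 D a) {b : G} (hb : b ∈ D.B) (j j' : D.ι) :
    Ty D (kk D a j * b * (kk D a j')⁻¹) j' j where
  wt c hc W w2 w3 _ := by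
    have h1 : a ≠ c := fun h => ne_a hM hc h.symm
    simp only [kk, map_mul, map_inv, w2 a h1, w3 b hb, one_mul, mul_one, mul_inv_rev, inv_inv,
      inv_one]
    rw [mul_comm]
  k1 h c hc hcj ρ h2 h3 := by
    subst h
    have h1 : a ≠ c := fun h => ne_a hM hc h.symm
    simp only [kk, map_mul, map_inv, h2 a h1, h3 b hb, h2 _ hcj.symm]
  k2 h hj ρ h1 h2 h3 := by
    subst h
    have h4 : a ≠ j' := fun h => ne_a hM hj h.symm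
    simp only [kk, map_mul, map_inv, h2 a h4, h3 b hb, h1, inv_one, mul_one]
    exact tbt hM hb

theorem idx (hM : Mix3 D a) {g₁ g₂ m m' : G} {i₁ i₁' i₂ i₂' : D.ι} (h₁ : Ty D g₁ i₁ i₁')
    (h₂ : Ty D g₂ i₂ i₂') (l₁ : 3 ≤ D.l i₁) (l₁' : 3 ≤ D.l i₁') (l₂ : 3 ≤ D.l i₂)
    (hm : m ∈ MM D) (hm' : m' ∈ MM D) (h : m * g₂ = g₁ * m')
    (hg : g₁ ∉ MM D) : i₂ = i₁ ∧ i₂' = i₁' := by
  have key : ∀ c, 3 ≤ D.l c → ∃ W : G →* Multiplicative ℤ, W (D.t c) = ofAdd 1 ∧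
      (∀ i, i ≠ c → W (D.t i) = 1) ∧
      W (D.t i₂) * (W (D.t i₂'))⁻¹ = W (D.t i₁) * (W (D.t i₁'))⁻¹ := by
    intro c hc
    obtain ⟨W, w1, w2, w3, w4⟩ := wt_mm hM hc
    refine ⟨W, w1, w2, ?_⟩
    have h1 := congrArg W h
    rw [map_mul, map_mul, w4 m hm, w4 m' hm', one_mul, mul_one, h₂.wt c hc W w2 w3 w4,
      h₁.wt c hc W w2 w3 w4] at h1
    exact h1
  by_cases h11 : i₁ = i₁'
  · subst h11
    by_cases h2 : i₂ = i₁
    · refine ⟨h2, ?_⟩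
      subst h2
      by_contra h3
      obtain ⟨W, w1, w2, w3⟩ := key i₂ l₁
      rw [w1, w2 _ h3, inv_one, mul_one, mul_inv_cancel] at w3
      exact ofAdd_ne w3
    · exfalso
      have h3 : i₂' = i₂ := by
        by_contra h3
        obtain ⟨W, w1, w2, w3⟩ := key i₂ l₂
        rw [w1, w2 _ h3, mul_inv_cancel, inv_one, mul_one] at w3
        exact ofAdd_ne w3
      obtain ⟨ρ, r1, r2, r3, r4⟩ := rt_mm hM l₂
      have h4 := congrArg ρ h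
      rw [map_mul, map_mul, r4 m hm, r4 m' hm', h₁.k1 rfl i₂ l₂ h2 ρ r2 r3] at h4
      apply hg
      have h5 : g₁ = m * ρ g₂ * m'⁻¹ := by
        rw [h4]
        group
      rw [h5]
      exact mul_mem (mul_mem hm (h₂.k2 h3.symm l₂ ρ r1 r2 r3)) (inv_mem hm')
  · have h2 : i₂ = i₁ := by
      by_contra h2
      obtain ⟨W, w1, w2, w3⟩ := key i₁ l₁
      rw [w1, w2 _ h2, w2 i₁' (fun h => h11 h.symm), inv_one, mul_one, one_mul] at w3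
      by_cases h3 : i₂' = i₁
      · rw [h3, w1] at w3
        exact ofAdd_inv_ne' w3
      · rw [w2 _ h3, inv_one] at w3
        exact ofAdd_ne w3.symm
    refine ⟨h2, ?_⟩
    subst h2
    by_contra h3
    obtain ⟨W, w1, w2, w3⟩ := key i₁' l₁'
    rw [w1, w2 _ h3, w2 i₂ h11, inv_one, mul_one, one_mul] at w3
    exact ofAdd_inv_ne w3.symm

/-! ### The pairs at the ends of an exceptional edge -/

theorem XN.src {k k' p : D.Ah} {b : G} {j j' : D.ι} (h : XN D k k' p b j j') :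
    SSv D a k k' (p * D.ofG (D.t j)⁻¹) (D.t j * b * (D.t j')⁻¹) := by
  refine ⟨nm_src h.l, ?_⟩
  have h6 := nm_src (a := a) h.r
  have h7 : p * D.ofG (D.t j)⁻¹ * D.ofG (D.t j * b * (D.t j')⁻¹) =
      p * D.ofG b * D.ofG (D.t j')⁻¹ := by
    simp only [map_mul, map_inv]
    group
  rw [h7]
  exact h6

theorem XN.tgt (hla : D.l a = 2) {k k' p : D.Ah} {b : G} {j j' : D.ι}
    (h : XN D k k' p b j j') :
    SSv D a k k' (p * D.u * D.ofG (kk D a j)⁻¹) (kk D a j * b * (kk D a j')⁻¹) := by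
  refine ⟨nm_tgt hla h.l, ?_⟩
  have h6 := nm_tgt (a := a) hla h.r
  have h7 : p * D.u * D.ofG (kk D a j)⁻¹ * D.ofG (kk D a j * b * (kk D a j')⁻¹) =
      p * D.ofG b * D.u * D.ofG (kk D a j')⁻¹ := by
    rw [mul_assoc p (D.ofG b), ← D.u_comm h.m]
    simp only [map_mul, map_inv]
    group
  rw [h7]
  exact h6

/-! ### The transitions -/

theorem trOO (hM : Mix3 D a) (hW : WdM3 D a) {k k' : D.Ah} (hn : NC D a k k') {p₁ p₂ : D.Ah}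
    {b₁ b₂ : G} {j₁ j₁' j₂ j₂' : D.ι} (h₁ : XN D k k' p₁ b₁ j₁ j₁') (h₂ : XN D k k' p₂ b₂ j₂ j₂')
    (h : pt D p₁ = pt D p₂) : j₂ = j₁ ∧ j₂' = j₁' ∧ ∃ m ∈ MM D, ∃ m' ∈ MM D,
      p₂ = p₁ * D.ofG ((D.t j₁)⁻¹ * m * D.t j₁) ∧
      (D.t j₁)⁻¹ * m * D.t j₁ * b₂ = b₁ * (D.t j₁')⁻¹ * m' * D.t j₁' := by
  obtain ⟨m, hm, m', hm', h3, h4⟩ := ss_ss hW h₁.src h₂.src (by rw [pt_mul_ofG, pt_mul_ofG, h])
  have l1 := h₁.l.1
  have l2 := h₁.r.1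
  have l3 := h₂.l.1
  have h5 := idx hM (ty_out h₁.m j₁ j₁') (ty_out h₂.m j₂ j₂') (by omega) (by omega) (by omega)
    hm hm' h4 (ssv_nm hM hn h₁.src)
  obtain ⟨rfl, rfl⟩ := h5
  refine ⟨rfl, rfl, m, hm, m', hm', ?_, ?_⟩
  · have h6 : p₂ = p₂ * D.ofG (D.t j₂)⁻¹ * D.ofG (D.t j₂) := by
      rw [map_inv, inv_mul_cancel_right]
    rw [h6, h3]
    simp only [map_mul, map_inv, mul_assoc]
  · have h6 : m * (D.t j₂ * b₂) = D.t j₂ * b₁ * (D.t j₂')⁻¹ * m' * D.t j₂' := by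
      rw [← h4]
      group
    have h7 : (D.t j₂)⁻¹ * m * D.t j₂ * b₂ = (D.t j₂)⁻¹ * (m * (D.t j₂ * b₂)) := by group
    rw [h7, h6]
    group

theorem trII (hM : Mix3 D a) (hW : WdM3 D a) {k k' : D.Ah} (hn : NC D a k k') {p₁ p₂ : D.Ah}
    {b₁ b₂ : G} {j₁ j₁' j₂ j₂' : D.ι} (h₁ : XN D k k' p₁ b₁ j₁ j₁') (h₂ : XN D k k' p₂ b₂ j₂ j₂')
    (h : pt D (p₁ * D.u) = pt D (p₂ * D.u)) : j₂ = j₁ ∧ j₂' = j₁' ∧ ∃ m ∈ MM D, ∃ m' ∈ MM D,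
      p₂ = p₁ * D.u * D.ofG (D.t j₁ * ((D.t a)⁻¹ * m * D.t a) * (D.t j₁)⁻¹) * D.u⁻¹ ∧
      D.t j₁ * ((D.t a)⁻¹ * m * D.t a) * (D.t j₁)⁻¹ * b₂ =
        b₁ * D.t j₁' * ((D.t a)⁻¹ * m' * D.t a) * (D.t j₁')⁻¹ := by
  obtain ⟨m, hm, m', hm', h3, h4⟩ := ss_ss hW (h₁.tgt hM.la) (h₂.tgt hM.la)
    (by rw [pt_mul_ofG, pt_mul_ofG, h])
  have l1 := h₁.l.1
  have l2 := h₁.r.1
  have l3 := h₂.r.1
  have h5 := idx hM (ty_in hM h₁.m j₁ j₁') (ty_in hM h₂.m j₂ j₂') (by omega) (by omega)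
    (by omega) hm hm' h4 (ssv_nm hM hn (h₁.tgt hM.la))
  obtain ⟨rfl, rfl⟩ := h5
  refine ⟨rfl, rfl, m, hm, m', hm', ?_, ?_⟩
  · have h6 : p₂ = p₂ * D.u * D.ofG (kk D a j₂)⁻¹ * D.ofG (kk D a j₂) * D.u⁻¹ := by
      rw [map_inv, inv_mul_cancel_right, mul_inv_cancel_right]
    rw [h6, h3]
    simp only [kk, map_mul, map_inv, mul_inv_rev, inv_inv, mul_assoc]
  · have h6 : m * (kk D a j₂ * b₂ * (kk D a j₂')⁻¹) = kk D a j₂ * b₁ * (kk D a j₂')⁻¹ * m' := h4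
    have h7 : D.t j₂ * ((D.t a)⁻¹ * m * D.t a) * (D.t j₂)⁻¹ * b₂ =
        (kk D a j₂)⁻¹ * (m * (kk D a j₂ * b₂ * (kk D a j₂')⁻¹)) * kk D a j₂' := by
      rw [kk, kk]
      group
    rw [h7, h6, kk, kk]
    group

theorem trIO (hM : Mix3 D a) (hW : WdM3 D a) {k k' : D.Ah} (hn : NC D a k k') {p₁ p₂ : D.Ah}
    {b₁ b₂ : G} {j₁ j₁' j₂ j₂' : D.ι} (h₁ : XN D k k' p₁ b₁ j₁ j₁') (h₂ : XN D k k' p₂ b₂ j₂ j₂')
    (h : pt D (p₁ * D.u) = pt D p₂) : j₂ = j₁' ∧ j₂' = j₁ ∧ ∃ m ∈ MM D, ∃ m' ∈ MM D,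
      p₂ = p₁ * D.u * D.ofG (D.t j₁ * ((D.t a)⁻¹ * m) * D.t j₁') ∧
      D.t j₁ * ((D.t a)⁻¹ * m) * D.t j₁' * b₂ =
        b₁ * D.t j₁' * ((D.t a)⁻¹ * m') * D.t j₁ := by
  obtain ⟨m, hm, m', hm', h3, h4⟩ := ss_ss hW (h₁.tgt hM.la) h₂.src
    (by rw [pt_mul_ofG, pt_mul_ofG, h])
  have l1 := h₁.l.1
  have l2 := h₁.r.1
  have l3 := h₂.l.1
  have h5 := idx hM (ty_in hM h₁.m j₁ j₁') (ty_out h₂.m j₂ j₂') (by omega) (by omega)
    (by omega) hm hm' h4 (ssv_nm hM hn (h₁.tgt hM.la))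
  obtain ⟨rfl, rfl⟩ := h5
  refine ⟨rfl, rfl, m, hm, m', hm', ?_, ?_⟩
  · have h6 : p₂ = p₂ * D.ofG (D.t j₂)⁻¹ * D.ofG (D.t j₂) := by
      rw [map_inv, inv_mul_cancel_right]
    rw [h6, h3]
    simp only [kk, map_mul, map_inv, mul_inv_rev, inv_inv, mul_assoc]
  · have h7 : D.t j₂' * ((D.t a)⁻¹ * m) * D.t j₂ * b₂ =
        (kk D a j₂')⁻¹ * (m * (D.t j₂ * b₂ * (D.t j₂')⁻¹)) * D.t j₂' := by
      rw [kk]
      group
    rw [h7, h4, kk, kk]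
    group

/-! ### Names -/

theorem nm_B {k p : D.Ah} {j : D.ι} (h : Nm D k p j) {β : G} (hβ : β ∈ D.B)
    (hc : Commute β (D.t j)) : Nm D k (p * D.ofG β) j := by
  obtain ⟨hj, e, he, rfl⟩ := h
  refine ⟨hj, e * D.ofG β, mul_mem he (ofG_mem_RE D (D.h_B β hβ)), ?_⟩
  have h1 : D.ofG (D.t j) * D.ofG β = D.ofG β * D.ofG (D.t j) := by
    rw [← map_mul, ← map_mul, hc.eq]
  rw [mul_assoc _ (D.ofG (D.t j)), h1, ← mul_assoc, mul_assoc _ (xi D j),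
    ← (xi_comm hβ hc).eq]
  simp only [mul_assoc]

theorem nm_uniq (hM : Mix3 D a) (hW : WdM3 D a) {k p : D.Ah} {β : G} {j j' : D.ι}
    (hβ : β ∈ D.B) (h : Nm D k p j) (h' : Nm D k (p * D.ofG β) j') :
    j = j' ∧ Commute β (D.t j) := by
  have h1 := nm_src (a := a) h
  have h2 := nm_src (a := a) h'
  have h3 : p * D.ofG β * D.ofG (D.t j')⁻¹ =
      p * D.ofG (D.t j)⁻¹ * D.ofG (D.t j * β * (D.t j')⁻¹) := by
    simp only [map_mul, map_inv]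
    group
  rw [h3] at h2
  have l1 := h.1
  exact g2 hM hβ (Or.inl (by omega)) (sv_sv hW h1 h2)

theorem nm_smul {k p y : D.Ah} {j : D.ι} (h : Nm D k p j) (hy : k⁻¹ * y * k ∈ RE D) :
    Nm D k (y * p) j := by
  obtain ⟨hj, e, he, rfl⟩ := h
  refine ⟨hj, (k⁻¹ * y * k) * e, mul_mem hy he, ?_⟩
  group

/-- Two names of the same directed edge. -/
theorem XN.not_comm {k k' p : D.Ah} {b : G} {j : D.ι} (hn : NC D a k k')
    (h : XN D k k' p b j j) : ¬ Commute b (D.t j) := by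
  intro hc
  have h1 := nm_B h.r (inv_mem h.m) hc.inv_left
  rw [mul_assoc, ← map_mul, mul_inv_cancel, map_one, mul_one] at h1
  obtain ⟨_, e, he, h2⟩ := h.l
  obtain ⟨_, e', he', h3⟩ := h1
  apply hn.mm e he e' he'
  congr 1
  have h4 : k * e = p * (xi D j * D.ofG (D.t j))⁻¹ := by
    rw [h2]
    group
  have h5 : k' * e' = p * (xi D j * D.ofG (D.t j))⁻¹ := by
    rw [h3]
    group
  rw [h4, h5]

end

end Pool.Agent.Lib.MP_551055_al.N6
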