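import Mathlib
import Pool.Agent.Lib.MP_551055_al.Trim.LS.Ray
import Pool.Agent.Lib.MP_551055_al.Trim.MT.Defs
import Pool.Agent.Lib.MP_551055_al.Trim.N4.Stmts
import Pool.Agent.Lib.MP_551055_al.Trim.N5.Base_17
import Pool.Agent.Lib.MP_551055_al.Trim.N5.S2M_17
import Pool.Agent.Lib.MP_551055_al.Trim.N5.Stmts
import Pool.Agent.Lib.MP_551055_al.Trim.N6.S2B_17
import Pool.Agent.Lib.MP_551055_al.Trim.N6.Words_17
import Pool.Agent.Lib.MP_551055_al.Trim.RI.Stmts
import Pool.Agent.Lib.MP_551055_al.Trim.W17.Peel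
import Pool.Agent.Lib.MP_551055_al.Trim.X.MP_e6f638_al.F
import Pool.Agent.Lib.MP_551055_al.Trim.X.MP_e6f638_al.I1
import Pool.Agent.Lib.MP_551055_al.Trim.X.MP_e6f638_al.I2
import Pool.Agent.Lib.MP_551055_al.Trim.X.MP_e6f638_al.Stmts

/-!
# Module S2M6, third part: the names along the axis for even Artin groups
-/

set_option autoImplicit false

namespace Pool.Agent.Lib.MP_551055_al
end Pool.Agent.Lib.MP_551055_al

namespace Pool.Agent.Lib.MP_e6f638_al
end Pool.Agent.Lib.MP_e6f638_al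

namespace Pool.Agent.Lib.MP_551055_al.N4
end Pool.Agent.Lib.MP_551055_al.N4

namespace Pool.Agent.Lib.MP_551055_al.N5
end Pool.Agent.Lib.MP_551055_al.N5

namespace Pool.Agent.Lib.MP_551055_al.N6

open Pool.Agent.Lib.MP_551055_al

open Pool.Agent.Lib.MP_e6f638_al (Dat EA gen par rho del IsDatOf IsAxis inD killD inD_gen killD_gen killD_self hom_ext_EA rho_mem rho_not_mem rho_par rho_mem_par gen_mem_par par_mono par_inter rho_par_le inD_injective)

open Pool.Agent.Lib.MP_551055_al.N4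

open Pool.Agent.Lib.MP_551055_al.N5 (MM RRM kk S1M B_le tt_mem kk_self kk_mem mm_hom mm_h kk_h xbx xx xi_eq kk_RE xsq_mem xmul_mem xMM xMMx x_xi tt0_RE NC nc_of xi_comm pt_xi_u pt_mul_u TV SV SSv mul_ofG_inv OT IT ofAdd_ne ofAdd_inv_ne ofAdd_inv_ne' ss_of TT)

open Multiplicative

/-! ### The subgroups of `Ah` -/

section

variable {S : Type} {l : S → S → ℕ} {u : S} {D : Dat (EA (del l u))}

/-- The subgroup of `Ah` generated by `u` and a standard subgroup. -/
noncomputable def HX (D : Dat (EA (del l u))) (X : Set {x : S // x ≠ u}) : Subgroup D.Ah :=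
  Subgroup.closure ({D.u} ∪ D.ofG '' (par (del l u) X : Set (EA (del l u))))

theorem u_HX (X : Set {x : S // x ≠ u}) : D.u ∈ HX D X :=
  Subgroup.subset_closure (Or.inl rfl)

theorem ofG_HX {X : Set {x : S // x ≠ u}} {g : EA (del l u)} (hg : g ∈ par (del l u) X) :
    D.ofG g ∈ HX D X := Subgroup.subset_closure (Or.inr ⟨g, hg, rfl⟩)

theorem kill_par {s : S} {X : Set S} (hs : s ∉ X) {g : EA l} (hg : g ∈ par l X)
    (h : killD l s g = 1) : g = 1 := by
  have h5 : (inD l s).comp (killD l s) = rho l {s}ᶜ := by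
    refine hom_ext_EA _ fun v => ?_
    by_cases hv : v = s
    · rw [MonoidHom.comp_apply, hv, killD_self, map_one, rho_not_mem l (by simp)]
    · rw [MonoidHom.comp_apply, killD_gen l s hv, inD_gen, rho_mem l (by simpa using hv)]
  have h6 : g ∈ par l {s}ᶜ := par_mono l (by
    intro x hx hx'
    rw [Set.mem_singleton_iff] at hx'
    rw [hx'] at hx
    exact hs hx) hg
  have h7 := DFunLike.congr_fun h5 g
  rw [MonoidHom.comp_apply, h, map_one, rho_par l h6] at h7
  exact h7.symm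

theorem lam_HX {lam : D.Ah →* EA l} (h1 : ∀ g, lam (D.ofG g) = inD l u g)
    (h2 : lam D.u = gen l u) {X : Set {x : S // x ≠ u}} {h : D.Ah} (hh : h ∈ HX D X) :
    lam h ∈ par l (insert u ((fun x : {x : S // x ≠ u} => (x : S)) '' X)) := by
  have h3 : HX D X ≤ (par l (insert u ((fun x : {x : S // x ≠ u} => (x : S)) '' X))).comap
      lam := by
    rw [HX, Subgroup.closure_le]
    rintro x (hx | ⟨g, hg, rfl⟩)
    · rw [Set.mem_singleton_iff] at hx
      subst hx
      rw [SetLike.mem_coe, Subgroup.mem_comap, h2]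
      exact gen_mem_par l (Or.inl rfl)
    · rw [SetLike.mem_coe, Subgroup.mem_comap, h1]
      have h4 : par (del l u) X ≤ (par l (insert u
          ((fun x : {x : S // x ≠ u} => (x : S)) '' X))).comap (inD l u) := by
        rw [par, Subgroup.closure_le]
        rintro y ⟨s, hs, rfl⟩
        rw [SetLike.mem_coe, Subgroup.mem_comap, inD_gen]
        exact gen_mem_par l (Or.inr ⟨s, hs, rfl⟩)
      exact h4 hg
  exact h3 hh

/-- The end of the argument. -/
theorem finish {lam : D.Ah →* EA l} (h1 : ∀ g, lam (D.ofG g) = inD l u g)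
    (h2 : lam D.u = gen l u) (hinj : ∀ e : D.E, lam (D.phi e) = 1 → e = 1) {y : D.Ah}
    (hy : y ∈ RE D) (hk : ∀ s, killD l s (lam y) = 1) {X : Set {x : S // x ≠ u}}
    {s : {x : S // x ≠ u}} (hs : s ∉ X) {p h : D.Ah} (hh : h ∈ HX D X)
    (hyp : y = p * h * p⁻¹) : y = 1 := by
  have h3 : killD l (s : S) (lam h) = 1 := by
    have h4 := hk s
    rw [hyp] at h4
    simp only [map_mul, map_inv] at h4
    rw [mul_inv_eq_one] at h4
    exact mul_left_cancel (a := killD l (s : S) (lam p)) (by rw [h4, mul_one])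
  have h5 : lam h = 1 := by
    refine kill_par (s := (s : S)) ?_ (lam_HX h1 h2 hh) h3
    rintro (h6 | ⟨x, hx, h6⟩)
    · exact s.2 h6
    · exact hs (Subtype.ext h6 ▸ hx)
  obtain ⟨e, rfl⟩ := hy
  have h6 : lam (D.phi e) = 1 := by
    rw [hyp, map_mul, map_mul, h5, mul_one, map_inv, mul_inv_cancel]
  rw [hinj e h6, map_one]

end

/-! ### Standard subgroups for the data -/

section

variable {S : Type} {l : S → S → ℕ} {u : S} {D : Dat (EA (del l u))} {a : D.ι}

theorem Adm.del {l : S → S → ℕ} (h : Adm l) (u : S) : Adm (del l u) where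
  symm s t := h.symm s t
  no s t v h1 h2 h3 := h.no s t v (fun h' => h1 (Subtype.ext h')) (fun h' => h2 (Subtype.ext h'))
    fun h' => h3 (Subtype.ext h')
  inf s t h1 := h.inf s t fun h' => h1 (Subtype.ext h')

variable (l u) in
/-- The generators which commute with `u`. -/
def CC : Set {x : S // x ≠ u} := {c | l u c = 1}

variable (l u) in
/-- The generators with label at most four. -/
def YY : Set {x : S // x ≠ u} := {c | l u c = 1 ∨ l u c = 2}

theorem CC_le : CC l u ⊆ YY l u := fun _ h => Or.inl h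

theorem not_YY {s : {x : S // x ≠ u}} (h : l u s = 3) : s ∉ YY l u := by
  rintro (h' | h') <;> omega

theorem mem_B_iff (hD : IsDatOf l u D) {b : EA (Pool.Agent.Lib.MP_e6f638_al.del l u)} :
    b ∈ D.B ↔ b ∈ par (del l u) (CC l u) := by
  rw [hD.B]
  rfl

theorem mm_YY (hD : IsDatOf l u D) {m : EA (Pool.Agent.Lib.MP_e6f638_al.del l u)}
    (hm : m ∈ MM D) : m ∈ par (del l u) (YY l u) := by
  have h1 : MM D ≤ par (Pool.Agent.Lib.MP_e6f638_al.del l u) (YY l u) := by
    rw [MM, Subgroup.closure_le]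
    rintro x (hx | ⟨i, j, b, hi, hj, hb, rfl⟩)
    · exact par_mono _ CC_le ((mem_B_iff hD).1 hx)
    · obtain ⟨s, hs, hls⟩ := hD.t i
      obtain ⟨s', hs', hls'⟩ := hD.t j
      rw [hs, hs']
      exact mul_mem (mul_mem (gen_mem_par _ (Or.inr (hls.trans hi)))
        (par_mono _ CC_le ((mem_B_iff hD).1 hb)))
        (inv_mem (gen_mem_par _ (Or.inr (hls'.trans hj))))
  exact h1 hm

theorem ta_YY (hD : IsDatOf l u D) (ha : D.l a = 2) : D.t a ∈ par (del l u) (YY l u) := by
  obtain ⟨s, hs, hls⟩ := hD.t a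
  rw [hs]
  exact gen_mem_par _ (Or.inr (hls.trans ha))

theorem commute_ZZ {l : S → S → ℕ} (hl : ∀ s t, l s t = l t s) {t : S} {g : EA l}
    (hg : g ∈ par l (ZZ l t)) : Commute g (gen l t) := by
  have h1 : par l (ZZ l t) ≤ Subgroup.centralizer {gen l t} := by
    rw [par, Subgroup.closure_le]
    rintro x ⟨s, hs, rfl⟩
    rw [SetLike.mem_coe, Subgroup.mem_centralizer_singleton_iff]
    have h2 := Pool.Agent.Lib.MP_e6f638_al.gen_rel l t s
    rw [hs.2, pow_one, pow_one] at h2
    exact h2.symm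
  have h2 := h1 hg
  rw [Subgroup.mem_centralizer_singleton_iff] at h2
  exact h2

theorem b_ZZ [Finite S] (hP : StP6) (hA : Adm l) (hD : IsDatOf l u D)
    {b : EA (Pool.Agent.Lib.MP_e6f638_al.del l u)} (hb : b ∈ D.B) {s : {x : S // x ≠ u}}
    (hs : l u s = 3) (hc : Commute b (gen (del l u) s)) :
    b ∈ par (del l u) (CC l u ∩ ZZ (del l u) s) := by
  have h1 := (mem_B_iff hD).1 hb
  refine par_inter _ h1 ?_
  refine hP _ (Pool.Agent.Lib.MP_e6f638_al.del l u) (hA.del u) s 1 one_ne_zero b ?_ ?_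
  · refine par_mono _ ?_ h1
    intro x hx hx'
    rw [Set.mem_singleton_iff] at hx'
    have h2 : l u x = 1 := hx
    rw [hx'] at h2
    omega
  · rw [zpow_one]
    exact hc.symm

theorem cz_B (hD : IsDatOf l u D) {s : {x : S // x ≠ u}}
    {b : EA (Pool.Agent.Lib.MP_e6f638_al.del l u)}
    (hb : b ∈ par (del l u) (CC l u ∩ ZZ (del l u) s)) : b ∈ D.B :=
  (mem_B_iff hD).2 (par_mono _ Set.inter_subset_left hb)

theorem cz_comm (hA : Adm l) {s : {x : S // x ≠ u}}
    {b : EA (Pool.Agent.Lib.MP_e6f638_al.del l u)}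
    (hb : b ∈ par (del l u) (CC l u ∩ ZZ (del l u) s)) : Commute b (gen (del l u) s) :=
  commute_ZZ (hA.del u).symm (par_mono _ Set.inter_subset_right hb)

end

end Pool.Agent.Lib.MP_551055_al.N6
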