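import Mathlib
import Pool.Agent.Lib.MP_551055_al.Trim.N4.ArtThree_4
import Pool.Agent.Lib.MP_551055_al.Trim.N4.Stmts
import Pool.Agent.Lib.MP_551055_al.Trim.N6.S2C_17
import Pool.Agent.Lib.MP_551055_al.Trim.N6.Stmts_17
import Pool.Agent.Lib.MP_551055_al.Trim.N6.Words_17
import Pool.Agent.Lib.MP_551055_al.Trim.RI.Stmts
import Pool.Agent.Lib.MP_551055_al.Trim.W17.Main
import Pool.Agent.Lib.MP_551055_al.Trim.W17.Peel
import Pool.Agent.Lib.MP_551055_al.Trim.X.MP_e6f638_al.I1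
import Pool.Agent.Lib.MP_551055_al.Trim.X.MP_e6f638_al.Stmts

/-!
# Module V36: the conditions of `N4` at a vertex without label four
-/

set_option autoImplicit false

namespace Pool.Agent.Lib.MP_551055_al
end Pool.Agent.Lib.MP_551055_al

namespace Pool.Agent.Lib.MP_e6f638_al
end Pool.Agent.Lib.MP_e6f638_al

namespace Pool.Agent.Lib.MP_551055_al.N4
end Pool.Agent.Lib.MP_551055_al.N4

namespace Pool.Agent.Lib.MP_551055_al.N4.Art4
end Pool.Agent.Lib.MP_551055_al.N4.Art4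

namespace Pool.Agent.Lib.MP_551055_al.N6

open Pool.Agent.Lib.MP_551055_al

open Pool.Agent.Lib.MP_e6f638_al (Dat EA gen par rho del IsDatOf IsAxis gen_rel par_mono)

open Pool.Agent.Lib.MP_551055_al.N4

open Pool.Agent.Lib.MP_551055_al.N4.Art4 (wt rt three finite_ι)

open Multiplicative

/-- Elements commuting with a generator. -/
theorem comm_of_ZZ {S : Type} {l : S → S → ℕ} {t : S} {g : EA l} (hg : g ∈ par l (ZZ l t)) :
    Commute g (gen l t) := by
  have h1 : par l (ZZ l t) ≤ Subgroup.centralizer {gen l t} := by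
    rw [par, Subgroup.closure_le]
    rintro _ ⟨y, hy, rfl⟩
    rw [SetLike.mem_coe, Subgroup.mem_centralizer_iff]
    rintro _ rfl
    have h2 := gen_rel l t y
    rw [hy.2, pow_one, pow_one] at h2
    exact h2
  exact ((Subgroup.mem_centralizer_iff.1 (h1 hg)) _ rfl).symm

namespace V36

section

variable {S : Type} [Finite S] {l : S → S → ℕ} {u : S} {D : Dat (EA (del l u))}

/-- The case of one letter. -/
theorem v_core (hV : StV6) (hA : Adm l) (hD : IsDatOf l u D) (i : D.ι) (ε : ℤˣ)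
    {β₁ β₂ b b' : EA (del l u)} (hβ₁ : β₁ ∈ D.B) (hβ₂ : β₂ ∈ D.B) (hb : b ∈ D.B) (hb' : b' ∈ D.B)
    (n1 : ¬ Commute β₁ (D.t i)) (n3 : ¬ Commute b (D.t i)) :
    D.t i ^ (ε : ℤ) * β₁ * D.t i ^ ((-ε : ℤˣ) : ℤ) ≠
      b * D.t i ^ (ε : ℤ) * β₂ * D.t i ^ ((-ε : ℤˣ) : ℤ) * b' := by
  intro heq
  obtain ⟨s, hs, hls⟩ := hD.t i
  have h1 : D.B ≤ par (del l u) {s}ᶜ := by
    rw [hD.B]
    refine par_mono _ ?_
    rintro c hc rfl
    have hc' : l u c = 1 := hc
    have h2 := D.two_le i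
    omega
  rw [hs] at heq n1 n3
  rcases hV _ (del l u) (hA.del u) s ε β₁ (h1 hβ₁) β₂ (h1 hβ₂) b (h1 hb) b' (h1 hb') heq with h | h
  · exact n1 (comm_of_ZZ h)
  · exact n3 (comm_of_ZZ h)

variable (hsymm : ∀ s t, l s t = l t s) (hD : IsDatOf l u D)

include hsymm hD

/-- Condition (V). -/
theorem v (hV : StV6) (hA : Adm l) (h2 : ∀ s, s ≠ u → l u s ≠ 2) : V D := by
  classical
  intro ε i i' j j' β₁ β₂ b b' hβ₁ hβ₂ hb hb' heq hn
  have hthree := three hsymm hD h2
  have hneg : ∀ k, D.t k ^ ((-ε : ℤˣ) : ℤ) = (D.t k ^ (ε : ℤ))⁻¹ := fun k => by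
    rw [Units.val_neg, zpow_neg]
  -- weights
  have hw : ∀ k : D.ι, ((if i = k then 1 else 0) - (if i' = k then 1 else 0) : ℤ) =
      (if j = k then 1 else 0) - (if j' = k then 1 else 0) := by
    intro k
    obtain ⟨w, w1, w2, w3⟩ := wt hsymm hD k
    have hwt : ∀ m : D.ι, w (D.t m) = ofAdd (if m = k then (1 : ℤ) else 0) := by
      intro m
      by_cases hm : m = k
      · rw [if_pos hm, hm, w1]
      · rw [if_neg hm, w2 m hm, ofAdd_zero]
    have h4 := congrArg (fun x => toAdd (w x)) heq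
    simp only [map_mul, map_zpow, hwt, w3 _ hβ₁, w3 _ hβ₂, w3 _ hb, w3 _ hb', toAdd_mul,
      toAdd_zpow, toAdd_ofAdd, toAdd_one] at h4
    rcases Int.units_eq_one_or ε with h | h
    · subst h
      simp at h4
      split_ifs at h4 ⊢ <;> omega
    · subst h
      simp at h4
      split_ifs at h4 ⊢ <;> omega
  by_cases hii : i = i'
  · subst hii
    have hjj : j = j' := by
      by_contra hne
      have h4 := hw j
      rw [sub_self, if_pos (rfl : j = j), if_neg (fun h => hne h.symm)] at h4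
      omega
    subst hjj
    by_cases hij : i = j
    · subst hij
      by_contra hnm
      have h5 : ∀ c : EA (del l u), Commute c (D.t i) →
          D.t i ^ (ε : ℤ) * c * D.t i ^ ((-ε : ℤˣ) : ℤ) = c := fun c hc => by
        rw [hneg, (hc.symm.zpow_left (ε : ℤ)).eq, mul_inv_cancel_right]
      have n1 : ¬ Commute β₁ (D.t i) := fun hc => hnm (by rw [h5 _ hc]; exact hβ₁)
      have n2 : ¬ Commute β₂ (D.t i) := fun hc => hnm (by
        have h6 : b * D.t i ^ (ε : ℤ) * β₂ * D.t i ^ ((-ε : ℤˣ) : ℤ) * b' =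
            b * (D.t i ^ (ε : ℤ) * β₂ * D.t i ^ ((-ε : ℤˣ) : ℤ)) * b' := by group
        rw [heq, h6, h5 _ hc]
        exact mul_mem (mul_mem hb hβ₂) hb')
      have n3 : ¬ Commute b (D.t i) := fun hc => hn (by
        rw [hneg, (hc.symm.zpow_left (ε : ℤ)).inv_left.eq, inv_mul_cancel_right]
        exact hb)
      exact v_core hV hA hD i ε hβ₁ hβ₂ hb hb' n1 n3 heq
    · obtain ⟨ρ, r1, r2, r3⟩ := rt hsymm hD j
      have h4 := congrArg ρ heq
      simp only [map_mul, map_zpow, r1, r2 i hij, r3 _ hβ₁, r3 _ hβ₂, r3 _ hb, r3 _ hb', one_zpow,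
        mul_one] at h4
      rw [h4]
      exact mul_mem (mul_mem hb hβ₂) hb'
  · have h4 := hw i
    have h5 := hw i'
    rw [if_pos rfl, if_neg (fun h => hii h.symm)] at h4
    rw [if_neg hii, if_pos rfl] at h5
    have hji : j = i := by
      by_contra hne
      rw [if_neg hne] at h4
      split_ifs at h4 <;> omega
    have hji' : j' = i' := by
      by_contra hne
      rw [if_neg hne] at h5
      split_ifs at h5 <;> omega
    subst hji hji'
    exfalso
    obtain ⟨ρ, r1, r2, r3⟩ := rt hsymm hD j'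
    have h6 := congrArg ρ heq
    simp only [map_mul, map_zpow, r1, r2 j hii, r3 _ hβ₁, r3 _ hβ₂, r3 _ hb, r3 _ hb', one_zpow,
      mul_one] at h6
    refine hn ?_
    have h7 : (D.t j ^ (ε : ℤ))⁻¹ * b * D.t j ^ (ε : ℤ) = β₁ * b'⁻¹ * β₂⁻¹ := by
      have h8 : D.t j ^ (ε : ℤ) * β₁ * b'⁻¹ * β₂⁻¹ = b * D.t j ^ (ε : ℤ) := by
        rw [h6]
        group
      have h9 : (D.t j ^ (ε : ℤ))⁻¹ * b * D.t j ^ (ε : ℤ) =
          (D.t j ^ (ε : ℤ))⁻¹ * (b * D.t j ^ (ε : ℤ)) := by group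
      rw [h9, ← h8]
      group
    rw [hneg, h7]
    exact mul_mem (mul_mem hβ₁ (inv_mem hb')) (inv_mem hβ₂)

end

end V36

/-- Module V36. -/
theorem stV36 : StV36 := fun hV _ _ _ hA _ h2 _ hD =>
  ⟨finite_ι hD, three hA.symm hD h2, V36.v hA.symm hD hV hA h2⟩

end Pool.Agent.Lib.MP_551055_al.N6
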