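import Mathlib
import Pool.Agent.Lib.MP_551055_al.Trim.LD.NG
import Pool.Agent.Lib.MP_551055_al.Trim.LS.Stmts
import Pool.Agent.Lib.MP_551055_al.Trim.MT.Flow2
import Pool.Agent.Lib.MP_551055_al.Trim.MT.K1
import Pool.Agent.Lib.MP_551055_al.Trim.MT.RCU
import Pool.Agent.Lib.MP_551055_al.Trim.N4.Stmts
import Pool.Agent.Lib.MP_551055_al.Trim.N4.W_95
import Pool.Agent.Lib.MP_551055_al.Trim.N5.A5_54
import Pool.Agent.Lib.MP_551055_al.Trim.N5.Base_17
import Pool.Agent.Lib.MP_551055_al.Trim.N5.Stmts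
import Pool.Agent.Lib.MP_551055_al.Trim.N5.StmtsV28
import Pool.Agent.Lib.MP_551055_al.Trim.N5.VL_95
import Pool.Agent.Lib.MP_551055_al.Trim.N5.W6_95
import Pool.Agent.Lib.MP_551055_al.Trim.N6.Words_17
import Pool.Agent.Lib.MP_551055_al.Trim.T4.Perf
import Pool.Agent.Lib.MP_551055_al.Trim.T6.GenF
import Pool.Agent.Lib.MP_551055_al.Trim.X.MP_e6f638_al.F
import Pool.Agent.Lib.MP_551055_al.Trim.X.MP_e6f638_al.G2
import Pool.Agent.Lib.MP_551055_al.Trim.X.MP_e6f638_al.H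
import Pool.Agent.Lib.MP_551055_al.Trim.X.MP_e6f638_al.I1
import Pool.Agent.Lib.MP_551055_al.Trim.X.MP_e6f638_al.I2
import Pool.Agent.Lib.MP_551055_al.Trim.X.MP_e6f638_al.I3
import Pool.Agent.Lib.MP_551055_al.Trim.X.MP_e6f638_al.Stmts

/-!
# Modules P6 and V6
-/

set_option autoImplicit false

namespace Pool.Agent.Lib.MP_551055_al
end Pool.Agent.Lib.MP_551055_al

namespace Pool.Agent.Lib.MP_e6f638_al
end Pool.Agent.Lib.MP_e6f638_al

namespace Pool.Agent.Lib.MP_551055_al.N4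
end Pool.Agent.Lib.MP_551055_al.N4

namespace Pool.Agent.Lib.MP_551055_al.N6

open Pool.Agent.Lib.MP_551055_al

open Pool.Agent.Lib.MP_e6f638_al (Dat EA gen par rho del IsDatOf IsAxis stI1 stI2 stH stG2 stF stI3 StG2)

open Pool.Agent.Lib.MP_551055_al.N4

open Multiplicative

namespace P6

variable {G : Type} [Group G] {D : Dat G}

/-- `x` is not in `E`. -/
theorem x_not (hW : D.W) (δ : ℤˣ) : D.x ^ (δ : ℤ) ∉ RE D := by
  have key : D.x ∉ RE D := by
    intro h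
    have hw : D.x = D.ofG D.t₀ * D.hprod [(1, 1)] := by
      unfold Dat.x
      simp [Dat.hprod]
    have hn : D.x ∉ D.ofG.range := by
      rintro ⟨k, hk⟩
      have h0 : D.HRed [] := List.isChain_nil
      have h1 := (W95.uniq D (List.isChain_singleton ((1 : ℤˣ), (1 : G)) : D.HRed [(1, 1)]) h0
        (g := D.t₀) (g' := k) (by rw [← hw, ← hk]; simp [Dat.hprod])).1
      simp at h1
    obtain ⟨a, -⟩ := N5V.VL.exists_idx h hn
    have h2 := N5.W6.c1 hW a 1 1 le_rfl (by have := D.two_le a; omega) (fun h => absurd h (by omega))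
    apply h2
    have hm : D.t a * (D.t₀)⁻¹ ∈ D.h.ker := by
      rw [MonoidHom.mem_ker, map_mul, map_inv, D.h_t, D.h_t₀, mul_inv_cancel]
    have h3 : xi D a ^ 1 * D.ofG 1 = D.ofG (D.t a * (D.t₀)⁻¹) * D.x := by
      unfold xi Dat.x
      simp only [pow_one, map_one, mul_one, map_mul, map_inv]
      group
    rw [h3]
    exact mul_mem ⟨D.inE ⟨_, hm⟩, by rw [D.isPhi_phi.1]⟩ h
  rcases Int.units_eq_one_or δ with rfl | rfl
  · simpa using key
  · intro h
    apply key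
    have := inv_mem h
    simpa using this

theorem CL_nil : D.CL D.phi [] := by
  intro L₁ R₀ δ κ L₂ h
  simp at h

theorem CL_cons (hW : D.W) {δ : ℤˣ} {κ : G} {L : List (ℤˣ × G)} (hL : D.CL D.phi L)
    (hκ : D.h κ ≠ 1) : D.CL D.phi ((δ, κ) :: L) := by
  intro L₁ R₀ δ' κ' L₂ h hR
  rcases L₁ with _ | ⟨q, L₁⟩
  · rcases R₀ with _ | ⟨r, R₀⟩
    · simp only [List.nil_append, List.cons.injEq, Prod.mk.injEq] at h
      obtain ⟨⟨rfl, rfl⟩, rfl⟩ := h
      simp only [Dat.xw, List.map_nil, List.prod_nil, one_mul]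
      exact x_not hW δ
    · simp only [List.nil_append, List.cons_append, List.cons.injEq] at h
      have := hR r List.mem_cons_self
      rw [← h.1] at this
      exact absurd this hκ
  · simp only [List.cons_append, List.cons.injEq] at h
    exact hL L₁ R₀ δ' κ' L₂ h.2 hR

theorem CL_cons₂ (hW : D.W) {δ δ' : ℤˣ} {κ κ' : G} {L : List (ℤˣ × G)}
    (hL : D.CL D.phi ((δ', κ') :: L)) (hκ' : D.h κ' ≠ 1)
    (hx : D.h κ = 1 → D.x ^ (δ : ℤ) * D.ofG κ * D.x ^ (δ' : ℤ) ∉ RE D) :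
    D.CL D.phi ((δ, κ) :: (δ', κ') :: L) := by
  intro L₁ R₀ ε ν L₂ h hR
  rcases L₁ with _ | ⟨q, L₁⟩
  · rcases R₀ with _ | ⟨r, R₀⟩
    · simp only [List.nil_append, List.cons.injEq, Prod.mk.injEq] at h
      obtain ⟨⟨rfl, rfl⟩, rfl⟩ := h
      simp only [Dat.xw, List.map_nil, List.prod_nil, one_mul]
      exact x_not hW δ
    · simp only [List.nil_append, List.cons_append, List.cons.injEq] at h
      obtain ⟨rfl, h⟩ := h
      have hk : D.h κ = 1 := hR (δ, κ) List.mem_cons_self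
      rcases R₀ with _ | ⟨r', R₀⟩
      · simp only [List.nil_append, List.cons.injEq, Prod.mk.injEq] at h
        obtain ⟨⟨rfl, rfl⟩, rfl⟩ := h
        simp only [Dat.xw, List.map_cons, List.map_nil, List.prod_cons, List.prod_nil, mul_one]
        exact hx hk
      · simp only [List.cons_append, List.cons.injEq] at h
        have := hR r' (List.mem_cons_of_mem _ List.mem_cons_self)
        rw [← h.1] at this
        exact absurd this hκ'
  · simp only [List.cons_append, List.cons.injEq] at h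
    exact hL L₁ R₀ ε ν L₂ h.2 hR

theorem CL_rep (hW : D.W) {δ : ℤˣ} {κ : G} (hκ : D.h κ ≠ 1) (n : ℕ) {L : List (ℤˣ × G)}
    (hL : D.CL D.phi L) : D.CL D.phi (List.replicate n (δ, κ) ++ L) := by
  induction n with
  | zero => simpa using hL
  | succ n ih =>
    rw [List.replicate_succ, List.cons_append]
    exact CL_cons hW ih hκ

theorem h_t₀ : D.h D.t₀ ≠ 1 := by
  rw [D.h_t₀]
  exact fun h => absurd (congrArg toAdd h) (by simp)

theorem h_t₀' : D.h (D.t₀)⁻¹ ≠ 1 := by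
  rw [map_inv, inv_ne_one]
  exact h_t₀

variable {A : Type} [Group A] {i : G →* A} {v : A}

/-- the letters of the word -/
theorem prod_rep (δ : ℤˣ) (κ : G) (n : ℕ) (L : List (ℤˣ × G)) :
    ((List.replicate n (δ, κ) ++ L).map fun p => (i D.t₀ * v) ^ (p.1 : ℤ) * i p.2).prod =
      ((i D.t₀ * v) ^ (δ : ℤ) * i κ) ^ n *
        (L.map fun p => (i D.t₀ * v) ^ (p.1 : ℤ) * i p.2).prod := by
  induction n with
  | zero => simp
  | succ n ih =>
    rw [List.replicate_succ, List.cons_append, List.map_cons, List.prod_cons, ih, pow_succ']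
    simp only [mul_assoc]

theorem pos_word (hW : D.W) (hA : D.IsExt A i v) (n : ℕ) {g : G}
    (h : v ^ (n + 1) * i g * (v ^ (n + 1))⁻¹ ∈ i.range) :
    D.h g = 1 ∧ D.x * D.ofG g * (D.x)⁻¹ ∈ RE D := by
  by_contra hn
  have h1 : D.CL D.phi (List.replicate n (1, (D.t₀)⁻¹) ++
      (1, g) :: (-1, D.t₀) :: List.replicate n (-1, D.t₀)) := by
    refine CL_rep hW h_t₀' n (CL_cons₂ hW (CL_cons hW ?_ h_t₀) h_t₀ ?_)
    · have := CL_rep hW (δ := -1) (h_t₀ (D := D)) n (CL_nil (D := D))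
      simpa using this
    · intro hg hx
      apply hn
      refine ⟨hg, ?_⟩
      simpa using hx
  refine stG2 stF G D hW A i v hA D.phi D.isPhi_phi _ (by simp) h1 ?_
  rw [prod_rep]
  have h2 := prod_rep (D := D) (i := i) (v := v) (-1) D.t₀ (n + 1) []
  rw [List.append_nil, List.replicate_succ] at h2
  rw [List.map_cons, List.prod_cons, h2]
  simp only [List.map_nil, List.prod_nil, mul_one, Units.val_one, zpow_one, Units.val_neg,
    zpow_neg, mul_inv_rev, map_inv, inv_mul_cancel_right]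
  have h3 : i D.t₀ * v * (i D.t₀)⁻¹ = MulAut.conj (i D.t₀) v := rfl
  rw [h3, ← map_pow]
  have h4 : (MulAut.conj (i D.t₀)) (v ^ n) * (i D.t₀ * v * i g * v⁻¹ ^ (n + 1)) =
      i D.t₀ * (v ^ (n + 1) * i g * (v ^ (n + 1))⁻¹) := by
    rw [MulAut.conj_apply, inv_pow, pow_succ v n]
    group
  rw [h4]
  exact mul_mem ⟨_, rfl⟩ h

theorem neg_word (hW : D.W) (hA : D.IsExt A i v) (n : ℕ) {g : G}
    (h : (v ^ (n + 1))⁻¹ * i g * v ^ (n + 1) ∈ i.range) :
    D.h g = 1 ∧ (D.u)⁻¹ * D.ofG g * D.u ∈ RE D := by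
  by_contra hn
  have h1 : D.CL D.phi (List.replicate n (-1, D.t₀) ++
      (-1, D.t₀ * g * (D.t₀)⁻¹) :: (1, (D.t₀)⁻¹) :: List.replicate n (1, (D.t₀)⁻¹)) := by
    refine CL_rep hW h_t₀ n (CL_cons₂ hW (CL_cons hW ?_ h_t₀') h_t₀' ?_)
    · have := CL_rep hW (δ := 1) (h_t₀' (D := D)) n (CL_nil (D := D))
      simpa using this
    · intro hg hx
      apply hn
      have hg' : D.h g = 1 := by
        rw [map_mul, map_mul, map_inv, mul_inv_eq_one, mul_eq_left] at hg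
        exact hg
      refine ⟨hg', ?_⟩
      have h2 : D.x ^ (((-1 : ℤˣ)) : ℤ) * D.ofG (D.t₀ * g * (D.t₀)⁻¹) * D.x ^ ((1 : ℤˣ) : ℤ) =
          (D.u)⁻¹ * D.ofG g * D.u := by
        unfold Dat.x
        simp only [Units.val_neg, Units.val_one, zpow_neg, zpow_one, map_mul, map_inv]
        group
      rwa [h2] at hx
  refine stG2 stF G D hW A i v hA D.phi D.isPhi_phi _ (by simp) h1 ?_
  rw [prod_rep]
  have h2 := prod_rep (D := D) (i := i) (v := v) 1 (D.t₀)⁻¹ (n + 1) []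
  rw [List.append_nil, List.replicate_succ] at h2
  rw [List.map_cons, List.prod_cons, h2]
  simp only [List.map_nil, List.prod_nil, mul_one, Units.val_one, zpow_one, Units.val_neg,
    zpow_neg, mul_inv_rev, map_inv, map_mul, inv_mul_cancel_right]
  have h3 : i D.t₀ * v * (i D.t₀)⁻¹ = MulAut.conj (i D.t₀) v := rfl
  rw [h3, ← map_pow]
  have h4 : v⁻¹ ^ n * (v⁻¹ * (i D.t₀)⁻¹ * (i D.t₀ * i g * (i D.t₀)⁻¹) *
      (MulAut.conj (i D.t₀)) (v ^ (n + 1))) =
      ((v ^ (n + 1))⁻¹ * i g * v ^ (n + 1)) * (i D.t₀)⁻¹ := by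
    rw [MulAut.conj_apply, inv_pow, pow_succ' v n]
    group
  rw [h4]
  exact mul_mem h (inv_mem ⟨_, rfl⟩)

/-- The elements of `<B, t_i⁻¹ c t_j>`. -/
theorem MS_conj {a : D.ι} (ha : D.l a = 2) {m : G} (hm : m ∈ N5V.VL.MS D (-1)) :
    D.t a * m * (D.t a)⁻¹ ∈ N5.MM D := by
  have h1 : N5V.VL.MS D (-1) ≤ (N5.MM D).comap (MulAut.conj (D.t a)).toMonoidHom := by
    rw [N5V.VL.MS, Subgroup.closure_le]
    rintro x (hx | ⟨i, j, b, hi, hj, hb, rfl⟩)
    · change D.t a * x * (D.t a)⁻¹ ∈ N5.MM D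
      exact N5.tt_mem ha ha hx
    · change D.t a * (D.t i ^ (((-1 : ℤˣ)) : ℤ) * b * (D.t j ^ (((-1 : ℤˣ)) : ℤ))⁻¹) *
        (D.t a)⁻¹ ∈ N5.MM D
      have h2 : D.t a * (D.t i ^ (((-1 : ℤˣ)) : ℤ) * b * (D.t j ^ (((-1 : ℤˣ)) : ℤ))⁻¹) *
          (D.t a)⁻¹ = (D.t a * 1 * (D.t i)⁻¹) * b * (D.t j * 1 * (D.t a)⁻¹) := by
        simp only [Units.val_neg, Units.val_one, zpow_neg, zpow_one]
        group
      rw [h2]
      exact mul_mem (mul_mem (N5.tt_mem ha hi (one_mem _)) (N5.B_le hb))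
        (N5.tt_mem hj ha (one_mem _))
  exact h1 hm

theorem MS_no (h : ∀ i, D.l i ≠ 2) (δ : ℤˣ) : N5V.VL.MS D δ ≤ D.B := by
  rw [N5V.VL.MS, Subgroup.closure_le]
  rintro x (hx | ⟨i, j, b, hi, hj, hb, rfl⟩)
  · exact hx
  · exact absurd hi (h i)

/-- The theorem for the extension. -/
theorem core (hW : D.W) (hmm : ∀ a, D.l a = 2 → ∀ m ∈ N5.MM D, D.t a * m * (D.t a)⁻¹ ∈ N5.MM D →
      m ∈ D.B) (hA : D.IsExt A i v) {k : ℤ} (hk : k ≠ 0) {g : G} (h : Commute (v ^ k) (i g)) :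
    g ∈ D.B := by
  by_contra hg
  obtain ⟨n, hn⟩ : ∃ n : ℕ, Commute (v ^ (n + 1)) (i g) := by
    rcases lt_or_gt_of_ne hk with h0 | h0
    · refine ⟨k.natAbs - 1, ?_⟩
      have h1 : (v ^ k)⁻¹ = v ^ (k.natAbs - 1 + 1) := by
        rw [← zpow_neg, ← zpow_natCast]
        congr 1
        omega
      rw [← h1]
      exact h.inv_left
    · refine ⟨k.natAbs - 1, ?_⟩
      have h1 : v ^ k = v ^ (k.natAbs - 1 + 1) := by
        rw [← zpow_natCast]
        congr 1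
        omega
      rw [← h1]
      exact h
  have h1 : v ^ (n + 1) * i g * (v ^ (n + 1))⁻¹ ∈ i.range := by
    rw [hn.eq, mul_inv_cancel_right]
    exact ⟨g, rfl⟩
  have h2 : (v ^ (n + 1))⁻¹ * i g * v ^ (n + 1) ∈ i.range := by
    rw [mul_assoc, ← hn.eq, inv_mul_cancel_left]
    exact ⟨g, rfl⟩
  obtain ⟨-, h3⟩ := pos_word hW hA n h1
  obtain ⟨-, h4⟩ := neg_word hW hA n h2
  have h5 := N5V.VL.neg_MS hW hg h4
  by_cases ha : ∃ a, D.l a = 2
  · obtain ⟨a, ha⟩ := ha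
    exact hg (hmm a ha g (N5.W6.cSx hW a g h3) (MS_conj ha h5))
  · exact hg (MS_no (fun i hi => ha ⟨i, hi⟩) (-1) h5)

end P6

/-- Module P6. -/
theorem stP6 : StP6 := by
  intro S _ l hadm t k hk g hg hc
  by_cases hex : ∃ s : {x : S // x ≠ t}, l t s ≠ 1
  · obtain ⟨D, hD, i, hi, hinj, hA⟩ := stI2 S l hadm.symm t hex
    have hW : D.W := stI3 stI1 (stH (stG2 stF) stI1 stI2) S l hadm.symm hadm.no t D hD
    have hmm : ∀ a, D.l a = 2 → ∀ m ∈ N5.MM D, D.t a * m * (D.t a)⁻¹ ∈ N5.MM D → m ∈ D.B :=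
      fun a ha m hm hm' => N5.A5.mm_core D (N5.A5.star l hadm.symm hadm.no t D hD) ha hm hm'
    have h1 : par l {t}ᶜ ≤ i.range := by
      rw [par, Subgroup.closure_le]
      rintro _ ⟨s, hs, rfl⟩
      exact ⟨gen _ ⟨s, hs⟩, hi _⟩
    obtain ⟨g₀, rfl⟩ := h1 hg
    have h2 := P6.core hW hmm hA hk hc
    have h3 : D.B ≤ (par l (ZZ l t)).comap i := by
      rw [hD.B, par, Subgroup.closure_le]
      rintro _ ⟨s, hs, rfl⟩
      rw [SetLike.mem_coe, Subgroup.mem_comap, hi]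
      exact Subgroup.subset_closure ⟨s, ⟨s.2, hs⟩, rfl⟩
    exact h3 h2
  · have h1 : {t}ᶜ ⊆ ZZ l t := by
      intro s hs
      refine ⟨hs, ?_⟩
      by_contra h
      exact hex ⟨⟨s, hs⟩, h⟩
    exact Subgroup.closure_mono (Set.image_mono h1) hg

/-- Module V6, from the theorem of N5V. -/
theorem v6_of (hVS : N5V.StVS) : StV6 := by
  intro S _ l hadm t ε g₁ h₁ g₂ h₂ b hb b' hb' he
  by_cases h : g₁ ∈ par l (ZZ l t)
  · exact Or.inl h
  · refine Or.inr (hVS S l hadm.symm hadm.no t ε g₁ h₁ g₂ h₂ b hb b' hb' ?_ h)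
    rw [Units.val_neg, zpow_neg] at he
    rw [he]
    simp only [mul_assoc]

end Pool.Agent.Lib.MP_551055_al.N6
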