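import Mathlib
import Pool.Agent.Lib.MP_551055_al.Trim.LS.Ray
import Pool.Agent.Lib.MP_551055_al.Trim.LS.Stmts
import Pool.Agent.Lib.MP_551055_al.Trim.MT.Defs
import Pool.Agent.Lib.MP_551055_al.Trim.N4.S2_17
import Pool.Agent.Lib.MP_551055_al.Trim.N4.Stmts
import Pool.Agent.Lib.MP_551055_al.Trim.N4.W_95
import Pool.Agent.Lib.MP_551055_al.Trim.N5.Base_17
import Pool.Agent.Lib.MP_551055_al.Trim.N5.Stmts
import Pool.Agent.Lib.MP_551055_al.Trim.N5.W6_95
import Pool.Agent.Lib.MP_551055_al.Trim.N6.Stmts_17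
import Pool.Agent.Lib.MP_551055_al.Trim.T4.GlDim
import Pool.Agent.Lib.MP_551055_al.Trim.T4.Mods
import Pool.Agent.Lib.MP_551055_al.Trim.X.MP_e6f638_al.F
import Pool.Agent.Lib.MP_551055_al.Trim.X.MP_e6f638_al.Stmts

/-!
# Module W6: words
-/

set_option autoImplicit false

namespace Pool.Agent.Lib.MP_551055_al
end Pool.Agent.Lib.MP_551055_al

namespace Pool.Agent.Lib.MP_e6f638_al
end Pool.Agent.Lib.MP_e6f638_al

namespace Pool.Agent.Lib.MP_551055_al.N4
end Pool.Agent.Lib.MP_551055_al.N4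

namespace Pool.Agent.Lib.MP_551055_al.N5
end Pool.Agent.Lib.MP_551055_al.N5

namespace Pool.Agent.Lib.MP_551055_al.N5.W6
end Pool.Agent.Lib.MP_551055_al.N5.W6

namespace Pool.Agent.Lib.MP_551055_al.N6

open Pool.Agent.Lib.MP_551055_al

open Pool.Agent.Lib.MP_e6f638_al (Dat)

open Pool.Agent.Lib.MP_551055_al.N4

open Pool.Agent.Lib.MP_551055_al.N5 (MM kk B_le tt_mem kk_mem mm_hom mm_h)

open Pool.Agent.Lib.MP_551055_al.N5.W6 (lst four NN lst_sgn NN_pm not_G)

open Multiplicative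

namespace W6

variable {G : Type} [Group G] {D : Dat G} {a : D.ι}

theorem ha (hM : Mix3 D a) : ∀ i, D.l i = 2 → D.l a = 2 := fun _ _ => hM.la

theorem c1 (hM : Mix3 D a) (i : D.ι) (r : ℕ) (g : G) (h1 : 1 ≤ r) (hr : r < D.l i) :
    xi D i ^ r * D.ofG g ∉ RE D :=
  N5.W6.c1 hM.w i r g h1 hr (fun _ => hM.wt i)

/-- (F2) -/
theorem two_t (hM : Mix3 D a) {i j : D.ι} (ε : ℤˣ) {b : G} (hb : b ∈ D.B)
    (h : D.t i ^ (ε : ℤ) * b * D.t j ^ ((-ε : ℤˣ) : ℤ) ∈ D.B) : i = j ∧ Commute b (D.t i) := by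
  by_contra hn
  refine hM.w i j ε b _ hb (fun h1 h2 => hn ⟨h1, h2⟩)
    (Dat.Chain.base j (-ε) trivial) ?_
  exact h

theorem two_pos (hM : Mix3 D a) {i j : D.ι} {b : G} (hb : b ∈ D.B)
    (h : D.t i * b * (D.t j)⁻¹ ∈ D.B) : i = j ∧ Commute b (D.t i) := by
  refine two_t hM 1 hb ?_
  rwa [units_one_zpow, units_neg_one_zpow]

theorem wt_mm (hM : Mix3 D a) {k : D.ι} (hk : 3 ≤ D.l k) :
    ∃ w : G →* Multiplicative ℤ, w (D.t k) = ofAdd 1 ∧
    (∀ i, i ≠ k → w (D.t i) = 1) ∧ (∀ b ∈ D.B, w b = 1) ∧ ∀ m ∈ MM D, w m = 1 := by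
  obtain ⟨w, h1, h2, h3⟩ := hM.wt k
  refine ⟨w, h1, h2, h3, fun m hm => ?_⟩
  refine mm_hom (f := w) (g := 1) (fun b hb => h3 b hb) (fun i hi => h2 i ?_) hm
  rintro rfl
  omega

theorem rt_mm (hM : Mix3 D a) {k : D.ι} (hk : 3 ≤ D.l k) : ∃ ρ : G →* G, ρ (D.t k) = 1 ∧
    (∀ i, i ≠ k → ρ (D.t i) = D.t i) ∧ (∀ b ∈ D.B, ρ b = b) ∧ ∀ m ∈ MM D, ρ m = m := by
  obtain ⟨ρ, h1, h2, h3⟩ := hM.rt k
  refine ⟨ρ, h1, h2, h3, fun m hm => ?_⟩
  refine mm_hom (f := ρ) (g := MonoidHom.id G) (fun b hb => h3 b hb) (fun i hi => h2 i ?_) hm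
  rintro rfl
  omega

/-- (G2) -/
theorem g2 (hM : Mix3 D a) {i j : D.ι} {b : G} (hb : b ∈ D.B) (hij : 3 ≤ D.l i ∨ 3 ≤ D.l j)
    (h : D.t i * b * (D.t j)⁻¹ ∈ MM D) : i = j ∧ Commute b (D.t i) := by
  have h1 : i = j := by
    by_contra hne
    rcases hij with hk | hk
    · obtain ⟨w, w1, w2, w3, w4⟩ := wt_mm hM hk
      have h2 := w4 _ h
      rw [map_mul, map_mul, map_inv, w1, w3 b hb, w2 j (fun h => hne h.symm), mul_one, inv_one,
        mul_one] at h2
      exact absurd (congrArg toAdd h2) (by simp)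
    · obtain ⟨w, w1, w2, w3, w4⟩ := wt_mm hM hk
      have h2 := w4 _ h
      rw [map_mul, map_mul, map_inv, w1, w3 b hb, w2 i hne, mul_one, one_mul] at h2
      exact absurd (congrArg toAdd h2) (by simp)
  subst h1
  refine ⟨rfl, ?_⟩
  have hk : 3 ≤ D.l i := hij.elim id id
  obtain ⟨ρ, r1, r2, r3, r4⟩ := rt_mm hM hk
  have h2 := r4 _ h
  rw [map_mul, map_mul, map_inv, r1, r3 b hb, one_mul, inv_one, mul_one] at h2
  exact eq_mul_inv_iff_mul_eq.1 h2

theorem cTa (hM : Mix3 D a) (i j : D.ι) (hi : 4 ≤ D.l i) (r s : ℕ) (g : G) (h1 : 2 ≤ r)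
    (hr : r + 2 ≤ D.l i) (h2 : 1 ≤ s) (hg : g ∉ D.B)
    (h : xi D i ^ r * D.ofG g * (xi D j ^ s)⁻¹ ∈ RE D) : False := by
  obtain ⟨n, rfl⟩ : ∃ k, r = k + 2 := ⟨r - 2, by omega⟩
  obtain ⟨m, rfl⟩ : ∃ k, s = k + 1 := ⟨s - 1, by omega⟩
  rw [mul_assoc, W95.xinv_word, W95.xpow_word] at h
  have hred : D.HRed (List.replicate (n + 1) (1, D.t i) ++
      (1, g) :: List.replicate (m + 1) (-1, (D.t j)⁻¹)) := by
    refine D.hred_replicate 1 _ _ _ _ ?_
    rw [List.replicate_succ]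
    refine List.isChain_cons_cons.2 ⟨fun hh => absurd hh hg, ?_⟩
    have := D.hred_replicate (-1) (D.t j)⁻¹ m (D.t j)⁻¹ [] (List.isChain_singleton _)
    have e : List.replicate m ((-1 : ℤˣ), (D.t j)⁻¹) ++ [(-1, (D.t j)⁻¹)] =
        (-1, (D.t j)⁻¹) :: List.replicate m (-1, (D.t j)⁻¹) := by
      rw [← List.replicate_succ', List.replicate_succ]
    rwa [e] at this
  obtain ⟨S, hS, hs⟩ := N5.W6.key hM.w (ha hM) i (by omega) (hM.wt i) n g _ hred h
  rw [List.map_replicate] at hs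
  have hk := W95.rep_le (n := n + 1) hs
  omega

theorem cT (hM : Mix3 D a) (i j : D.ι) (r s : ℕ) (g : G) (h1 : 2 ≤ r) (hr : r + 2 ≤ D.l i)
    (h2 : 1 ≤ s) (hs : s < D.l j) (h : xi D i ^ r * D.ofG g * (xi D j ^ s)⁻¹ ∈ RE D) :
    i = j ∧ r = s ∧ g ∈ D.B ∧ Commute g (D.t i) := by
  have hi : 4 ≤ D.l i := by omega
  by_cases hg : g ∈ D.B
  swap
  · exact (cTa hM i j hi r s g h1 hr h2 hg h).elim
  obtain ⟨n, rfl⟩ : ∃ k, r = k + 2 := ⟨r - 2, by omega⟩
  obtain ⟨m, rfl⟩ : ∃ k, s = k + 1 := ⟨s - 1, by omega⟩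
  have hw : xi D i ^ (n + 2) * D.ofG g * (xi D j ^ (m + 1))⁻¹ =
      xi D i ^ (n + 1) * D.ofG (D.t i * g * (D.t j)⁻¹) * (xi D j ^ m)⁻¹ := by
    rw [← N5.xbx i j hg, pow_succ _ (n + 1), pow_succ _ m, mul_inv_rev]
    simp only [mul_assoc]
  rw [hw] at h
  rcases m with _ | m
  · exfalso
    rw [pow_zero, inv_one, mul_one] at h
    exact c1 hM i (n + 1) _ (by omega) (by omega) h
  by_cases hg' : D.t i * g * (D.t j)⁻¹ ∈ D.B
  · obtain ⟨rfl, hc⟩ := two_pos hM hg hg'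
    have h4 : D.t i * g * (D.t i)⁻¹ = g := by
      rw [← hc.eq, mul_assoc, mul_inv_cancel, mul_one]
    rw [h4] at h
    have h5 : ∀ k : ℕ, D.ofG g * xi D i ^ k = xi D i ^ k * D.ofG g := fun k =>
      (D.commute_tu hg hc k).eq
    refine ⟨rfl, ?_, hg, hc⟩
    rcases lt_trichotomy n m with hlt | heq | hgt
    · exfalso
      obtain ⟨d, rfl⟩ : ∃ d, m = n + d := ⟨m - n, by omega⟩
      have h6 := inv_mem h
      have h7 : (xi D i ^ (n + 1) * D.ofG g * (xi D i ^ (n + d + 1))⁻¹)⁻¹ =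
          xi D i ^ d * D.ofG g⁻¹ := by
        rw [mul_inv_rev, mul_inv_rev, inv_inv, map_inv]
        have h8 : (D.ofG g)⁻¹ * (xi D i ^ (n + 1))⁻¹ = (xi D i ^ (n + 1))⁻¹ * (D.ofG g)⁻¹ := by
          rw [← mul_inv_rev, ← mul_inv_rev, h5]
        rw [h8, show n + d + 1 = d + (n + 1) by omega, pow_add]
        group
      rw [h7] at h6
      exact c1 hM i d _ (by omega) (by omega) h6
    · omega
    · exfalso
      obtain ⟨d, rfl⟩ : ∃ d, n = m + d := ⟨n - m, by omega⟩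
      have h7 : xi D i ^ (m + d + 1) * D.ofG g * (xi D i ^ (m + 1))⁻¹ =
          xi D i ^ d * D.ofG g := by
        rw [mul_assoc]
        have h8 : D.ofG g * (xi D i ^ (m + 1))⁻¹ = (xi D i ^ (m + 1))⁻¹ * D.ofG g := by
          rw [mul_inv_eq_iff_eq_mul, mul_assoc, h5, ← mul_assoc, inv_mul_cancel, one_mul]
        rw [h8, show m + d + 1 = d + (m + 1) by omega, pow_add]
        group
      rw [h7] at h
      exact c1 hM i d _ (by omega) (by omega) h
  · exfalso
    rcases n with _ | n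
    · -- two positive signs are missing
      rw [zero_add, mul_assoc, W95.xinv_word, W95.xpow_word, List.replicate_zero,
        List.nil_append] at h
      set g' : G := D.t i * g * (D.t j)⁻¹ with hg'def
      have hred : D.HRed (((1 : ℤˣ), g') :: List.replicate (m + 1) (-1, (D.t j)⁻¹)) := by
        rw [List.replicate_succ]
        refine List.isChain_cons_cons.2 ⟨fun hh => absurd hh hg', ?_⟩
        have := D.hred_replicate (-1) (D.t j)⁻¹ m (D.t j)⁻¹ [] (List.isChain_singleton _)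
        have e : List.replicate m ((-1 : ℤˣ), (D.t j)⁻¹) ++ [(-1, (D.t j)⁻¹)] =
            (-1, (D.t j)⁻¹) :: List.replicate m (-1, (D.t j)⁻¹) := by
          rw [← List.replicate_succ', List.replicate_succ]
        rwa [e] at this
      obtain ⟨G', κ, j', e, s, y', M', hκ, hN, he, hM', hsig, hG'⟩ := not_G hM.w (ha hM) hred h (by simp)
      rw [lst_sgn, List.map_cons, List.map_replicate, List.replicate_succ, List.replicate_succ,
        List.cons_append, List.cons.injEq, List.cons.injEq] at hsig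
      obtain ⟨rfl, rfl⟩ : e = 1 ∧ s = -1 := ⟨hsig.1.symm, hsig.2.1.symm⟩
      rw [NN_pm] at hκ
      have hlst : lst D κ j' 1 (-1) y' M' = (1, κ * D.t j' ^ ((-1 : ℤˣ) : ℤ)) ::
        (List.replicate (D.l j' - 3) (-1, D.t j' ^ ((-1 : ℤˣ) : ℤ)) ++ (-1, y') :: M') := rfl
      rw [hlst] at he hN
      have h4 := W95.peel D hG' he
      have h5 := (W95.uniq D (List.isChain_cons.1 hred).2 (List.isChain_cons.1 hN).2 h4).2
        (by simp)
      rw [Units.val_neg, Units.val_one, zpow_neg, zpow_one] at h5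
      -- weights
      have hai : a ≠ i := fun hh => by
        have := hM.la
        rw [hh] at this
        omega
      have hwt : ∀ (k : D.ι), 3 ≤ D.l k → ∀ w : G →* Multiplicative ℤ,
          (∀ b ∈ D.B, w b = 1) → (∀ m ∈ MM D, w m = 1) → w (D.t a) = 1 →
          w (D.t i) * (w (D.t j))⁻¹ = (w (D.t j'))⁻¹ := by
        intro k hk w w3 w4 wa
        have h6 := w3 _ h5
        have h7 := w4 _ hκ
        rw [map_mul, map_inv, wa, inv_one, mul_one] at h7
        have h8 := w3 _ hG'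
        rw [map_mul w g'⁻¹, map_mul w ((D.t i)⁻¹ * G'), h8, map_mul w κ, h7, map_inv, map_inv,
          one_mul, one_mul, hg'def, map_mul w (D.t i * g), map_mul w (D.t i), map_inv,
          w3 _ hg, mul_one] at h6
        rw [inv_mul_eq_one] at h6
        exact h6
      obtain ⟨w, w1, w2, w3, w4⟩ := wt_mm hM (k := i) (by omega)
      have h9 := hwt i (by omega) w w3 w4 (w2 a hai)
      have hij : i = j ∧ j' ≠ i := by
        by_cases hji : j = i
        · subst hji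
          refine ⟨rfl, fun hh => ?_⟩
          subst hh
          rw [w1, mul_inv_cancel] at h9
          exact absurd (congrArg toAdd h9) (by simp)
        · exfalso
          rw [w1, w2 j hji, inv_one, mul_one] at h9
          by_cases hj' : j' = i
          · rw [hj', w1] at h9
            exact absurd (congrArg toAdd h9) (by simp)
          · rw [w2 j' hj', inv_one] at h9
            exact absurd (congrArg toAdd h9) (by simp)
      obtain ⟨rfl, hj'i⟩ := hij
      rcases four D j' with hj2 | hj4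
      · have h10 : g' ∈ MM D := by
          have h11 : g' = ((D.t i)⁻¹ * G') * (κ * (D.t a)⁻¹) * (kk D a j') *
              (g'⁻¹ * ((D.t i)⁻¹ * G' * (κ * (D.t j')⁻¹)))⁻¹ := by
            rw [kk]
            group
          rw [h11]
          exact mul_mem (mul_mem (mul_mem (B_le hG') hκ) (kk_mem hM.la hj2)) (inv_mem (B_le h5))
        obtain ⟨-, hc⟩ := g2 hM hg (Or.inl (by omega)) h10
        apply hg'
        rw [hg'def, ← hc.eq, mul_assoc, mul_inv_cancel, mul_one]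
        exact hg
      · have haj : a ≠ j' := fun hh => by
          have := hM.la
          rw [hh] at this
          omega
        obtain ⟨w', w1', w2', w3', w4'⟩ := wt_mm hM hj4
        have h12 := hwt j' hj4 w' w3' w4' (w2' a haj)
        rw [w2' i (fun hh => hj'i hh.symm), w1', inv_one, mul_one] at h12
        exact absurd (congrArg toAdd h12) (by simp)
    · exact cTa hM i j hi (n + 2) (m + 1) _ (by omega) (by omega) (by omega) hg' h

end W6

/-- Module W6. -/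
theorem stW6 : StW6 := by
  intro G _ D a hM
  obtain ⟨φ', hφ', hinj', -, -⟩ := Pool.Agent.Lib.MP_e6f638_al.stF G D hM.w
  obtain rfl := D.isPhi_phi.unique hφ'
  exact ⟨hinj', fun e he => N5.W6.range hM.w e he, fun i r g h1 h2 => W6.c1 hM i r g h1 h2,
    fun g h => N5.W6.cS hM.w a g h, fun i j r s g h1 h2 h3 h4 h5 => W6.cT hM i j r s g h1 h2 h3 h4 h5⟩

end Pool.Agent.Lib.MP_551055_al.N6
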