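import Mathlib
import Pool.Agent.Lib.MP_551055_al.Trim.MT.K1
import Pool.Agent.Lib.MP_551055_al.Trim.N4.ArtThree_4
import Pool.Agent.Lib.MP_551055_al.Trim.N4.Art_4
import Pool.Agent.Lib.MP_551055_al.Trim.N4.Asm_17
import Pool.Agent.Lib.MP_551055_al.Trim.N4.O_17
import Pool.Agent.Lib.MP_551055_al.Trim.N4.Rules_17
import Pool.Agent.Lib.MP_551055_al.Trim.N4.S1_4
import Pool.Agent.Lib.MP_551055_al.Trim.N4.S2_17
import Pool.Agent.Lib.MP_551055_al.Trim.N4.Stmts
import Pool.Agent.Lib.MP_551055_al.Trim.N4.Uni_17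
import Pool.Agent.Lib.MP_551055_al.Trim.N4.W_95
import Pool.Agent.Lib.MP_551055_al.Trim.N5.Asm_54
import Pool.Agent.Lib.MP_551055_al.Trim.N5.O5_54
import Pool.Agent.Lib.MP_551055_al.Trim.N5.PE_38
import Pool.Agent.Lib.MP_551055_al.Trim.N5.Stmts
import Pool.Agent.Lib.MP_551055_al.Trim.N5.W5_95
import Pool.Agent.Lib.MP_551055_al.Trim.N5.W6_95
import Pool.Agent.Lib.MP_551055_al.Trim.N6.A6_54
import Pool.Agent.Lib.MP_551055_al.Trim.N6.LG6_54
import Pool.Agent.Lib.MP_551055_al.Trim.N6.Stmts_17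
import Pool.Agent.Lib.MP_551055_al.Trim.N6.V36_54
import Pool.Agent.Lib.MP_551055_al.Trim.N6.V6_95
import Pool.Agent.Lib.MP_551055_al.Trim.N6.W6_95
import Pool.Agent.Lib.MP_551055_al.Trim.N6.Words_17
import Pool.Agent.Lib.MP_551055_al.Trim.T4.GlDim
import Pool.Agent.Lib.MP_551055_al.Trim.X.MP_e6f638_al.F
import Pool.Agent.Lib.MP_551055_al.Trim.X.MP_e6f638_al.GDefs
import Pool.Agent.Lib.MP_551055_al.Trim.X.MP_e6f638_al.I1
import Pool.Agent.Lib.MP_551055_al.Trim.X.MP_e6f638_al.I2
import Pool.Agent.Lib.MP_551055_al.Trim.X.MP_e6f638_al.Stmts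

/-!
# Even Artin groups without triangles 4, 4, 2: removal of a generator, and the induction
-/

set_option autoImplicit false

namespace Pool.Agent.Lib.MP_551055_al
end Pool.Agent.Lib.MP_551055_al

namespace Pool.Agent.Lib.MP_e6f638_al
end Pool.Agent.Lib.MP_e6f638_al

namespace Pool.Agent.Lib.MP_551055_al.RI
end Pool.Agent.Lib.MP_551055_al.RI

namespace Pool.Agent.Lib.MP_551055_al.N4
end Pool.Agent.Lib.MP_551055_al.N4

namespace Pool.Agent.Lib.MP_551055_al.N5
end Pool.Agent.Lib.MP_551055_al.N5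

namespace Pool.Agent.Lib.MP_551055_al.N6

open Pool.Agent.Lib.MP_551055_al

open Pool.Agent.Lib.MP_e6f638_al (Dat EA gen par rho del IsDatOf IsAxis inD killD inD_gen hom_ext_EA gen_rel gen_injective closure_gen)

open Pool.Agent.Lib.MP_551055_al.RI

open Pool.Agent.Lib.MP_551055_al.N4

open Pool.Agent.Lib.MP_551055_al.N5 (MM RRM kk S1M LiftOm PureExt stO5 stPE cutL cutL_ne cutL_u cutL_symm cutL_cases StKm)

open Multiplicative

/-- The open modules. -/
structure Mods : Prop where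
  l6 : StL6
  s1 : StS1M6
  s2 : StS2M6
  v6 : StV6
  v16 : StV16

/-- Finite products. -/
theorem pi_rule {P : ∀ (G : Type) [Group G], Prop} (hP : Rules P) (h0 : P Unit)
    (hprod : ∀ (G H : Type) [Group G] [Group H], P G → P H → P (G × H)) {ι : Type} [Finite ι] :
    ∀ (G : ι → Type) [∀ i, Group (G i)], (∀ i, P (G i)) → P (∀ i, G i) := by
  induction ι using Finite.induction_empty_option with
  | of_equiv e ih =>
    intro G _ hG
    refine hP.lift _ _ (MonoidHom.mk' (fun f a => f (e a)) fun f g => rfl)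
      (lift_of_injective _ fun f g hfg => ?_) (ih (fun a => G (e a)) fun a => hG (e a))
    funext b
    have h1 := congrFun hfg (e.symm b)
    have h2 : ∀ b', b' = e (e.symm b) → f b' = g b' := by
      rintro b' rfl
      exact h1
    exact h2 b (e.apply_symm_apply b).symm
  | h_empty =>
    intro G _ _
    refine hP.lift _ _ (1 : (∀ i, G i) →* Unit) (lift_of_injective _ fun f g _ => ?_) h0
    funext i
    exact i.elim
  | h_option ih =>
    intro G _ hG
    refine hP.lift _ _ (MonoidHom.mk' (fun f => (f none, fun a => f (some a))) fun f g => rfl)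
      (lift_of_injective _ fun f g hfg => ?_)
      (hprod _ _ (hG none) (ih (fun a => G (some a)) fun a => hG (some a)))
    funext o
    rcases o with _ | a
    · exact congrArg Prod.fst hfg
    · exact congrFun (congrArg Prod.snd hfg) a

/-- The map of `E` to the extension is injective. -/
theorem lam_inj {G : Type} [Group G] (D : Dat G) (hinj : Function.Injective D.phi) {A : Type}
    [Group A] {i : G →* A} {v : A} (hA : D.IsExt A i v) (e : D.E)
    (he : D.toA hA (D.phi e) = 1) : e = 1 := by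
  have hφ := D.isPhi_phi
  obtain ⟨ψ, h1, h2, -⟩ := D.exists_psi hφ hinj hA
  have h1' : ∀ g, ψ (i g) = D.psiG hφ hinj g := fun g => DFunLike.congr_fun h1 g
  have key : (ψ.comp (D.toA hA)).comp D.phi = (D.oQ hφ hinj).comp (D.phiQ hφ) := by
    refine D.E_ext ?_ ?_
    · intro a
      simp only [MonoidHom.comp_apply, hφ.1, Dat.toA_of, h1']
      rw [D.psiG_of_one hφ hinj a.2]
      rfl
    · intro k
      simp only [MonoidHom.comp_apply, hφ.2, map_pow, map_mul, Dat.toA_of, Dat.toA_u, h1', h2]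
      exact D.psi_pow hφ hinj k
  have h3 := DFunLike.congr_fun key e
  simp only [MonoidHom.comp_apply, he, map_one] at h3
  have h4 : D.phiQ hφ e = 1 := oQ_inj D hφ hinj (h3.symm.trans (map_one _).symm)
  exact (injective_iff_map_eq_one _).1 (D.phiQ_inj hφ hinj) e h4

/-- The rule for a vertex with a label four. -/
theorem mixed6 {P : ∀ (G : Type) [Group G], Prop} (hP : Rules P) (h0 : P Unit)
    (hprod : ∀ (G H : Type) [Group G] [Group H], P G → P H → P (G × H)) (hM : Mods) (S : Type)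
    [Finite S] (l : S → S → ℕ) (hA : Adm l) (h4 : ∀ s : S, ∃ t, t ≠ s ∧ l s t = 2) (u : S)
    (hO : ¬ O2 l u ∨ ∀ D : Dat (EA (del l u)), IsDatOf l u D → ∀ m ∈ MM D, m ∈ D.B)
    (hG : ∀ s, P (EA (del l s))) (hL : P (EA (cutL l u))) : P (EA l) := by
  obtain ⟨a, ha, hla⟩ := h4 u
  obtain ⟨D, hD, i, hi1, hi2, hExt⟩ := Pool.Agent.Lib.MP_e6f638_al.stI2 S l hA.symm u
    ⟨⟨a, ha⟩, by change l u a ≠ 1; omega⟩
  obtain ⟨k, hk⟩ := hD.surj ⟨a, ha⟩ (by change 2 ≤ l u a; omega)
  have hlk : D.l k = 2 := by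
    obtain ⟨s, hs, hls⟩ := hD.t k
    have h4 : s = ⟨a, ha⟩ := gen_injective _ (hs.symm.trans hk)
    rw [← hls, h4]
    exact hla
  have hii : i = inD l u := hom_ext_EA _ fun s => by rw [hi1, inD_gen]
  have hM3 : Mix3 D k := stA6 S l hA.symm hA.no u D hD k hlk
  have hW := stW6 _ D k hM3
  have hLoc := hM.l6 _ D k hM3 hW
  have hS1 := hM.s1 _ D k hM3 hW hLoc
  have hfin := Art4.finite_ι hD
  obtain ⟨j, hj⟩ := stPE S l hA.symm u D hD (cutL l u)
    (fun s t hs ht => cutL_ne l u hs ht) (cutL_u l u) (cutL_symm l u hA.symm)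
  obtain ⟨L', _, th, T', X', π, hPL', hLift⟩ := stLG6 P hP _ D k hfin hM3 hW hS1 (EA (cutL l u)) j
    (gen (cutL l u) u) hL hj D.isPhi_phi hW.inj
  have hOm := stO5 P hP _ D D.isPhi_phi hW.inj L' th T' X' π hLift (hG u) hPL'
    (∀ s, EA (del l s))
    (MonoidHom.pi fun s => (killD l s).comp (D.lam D.isPhi_phi hW.inj hExt))
    (pi_rule hP h0 hprod _ hG) (fun q hq e he h5 h6 => by
      refine hM.s2 stP6 hM.v6 hM.v16 S l hA h4 u D hD k hM3 hW hLoc (hO.imp_right fun h => h D hD)
        (D.toA hExt) (fun g => by rw [Dat.toA_of, hii]) (Dat.toA_u D hExt)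
        (lam_inj D hW.inj hExt) q hq (D.phi e) ⟨e, rfl⟩
        (fun h7 => he (hW.inj (by rw [h7, map_one]))) (fun s => ?_) h6
      have h7 := congrFun h5 s
      change killD l s (D.lam D.isPhi_phi hW.inj hExt (D.oQ D.isPhi_phi hW.inj
        (D.phiQ D.isPhi_phi e))) = 1 at h7
      rwa [Dat.lam_oQ, Dat.phiQ_coe] at h7)
  obtain ⟨ψ, _, _, hψ⟩ := D.exists_psi D.isPhi_phi hW.inj hExt
  exact hP.lift _ _ ψ (lift_of_injective ψ hψ) hOm

/-- The rule for a vertex without label four. -/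
theorem step6 {P : ∀ (G : Type) [Group G], Prop} (hP : Rules P) (hV6 : StV6) (S : Type)
    [Finite S] (l : S → S → ℕ) (hA : Adm l) (u : S) (h2 : ∀ s, s ≠ u → l u s ≠ 2)
    (hG : P (EA (del l u))) : P (EA l) := by
  by_cases hs : ∃ s : {x : S // x ≠ u}, l u s ≠ 1
  · obtain ⟨D, hD, i, hi1, hi2, hExt⟩ := Pool.Agent.Lib.MP_e6f638_al.stI2 S l hA.symm u hs
    obtain ⟨hfin, h3, hV⟩ := stV36 hV6 S l hA u h2 D hD
    have hW := stWd _ D h3
    have h4 := hP.omega _ D hfin (stS1 _ D h3 hW) (stS2 _ D h3 hW hV) hG D.isPhi_phi hW.inj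
    obtain ⟨ψ, _, _, hψ⟩ := D.exists_psi D.isPhi_phi hW.inj hExt
    exact hP.lift _ _ ψ (lift_of_injective ψ hψ) h4
  · push Not at hs
    refine hP.step stWd stArt S l hA.symm u h2 (fun t c ht _ h3 => ?_) hG
    have h4 := hs ⟨t, ht⟩
    change l u t = 1 at h4
    omega

/-- The group `MM` in the exceptional case. -/
theorem mm_O2 {S : Type} {l : S → S → ℕ} (hl : ∀ s t, l s t = l t s) {u t c : S}
    (htc : t ≠ c) (h3 : l u t = 3) (h2 : l t c = 2)
    (h : ∀ s, s ≠ u → s ≠ t → s ≠ c → l t s = 1 ∧ l c s = 1 ∧ l u s ≤ 2)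
    (D : Dat (EA (del l t))) (hD : IsDatOf l t D) : ∀ m ∈ MM D, m ∈ D.B := by
  have hc : ∀ i, D.l i = 2 → D.t i = gen (del l t) ⟨c, htc.symm⟩ := by
    intro i hi
    obtain ⟨s, hs, hls⟩ := hD.t i
    rw [hs]
    congr 1
    apply Subtype.ext
    by_contra hsc
    have h4 : l t s = 2 := hls.trans hi
    by_cases hsu : (s : S) = u
    · rw [hsu, hl, h3] at h4
      omega
    · have h5 := (h s hsu s.2 hsc).1
      omega
  have hcomm : ∀ b ∈ D.B, Commute b (gen (del l t) ⟨c, htc.symm⟩) := by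
    intro b hb
    rw [hD.B] at hb
    refine comm_of_ZZ (Pool.Agent.Lib.MP_e6f638_al.par_mono _ ?_ hb)
    intro x hx
    have hx1 : l t x = 1 := hx
    have hxc : (x : S) ≠ c := by
      intro h4
      rw [h4] at hx1
      omega
    have hxu : (x : S) ≠ u := by
      intro h4
      rw [h4, hl, h3] at hx1
      omega
    exact ⟨fun h4 => hxc (congrArg Subtype.val h4), (h x hxu x.2 hxc).2.1⟩
  have h4 : MM D ≤ D.B := by
    rw [MM, Subgroup.closure_le]
    rintro x (hx | ⟨i, j, b, hi, hj, hb, rfl⟩)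
    · exact hx
    · rw [hc i hi, hc j hj, ← (hcomm b hb).eq, mul_inv_cancel_right]
      exact hb
  exact fun m hm => h4 hm

/-- No triangle `4, 4, 2`. -/
structure No {S : Type} (l : S → S → ℕ) : Prop where
  symm : ∀ s t, l s t = l t s
  no : ∀ s t v : S, s ≠ t → s ≠ v → t ≠ v → ¬ (l s t = 2 ∧ l s v = 2 ∧ l t v = 1)

theorem No.sub {S : Type} {l : S → S → ℕ} (h : No l) (X : S → Prop) :
    No (fun a b : {x // X x} => l a b) where
  symm a b := h.symm a b
  no s t v h1 h2 h3 := h.no s t v (fun h' => h1 (Subtype.ext h')) (fun h' => h2 (Subtype.ext h'))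
    fun h' => h3 (Subtype.ext h')

theorem No.cut {S : Type} {l : S → S → ℕ} (h : No l) (u : S) : No (cutL l u) := by
  have hc := cutL_cases l u h.symm
  refine ⟨cutL_symm l u h.symm, ?_⟩
  rintro s t v h1 h2 h3 ⟨h4, h5, h6⟩
  refine h.no s t v h1 h2 h3 ⟨?_, ?_, ?_⟩
  · rcases hc s t with h7 | h7 <;> omega
  · rcases hc s v with h7 | h7 <;> omega
  · rcases hc t v with h7 | h7 <;> omega

/-- Finite even Artin groups without triangles `4, 4, 2`. -/
theorem finite6 (hK : StKm) (hM : Mods) {P : ∀ (G : Type) [Group G], Prop} (hP : Rules P)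
    (h0 : P Unit) (hprod : ∀ (G H : Type) [Group G] [Group H], P G → P H → P (G × H)) :
    ∀ (n : ℕ) (S : Type) [Finite S] (l : S → S → ℕ), Nat.card S = n → No l → P (EA l) := by
  intro n
  induction n using Nat.strong_induction_on with
  | _ n ih =>
  intro S _ l hn hN
  classical
  -- proper subsets
  have ihX : ∀ (X : S → Prop) (x : S), ¬ X x → ∀ l' : S → S → ℕ, No l' →
      P (EA (fun a b : {x // X x} => l' a b)) := by
    intro X x hx l' hl'
    refine ih (Nat.card {x // X x}) ?_ {x // X x} _ rfl (hl'.sub X)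
    rw [← hn]
    exact Finite.card_subtype_lt hx
  have ihd : ∀ u : S, P (EA (del l u)) := fun u => ihX (fun x => x ≠ u) u (by simp) l hN
  have ihc : ∀ (l' : S → S → ℕ), No l' → ∀ u : S,
      P (EA (fun a b : ({u}ᶜ : Set S) => l' a b)) := by
    intro l' hl' u
    exact ihX (fun x => x ∈ ({u}ᶜ : Set S)) u (by simp) l' hl'
  -- the empty set
  rcases isEmpty_or_nonempty S with he | ⟨⟨s₀⟩⟩
  · refine hP.lift Unit (EA l) 1 (lift_of_injective _ ?_) h0
    have h1 : (⊤ : Subgroup (EA l)) = ⊥ := by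
      rw [← closure_gen, Set.range_eq_empty, Subgroup.closure_empty]
    intro x y _
    have hx : x ∈ (⊥ : Subgroup (EA l)) := h1 ▸ Subgroup.mem_top x
    have hy : y ∈ (⊥ : Subgroup (EA l)) := h1 ▸ Subgroup.mem_top y
    rw [Subgroup.mem_bot] at hx hy
    rw [hx, hy]
  -- infinite labels
  by_cases hinf : ∃ s t : S, s ≠ t ∧ l s t = 0
  · obtain ⟨s, t, hst, h1⟩ := hinf
    exact hP.infinite S l hN.symm s t hst h1 (ihc l hN s) (ihc l hN t)
  push Not at hinf
  have hA : Adm l := ⟨hN.symm, hN.no, hinf⟩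
  -- a vertex without label four
  by_cases hfour : ∃ u : S, ∀ s, s ≠ u → l u s ≠ 2
  · obtain ⟨u, h2⟩ := hfour
    exact step6 hP hM.v6 S l hA u h2 (ihd u)
  push Not at hfour
  -- the cut graphs
  have hcut : ∀ u k : S, k ≠ u → 3 ≤ l u k → P (EA (cutL l u)) := by
    intro u k hk hlk
    refine hP.infinite S (cutL l u) (cutL_symm l u hN.symm) u k (fun h => hk h.symm) ?_
      (ihc _ (hN.cut u) u) (ihc _ (hN.cut u) k)
    rw [cutL_u, if_pos hlk]
  -- a label which is at least six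
  by_cases hbig : ∃ u k : S, k ≠ u ∧ 3 ≤ l u k
  · obtain ⟨u, k, hk, hlk⟩ := hbig
    by_cases hO : O2 l u
    · obtain ⟨t, c, htu, hcu, htc, h3, h2, _, h⟩ := hO
      exact mixed6 hP h0 hprod hM S l hA hfour t
        (Or.inr (mm_O2 hN.symm htc h3 h2 h)) ihd
        (hcut t u htu.symm (by rw [hN.symm]; exact h3.ge))
    · exact mixed6 hP h0 hprod hM S l hA hfour u (Or.inl hO) ihd (hcut u k hk hlk)
  push Not at hbig
  -- the labels are two and one
  have hlab : ∀ s t : S, s ≠ t → l s t = 1 ∨ l s t = 2 := by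
    intro s t hst
    have h1 := hbig s t hst.symm
    have h2 := hinf s t hst
    omega
  let X : Set S := {t | t = s₀ ∨ l s₀ t = 2}
  by_cases hX : ∀ t, t ∈ X
  · refine hK P hP S l hN.symm (fun s t hst => ?_) s₀ (ihd s₀)
    rcases hX s with h1 | h1
    · rcases hX t with h2 | h2
      · exact absurd (h1.trans h2.symm) hst
      · rw [h1]
        exact h2
    · rcases hX t with h2 | h2
      · rw [h2, hN.symm]
        exact h1
      · rcases hlab s t hst with h3 | h3
        · by_cases hs : s = s₀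
          · rw [hs]
            exact h2
          · by_cases ht : t = s₀
            · rw [ht, hN.symm]
              exact h1
            · exact absurd ⟨h1, h2, h3⟩ (hN.no s₀ s t (fun h => hs h.symm) (fun h => ht h.symm) hst)
        · exact h3
  · push Not at hX
    obtain ⟨y, hy⟩ := hX
    have hcomm : ∀ x ∈ X, ∀ y ∈ Xᶜ, l x y = 1 := by
      intro x hx y hy
      have hy0 : y ≠ s₀ := fun h => hy (Or.inl h)
      have hy2 : l s₀ y ≠ 2 := fun h => hy (Or.inr h)
      have hxy : x ≠ y := by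
        rintro rfl
        exact hy hx
      have h1 : l s₀ y = 1 := (hlab s₀ y (fun h => hy0 h.symm)).resolve_right hy2
      by_cases hx0 : x = s₀
      · rw [hx0]
        exact h1
      · rcases hx with h | h
        · exact absurd h hx0
        · rcases hlab x y hxy with h2 | h2
          · exact h2
          · refine absurd ⟨?_, h2, h1⟩ (hN.no x s₀ y hx0 hxy (fun h => hy0 h.symm))
            rw [hN.symm]
            exact h
    have h1 := hP.union (l := l) hprod (X := X) (Y := Xᶜ) disjoint_compl_right hcomm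
      (ihX (fun x => x ∈ X) y hy l hN)
      (ihX (fun x => x ∈ Xᶜ) s₀ (fun h => h (Or.inl rfl)) l hN)
    exact hP.equiv (fun a b : ↥(X ∪ Xᶜ) => l a b) l
      ⟨fun a => ⟨a, by rw [Set.union_compl_self]; trivial⟩, fun a => a.1, fun _ => rfl,
        fun _ => rfl⟩ (fun _ _ => rfl) h1

end Pool.Agent.Lib.MP_551055_al.N6
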