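import Mathlib
import Pool.Agent.Lib.MP_551055_al.Trim.N6.Words_17
import Pool.Agent.Lib.MP_551055_al.Trim.X.MP_e6f638_al.I1
import Pool.Agent.Lib.MP_551055_al.Trim.X.MP_e6f638_al.Stmts

/-!
# Statements on normal forms of names of exceptional edges
-/

set_option autoImplicit false

namespace Pool.Agent.Lib.MP_551055_al
end Pool.Agent.Lib.MP_551055_al

namespace Pool.Agent.Lib.MP_e6f638_al
end Pool.Agent.Lib.MP_e6f638_al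

namespace Pool.Agent.Lib.MP_551055_al.N4
end Pool.Agent.Lib.MP_551055_al.N4

namespace Pool.Agent.Lib.MP_551055_al.N6

open Pool.Agent.Lib.MP_551055_al

open Pool.Agent.Lib.MP_e6f638_al (Dat EA gen par rho del IsDatOf IsAxis)

open Pool.Agent.Lib.MP_551055_al.N4

/-- Module E1: corners of type `(t, t)`. -/
def StCorner0 : Prop :=
  StV6 → ∀ (S : Type) [Finite S] (l : S → S → ℕ), Adm l → ∀ (C Y : Set S), C ⊆ Y → ∀ t, t ∉ Y →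
    ∀ (ε : ℤˣ), ∀ m ∈ par l Y, ∀ m' ∈ par l Y, ∀ b₁ ∈ par l C, ∀ b₂ ∈ par l C,
      b₁ ∉ par l (ZZ l t) →
      gen l t ^ (ε : ℤ) * m * gen l t ^ ((-ε : ℤˣ) : ℤ) * b₂ =
        b₁ * gen l t ^ (ε : ℤ) * m' * gen l t ^ ((-ε : ℤˣ) : ℤ) →
      m ∈ par l (ZZ l t) ∧ m' ∈ par l (ZZ l t)

/-- Module E2: corners of type `(t, t')`. -/
def StCorner1 : Prop :=
  StP6 → ∀ (S : Type) [Finite S] (l : S → S → ℕ), Adm l → ∀ (C Y : Set S), C ⊆ Y →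
    ∀ t t', t ∉ Y → t' ∉ Y → t ≠ t' →
    ∀ (ε : ℤˣ), ∀ m ∈ par l Y, ∀ m' ∈ par l Y, ∀ b₁ ∈ par l C, ∀ b₂ ∈ par l C,
      gen l t ^ (ε : ℤ) * m * gen l t ^ ((-ε : ℤˣ) : ℤ) * b₂ =
        b₁ * gen l t' ^ (ε : ℤ) * m' * gen l t' ^ ((-ε : ℤˣ) : ℤ) →
      m ∈ par l (ZZ l t) ∧ m' ∈ par l (ZZ l t') ∧ m * b₂ = b₁ * m'

/-- Module E3: straight passes of type `(t, t')`. -/
def StStr1 : Prop :=
  StP6 → ∀ (S : Type) [Finite S] (l : S → S → ℕ), Adm l → ∀ (C Y : Set S), C ⊆ Y →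
    ∀ t t', t ∉ Y → t' ∉ Y → t ≠ t' →
    ∀ θ ∈ par l Y, ∀ θ' ∈ par l Y, ∀ b₁ ∈ par l C, ∀ b₂ ∈ par l C,
      gen l t * θ * gen l t' * b₂ = b₁ * gen l t' * θ' * gen l t →
      l t t' = 1 ∧ (∃ β ∈ par l (C ∩ ZZ l t), ∃ β' ∈ par l (C ∩ ZZ l t'), b₁ = β * β') ∧
      (b₁ = 1 → θ ∈ par l (ZZ l t') ∧ θ' ∈ par l (ZZ l t) ∧ θ * b₂ = θ') ∧
      (b₂ = 1 → θ ∈ par l (ZZ l t) ∧ θ' ∈ par l (ZZ l t') ∧ θ = b₁ * θ')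

/-- Module E4: the normal form for types `(t, t')`. -/
def StNf1 : Prop :=
  ∀ (S : Type) [Finite S] (l : S → S → ℕ), Adm l → ∀ (C Y : Set S), C ⊆ Y →
    ∀ t t', t ∉ Y → t' ∉ Y → ∀ m ∈ par l Y, ∀ m' ∈ par l Y, ∀ b ∈ par l C,
      m ∈ par l (ZZ l t) → m' ∈ par l (ZZ l t') → m * b = m' →
      ∃ β ∈ par l (C ∩ ZZ l t), ∃ β' ∈ par l (C ∩ ZZ l t'), ∃ n ∈ par l (Y ∩ ZZ l t ∩ ZZ l t'),
        b = β⁻¹ * β' ∧ m = n * β ∧ m' = n * β'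

/-- Module E5: the normal form for types `(t, t)`. -/
def StNf0 : Prop :=
  StP6 → ∀ (S : Type) [Finite S] (l : S → S → ℕ), Adm l → ∀ (C Y : Set S), C ⊆ Y →
    ∀ t, t ∉ Y → ∀ c ∈ C, l t c = 2 → ∀ k : ℤ, k ≠ 0 →
    ∀ m ∈ par l Y, ∀ m' ∈ par l Y, ∀ b ∈ par l C,
      m ∈ par l (ZZ l t) → m' ∈ par l (ZZ l t) → m * b = gen l c ^ k * m' →
      ∃ β ∈ par l (C ∩ ZZ l t), ∃ β' ∈ par l (C ∩ ZZ l t), ∃ n ∈ par l (Y ∩ ZZ l t ∩ ZZ l c),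
        b = β⁻¹ * gen l c ^ k * β' ∧ m = n * β ∧ m' = n * β'

/-- Module E6: straight passes of type `(t, t)`. -/
def StStr0 : Prop :=
  StP6 → StV16 → ∀ (S : Type) [Finite S] (l : S → S → ℕ), Adm l → ∀ (C Y : Set S), C ⊆ Y →
    ∀ t, t ∉ Y → ∀ θ ∈ par l Y, ∀ θ' ∈ par l Y, ∀ b₁ ∈ par l C, ∀ b₂ ∈ par l C,
      b₁ ∉ par l (ZZ l t) → gen l t * θ * gen l t * b₂ = b₁ * gen l t * θ' * gen l t →
      ∃ c ∈ C, l t c = 2 ∧ ∃ k : ℤ, k ≠ 0 ∧ ∃ β ∈ par l (C ∩ ZZ l t),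
        ∃ β' ∈ par l (C ∩ ZZ l t), b₁ = β * gen l c ^ k * β'

/-- Module E7: straight passes of type `(t, t)`, normalised at the first edge. -/
def StStr0a : Prop :=
  StP6 → StV16 → ∀ (S : Type) [Finite S] (l : S → S → ℕ), Adm l → ∀ (C Y : Set S), C ⊆ Y →
    ∀ t, t ∉ Y → ∀ c ∈ C, l t c = 2 → ∀ k : ℤ, k ≠ 0 →
    ∀ θ ∈ par l Y, ∀ θ' ∈ par l Y, ∀ b ∈ par l C,
      gen l t * θ * gen l t * b = gen l c ^ k * gen l t * θ' * gen l t →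
      ∃ β ∈ par l (C ∩ ZZ l t), ∃ β' ∈ par l (C ∩ ZZ l t), ∃ n₀ ∈ par l (Y ∩ ZZ l t ∩ ZZ l c),
        ∃ n₁ ∈ par l (Y ∩ ZZ l t ∩ ZZ l c),
          θ = n₀ * gen l c * n₁ * β ∧ b = β⁻¹ * gen l c ^ k * β'

/-- Module E8: straight passes of type `(t, t)`, normalised at the second edge. -/
def StStr0b : Prop :=
  StP6 → StV16 → ∀ (S : Type) [Finite S] (l : S → S → ℕ), Adm l → ∀ (C Y : Set S), C ⊆ Y →
    ∀ t, t ∉ Y → ∀ c ∈ C, l t c = 2 → ∀ k : ℤ, k ≠ 0 →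
    ∀ θ ∈ par l Y, ∀ θ' ∈ par l Y, ∀ b ∈ par l C, b ∉ par l (ZZ l t) →
      gen l t * θ * gen l t * gen l c ^ k = b * gen l t * θ' * gen l t →
      ∃ β ∈ par l (C ∩ ZZ l t), ∃ β' ∈ par l (C ∩ ZZ l t), ∃ n₀ ∈ par l (Y ∩ ZZ l t ∩ ZZ l c),
        ∃ n₁ ∈ par l (Y ∩ ZZ l t ∩ ZZ l c),
          θ = β * n₀ * gen l c * n₁ ∧ b = β * gen l c ^ k * β'

/-- Module E9: the end. -/
def StEnd0 : Prop :=
  StP6 → ∀ (S : Type) [Finite S] (l : S → S → ℕ), Adm l → ∀ (C : Set S), ∀ t, t ∉ C →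
    ∀ c ∈ C, l t c = 2 → ∀ k : ℤ, k ≠ 0 → ∀ β ∈ par l (C ∩ ZZ l t), ∀ β' ∈ par l (C ∩ ZZ l t),
      β * gen l c ^ k = gen l c ^ k * β' → β ∈ par l (C ∩ ZZ l t ∩ ZZ l c)

end Pool.Agent.Lib.MP_551055_al.N6
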