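import Mathlib
import Pool.Agent.Lib.MP_551055_al.Trim.N6.StmtsE_17
import Pool.Agent.Lib.MP_551055_al.Trim.N6.Words_17
import Pool.Agent.Lib.MP_551055_al.Trim.RI.Stmts
import Pool.Agent.Lib.MP_551055_al.Trim.W17.Peel
import Pool.Agent.Lib.MP_551055_al.Trim.X.MP_e6f638_al.I1
import Pool.Agent.Lib.MP_551055_al.Trim.X.MP_e6f638_al.Stmts

/-!
# Normal forms of names of exceptional edges: modules E1, E2, E3, E4
-/

set_option autoImplicit false

namespace Pool.Agent.Lib.MP_551055_al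
end Pool.Agent.Lib.MP_551055_al

namespace Pool.Agent.Lib.MP_e6f638_al
end Pool.Agent.Lib.MP_e6f638_al

namespace Pool.Agent.Lib.MP_551055_al.N6.E38
end Pool.Agent.Lib.MP_551055_al.N6.E38

namespace Pool.Agent.Lib.MP_551055_al.N6

open Pool.Agent.Lib.MP_551055_al

open Multiplicative

open Pool.Agent.Lib.MP_e6f638_al (Dat EA gen par rho del IsDatOf IsAxis rho_mem rho_not_mem gen_mem_par par_mono rho_par rho_mem_par rho_par_le par_inter wt wt_gen)

namespace E38

variable {S : Type} {l : S → S → ℕ}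

theorem compl {X : Set S} {c : S} (hc : c ∉ X) {y : EA l} (hy : y ∈ par l X) :
    y ∈ par l {c}ᶜ := by
  refine par_mono l (fun s hs => ?_) hy
  rintro rfl
  exact hc hs

theorem gen_ne (s : S) : gen l s ≠ 1 := by
  intro h
  have h1 := congrArg (wt l (fun _ => 1)) h
  rw [wt_gen, (wt l (fun _ => 1)).map_one] at h1
  have h2 : (1 : ℤ) = 0 := ofAdd.injective h1
  exact one_ne_zero h2

/-- the projection which kills one generator -/
theorem kill {Y : Set S} {t : S} (ht : t ∉ Y) {y : EA l} (hy : y ∈ par l Y) :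
    rho l {t}ᶜ y = y := rho_par l (compl ht hy)

theorem kill_gen (t : S) : rho l {t}ᶜ (gen l t) = 1 := rho_not_mem l (by simp)

theorem keep_gen {t t' : S} (h : t' ≠ t) : rho l {t}ᶜ (gen l t') = gen l t' :=
  rho_mem l (by simpa using h)

theorem zneg (g : EA l) (ε : ℤˣ) : g ^ ((-ε : ℤˣ) : ℤ) = (g ^ (ε : ℤ))⁻¹ := by
  rw [Units.val_neg, zpow_neg]

end E38

open E38

theorem stCorner0 : StCorner0 := by
  intro hV S _ l hl C Y hCY t ht ε m hm m' hm' b₁ hb₁ b₂ hb₂ hb₁Z h
  have htC : t ∉ C := fun h => ht (hCY h)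
  have e1 : gen l t ^ (ε : ℤ) * m * gen l t ^ ((-ε : ℤˣ) : ℤ) =
      b₁ * gen l t ^ (ε : ℤ) * m' * gen l t ^ ((-ε : ℤˣ) : ℤ) * b₂⁻¹ := by
    rw [eq_mul_inv_iff_mul_eq]
    exact h
  have e2 : gen l t ^ (ε : ℤ) * m' * gen l t ^ ((-ε : ℤˣ) : ℤ) =
      b₁⁻¹ * gen l t ^ (ε : ℤ) * m * gen l t ^ ((-ε : ℤˣ) : ℤ) * b₂ := by
    simp only [mul_assoc] at h ⊢
    rw [eq_inv_mul_iff_mul_eq]
    exact h.symm
  refine ⟨?_, ?_⟩
  · rcases hV S l hl t ε m (compl ht hm) m' (compl ht hm') b₁ (compl htC hb₁) b₂⁻¹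
      (inv_mem (compl htC hb₂)) e1 with h1 | h1
    · exact h1
    · exact absurd h1 hb₁Z
  · rcases hV S l hl t ε m' (compl ht hm') m (compl ht hm) b₁⁻¹ (inv_mem (compl htC hb₁)) b₂
      (compl htC hb₂) e2 with h1 | h1
    · exact h1
    · exact absurd (by simpa using inv_mem h1) hb₁Z

theorem stCorner1 : StCorner1 := by
  intro hP S _ l hl C Y hCY t t' ht ht' htt ε m hm m' hm' b₁ hb₁ b₂ hb₂ h
  have htC : t ∉ C := fun h => ht (hCY h)
  have ht'C : t' ∉ C := fun h => ht' (hCY h)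
  rw [zneg, zneg] at h
  -- kill `t`
  have e1 : m * b₂ = b₁ * gen l t' ^ (ε : ℤ) * m' * (gen l t' ^ (ε : ℤ))⁻¹ := by
    have := congrArg (rho l {t}ᶜ) h
    simpa only [map_mul, map_inv, map_zpow, kill_gen, keep_gen htt.symm, kill ht hm, kill ht hm',
      kill htC hb₁, kill htC hb₂, one_zpow, one_mul, mul_one, inv_one] using this
  -- kill `t'`
  have e2 : gen l t ^ (ε : ℤ) * m * (gen l t ^ (ε : ℤ))⁻¹ * b₂ = b₁ * m' := by
    have := congrArg (rho l {t'}ᶜ) h
    simpa only [map_mul, map_inv, map_zpow, kill_gen, keep_gen htt, kill ht' hm, kill ht' hm',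
      kill ht'C hb₁, kill ht'C hb₂, one_zpow, one_mul, mul_one, inv_one] using this
  -- kill both
  have e3 : m * b₂ = b₁ * m' := by
    have := congrArg (rho l {t}ᶜ) e2
    simpa only [map_mul, map_inv, map_zpow, kill_gen, kill ht hm, kill ht hm',
      kill htC hb₁, kill htC hb₂, one_zpow, one_mul, mul_one, inv_one] using this
  have hε : (ε : ℤ) ≠ 0 := by
    rcases Int.units_eq_one_or ε with rfl | rfl <;> simp
  have c1 : Commute (gen l t ^ (ε : ℤ)) m := by
    rw [← e3] at e2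
    have h1 := mul_right_cancel e2
    rw [mul_inv_eq_iff_eq_mul] at h1
    exact h1
  have c2 : Commute (gen l t' ^ (ε : ℤ)) m' := by
    rw [e3] at e1
    simp only [mul_assoc] at e1
    have h1 := mul_left_cancel e1
    rw [← mul_assoc, eq_mul_inv_iff_mul_eq] at h1
    exact h1.symm
  exact ⟨hP S l hl t ε hε m (compl ht hm) c1, hP S l hl t' ε hε m' (compl ht' hm') c2, e3⟩

theorem stStr1 : StStr1 := by
  intro hP S _ l hl C Y hCY t t' ht ht' htt θ hθ θ' hθ' b₁ hb₁ b₂ hb₂ h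
  have htC : t ∉ C := fun h => ht (hCY h)
  have ht'C : t' ∉ C := fun h => ht' (hCY h)
  -- kill `t`
  have e1 : θ * gen l t' * b₂ = b₁ * gen l t' * θ' := by
    have := congrArg (rho l {t}ᶜ) h
    simpa only [map_mul, kill_gen, keep_gen htt.symm, kill ht hθ, kill ht hθ',
      kill htC hb₁, kill htC hb₂, one_mul, mul_one] using this
  -- kill `t'`
  have e2 : gen l t * θ * b₂ = b₁ * θ' * gen l t := by
    have := congrArg (rho l {t'}ᶜ) h
    simpa only [map_mul, kill_gen, keep_gen htt, kill ht' hθ, kill ht' hθ',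
      kill ht'C hb₁, kill ht'C hb₂, one_mul, mul_one] using this
  -- kill both
  have e3 : θ * b₂ = b₁ * θ' := by
    have := congrArg (rho l {t}ᶜ) e2
    simpa only [map_mul, kill_gen, kill ht hθ, kill ht hθ',
      kill htC hb₁, kill htC hb₂, one_mul, mul_one] using this
  have c1 : Commute (gen l t) (b₁ * gen l t' * θ') := by
    show gen l t * (b₁ * gen l t' * θ') = b₁ * gen l t' * θ' * gen l t
    rw [← h, ← e1]
    simp only [mul_assoc]
  have c2 : Commute (gen l t) (b₁ * θ') := by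
    show gen l t * (b₁ * θ') = b₁ * θ' * gen l t
    rw [← e2, ← e3]
    simp only [mul_assoc]
  have c3 : Commute (gen l t ^ (1 : ℤ)) (b₁ * gen l t' * b₁⁻¹) := by
    have h1 := c1.mul_right c2.inv_right
    have h2 : b₁ * gen l t' * θ' * (b₁ * θ')⁻¹ = b₁ * gen l t' * b₁⁻¹ := by
      rw [mul_inv_rev]
      simp only [mul_assoc, mul_inv_cancel_left]
    rw [h2] at h1
    rw [zpow_one]
    exact h1
  have g' : gen l t' ∈ par l {t}ᶜ := gen_mem_par l (by simpa using htt.symm)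
  have hw : b₁ * gen l t' * b₁⁻¹ ∈ par l (ZZ l t) :=
    hP S l hl t 1 one_ne_zero _
      (mul_mem (mul_mem (compl htC hb₁) g') (inv_mem (compl htC hb₁))) c3
  have hw2 := rho_par l hw
  rw [map_mul, map_mul, map_inv] at hw2
  have ht'Z : t' ∈ ZZ l t := by
    by_contra hcon
    rw [rho_not_mem l hcon, mul_one, mul_inv_cancel] at hw2
    have h3 : gen l t' = 1 := by
      have h4 : b₁ * gen l t' = b₁ := by
        rw [← mul_inv_eq_one]
        exact hw2.symm
      exact mul_eq_left.mp h4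
    exact gen_ne t' h3
  rw [rho_mem l ht'Z] at hw2
  have hβ : rho l (ZZ l t) b₁ ∈ par l (ZZ l t ∩ C) := rho_par_le l hb₁
  have hβC : rho l (ZZ l t) b₁ ∈ par l C := par_mono l Set.inter_subset_right hβ
  have hβ'C : (rho l (ZZ l t) b₁)⁻¹ * b₁ ∈ par l C := mul_mem (inv_mem hβC) hb₁
  have hβ'Z : (rho l (ZZ l t) b₁)⁻¹ * b₁ ∈ par l (ZZ l t') := by
    refine hP S l hl t' 1 one_ne_zero _ (compl ht'C hβ'C) ?_
    rw [zpow_one]
    show gen l t' * ((rho l (ZZ l t) b₁)⁻¹ * b₁) = (rho l (ZZ l t) b₁)⁻¹ * b₁ * gen l t'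
    have h4 : rho l (ZZ l t) b₁ * gen l t' * (rho l (ZZ l t) b₁)⁻¹ * b₁ = b₁ * gen l t' := by
      rw [hw2, inv_mul_cancel_right]
    rw [mul_assoc (rho l (ZZ l t) b₁)⁻¹, ← h4]
    simp only [mul_assoc, inv_mul_cancel_left]
  refine ⟨ht'Z.2, ⟨rho l (ZZ l t) b₁, ?_, (rho l (ZZ l t) b₁)⁻¹ * b₁, par_inter l hβ'C hβ'Z,
    (mul_inv_cancel_left _ _).symm⟩, fun hb => ?_, fun hb => ?_⟩
  · rw [Set.inter_comm]
    exact hβ
  · subst hb
    rw [one_mul] at e1 e2 e3
    have c4 : Commute (gen l t') θ := by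
      show gen l t' * θ = θ * gen l t'
      rw [← e3, ← mul_assoc] at e1
      exact (mul_right_cancel e1).symm
    have c5 : Commute (gen l t) θ' := by
      show gen l t * θ' = θ' * gen l t
      rw [mul_assoc, e3] at e2
      exact e2
    exact ⟨hP S l hl t' 1 one_ne_zero _ (compl ht' hθ) (by rwa [zpow_one]),
      hP S l hl t 1 one_ne_zero _ (compl ht hθ') (by rwa [zpow_one]), e3⟩
  · subst hb
    rw [mul_one] at e1 e2 e3
    have c4 : Commute (gen l t') θ' := by
      show gen l t' * θ' = θ' * gen l t'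
      rw [e3, mul_assoc, mul_assoc] at e1
      exact (mul_left_cancel e1).symm
    have c5 : Commute (gen l t) θ := by
      show gen l t * θ = θ * gen l t
      rw [← e3] at e2
      exact e2
    exact ⟨hP S l hl t 1 one_ne_zero _ (compl ht hθ) (by rwa [zpow_one]),
      hP S l hl t' 1 one_ne_zero _ (compl ht' hθ') (by rwa [zpow_one]), e3⟩

theorem stNf1 : StNf1 := by
  intro S _ l _ C Y hCY t t' _ _ m hm m' hm' b hb hmZ hm'Z h
  have hβ : rho l C m ∈ par l (C ∩ ZZ l t) := rho_par_le l hmZ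
  have hβ' : rho l C m' ∈ par l (C ∩ ZZ l t') := rho_par_le l hm'Z
  have h1 : rho l C m * b = rho l C m' := by
    have := congrArg (rho l C) h
    rwa [map_mul, rho_par l hb] at this
  have hb' : b = (rho l C m)⁻¹ * rho l C m' := by
    rw [← h1, inv_mul_cancel_left]
  have hn : m * (rho l C m)⁻¹ = m' * (rho l C m')⁻¹ := by
    rw [eq_mul_inv_iff_mul_eq, mul_assoc, ← hb', h]
  have hY : m * (rho l C m)⁻¹ ∈ par l Y :=
    mul_mem hm (inv_mem (par_mono l (Set.inter_subset_left.trans hCY) hβ))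
  have hZ : m * (rho l C m)⁻¹ ∈ par l (ZZ l t) :=
    mul_mem hmZ (inv_mem (par_mono l Set.inter_subset_right hβ))
  have hZ' : m * (rho l C m)⁻¹ ∈ par l (ZZ l t') := by
    rw [hn]
    exact mul_mem hm'Z (inv_mem (par_mono l Set.inter_subset_right hβ'))
  refine ⟨rho l C m, hβ, rho l C m', hβ', m * (rho l C m)⁻¹,
    par_inter l (par_inter l hY hZ) hZ', hb', ?_, ?_⟩
  · rw [inv_mul_cancel_right]
  · rw [hn, inv_mul_cancel_right]

end Pool.Agent.Lib.MP_551055_al.N6
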