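import Mathlib
import Pool.Agent.Lib.MP_551055_al.Trim.N6.StmtsE_17
import Pool.Agent.Lib.MP_551055_al.Trim.N6.Words_17
import Pool.Agent.Lib.MP_551055_al.Trim.X.MP_e6f638_al.I1
import Pool.Agent.Lib.MP_551055_al.Trim.X.MP_e6f638_al.Stmts

/-!
# Normal forms of names of exceptional edges: modules E5, E6, E9
-/

set_option autoImplicit false

namespace Pool.Agent.Lib.MP_551055_al
end Pool.Agent.Lib.MP_551055_al

namespace Pool.Agent.Lib.MP_e6f638_al
end Pool.Agent.Lib.MP_e6f638_al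

namespace Pool.Agent.Lib.MP_551055_al.N6

open Pool.Agent.Lib.MP_551055_al

open Pool.Agent.Lib.MP_e6f638_al (Dat EA gen par rho del IsDatOf IsAxis rho_mem rho_not_mem gen_mem_par par_mono rho_par rho_mem_par rho_par_le par_inter)

theorem par_compl_of_not_mem42 {S : Type} {l : S → S → ℕ} {X : Set S} {c : S} (hc : c ∉ X)
    {y : EA l} (hy : y ∈ par l X) : y ∈ par l {c}ᶜ := by
  refine par_mono l (fun s hs => ?_) hy
  rintro rfl
  exact hc hs

theorem not_mem_ZZ42 {S : Type} {l : S → S → ℕ} {t c : S} (h : l t c = 2) : c ∉ ZZ l t := by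
  intro hc
  have := hc.2
  omega

theorem stNf0 : StNf0 := by
  intro hP6 S _ l hl C Y hCY t _ c hc htc k hk m hm m' hm' b hb hmZ hm'Z h
  have hcZ : c ∉ ZZ l t := not_mem_ZZ42 htc
  have hβ : rho l C m ∈ par l (C ∩ ZZ l t) := rho_par_le l hmZ
  have hβ' : rho l C m' ∈ par l (C ∩ ZZ l t) := rho_par_le l hm'Z
  have h1 : rho l C m * b = gen l c ^ k * rho l C m' := by
    have := congrArg (rho l C) h
    rwa [map_mul, map_mul, map_zpow, rho_par l hb, rho_mem l hc] at this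
  have hb' : b = (rho l C m)⁻¹ * gen l c ^ k * rho l C m' := by
    rw [mul_assoc, ← h1, inv_mul_cancel_left]
  have hn : m * (rho l C m)⁻¹ ∈ par l (ZZ l t) :=
    mul_mem hmZ (inv_mem (par_mono l Set.inter_subset_right hβ))
  have hn' : m' * (rho l C m')⁻¹ ∈ par l (ZZ l t) :=
    mul_mem hm'Z (inv_mem (par_mono l Set.inter_subset_right hβ'))
  have h2 : m * (rho l C m)⁻¹ * gen l c ^ k = gen l c ^ k * (m' * (rho l C m')⁻¹) := by
    rw [← mul_assoc (gen l c ^ k), ← h, hb']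
    simp only [mul_assoc, mul_inv_cancel, mul_one]
  have h3 : m * (rho l C m)⁻¹ = m' * (rho l C m')⁻¹ := by
    have := congrArg (rho l (ZZ l t)) h2
    rwa [map_mul, map_mul _ (gen l c ^ k), map_zpow, rho_not_mem l hcZ, one_zpow, mul_one, one_mul,
      rho_par l hn, rho_par l hn'] at this
  have h4 : m * (rho l C m)⁻¹ ∈ par l (ZZ l c) := by
    refine hP6 S l hl c k hk _ (par_compl_of_not_mem42 hcZ hn) ?_
    show gen l c ^ k * (m * (rho l C m)⁻¹) = m * (rho l C m)⁻¹ * gen l c ^ k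
    rw [h2, h3]
  have h5 : m * (rho l C m)⁻¹ ∈ par l Y :=
    mul_mem hm (inv_mem (par_mono l (Set.inter_subset_left.trans hCY) hβ))
  refine ⟨rho l C m, hβ, rho l C m', hβ', m * (rho l C m)⁻¹,
    par_inter l (par_inter l h5 hn) h4, hb', ?_, ?_⟩
  · rw [inv_mul_cancel_right]
  · rw [h3, inv_mul_cancel_right]

theorem stEnd0 : StEnd0 := by
  intro hP6 S _ l hl C t _ c _ htc k hk β hβ β' hβ' h
  have hcZ : c ∉ ZZ l t := not_mem_ZZ42 htc
  have hβZ := par_mono l Set.inter_subset_right hβ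
  have hβ'Z := par_mono l Set.inter_subset_right hβ'
  have h1 : β = β' := by
    have := congrArg (rho l (ZZ l t)) h
    rwa [map_mul, map_mul, map_zpow, rho_not_mem l hcZ, one_zpow, mul_one, one_mul,
      rho_par l hβZ, rho_par l hβ'Z] at this
  refine par_inter l hβ (hP6 S l hl c k hk β (par_compl_of_not_mem42 hcZ hβZ) ?_)
  show gen l c ^ k * β = β * gen l c ^ k
  rw [h, ← h1]

theorem stStr0 : StStr0 := by
  intro _ hV S _ l hl C Y hCY t ht θ hθ θ' hθ' b₁ hb₁ b₂ hb₂ hb₁Z h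
  have htC : t ∉ C := fun h => ht (hCY h)
  obtain ⟨c, _, htc, β₀, hβ₀, β₁, _, k, hk, _, h1, _⟩ :=
    hV S l hl t b₁ (par_compl_of_not_mem42 htC hb₁) b₂ (par_compl_of_not_mem42 htC hb₂) θ
      (par_compl_of_not_mem42 ht hθ) θ' (par_compl_of_not_mem42 ht hθ') h hb₁Z
  have hr : rho l C (rho l (ZZ l t) b₁) ∈ par l (C ∩ ZZ l t) :=
    rho_par_le l (rho_mem_par l _ _)
  have hβ : rho l C β₀ ∈ par l (C ∩ ZZ l t) := rho_par_le l hβ₀
  have h2 : b₁ = rho l C β₀ * rho l C (gen l c) ^ k * (rho l C β₀)⁻¹ *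
      rho l C (rho l (ZZ l t) b₁) := by
    conv_lhs => rw [← rho_par l hb₁, h1]
    simp only [map_mul, map_zpow, map_inv]
  by_cases hc : c ∈ C
  · rw [rho_mem l hc] at h2
    exact ⟨c, hc, htc, k, hk, _, hβ, _, mul_mem (inv_mem hβ) hr, by rw [← mul_assoc]; exact h2⟩
  · exfalso
    apply hb₁Z
    rw [rho_not_mem l hc, one_zpow, mul_one, mul_inv_cancel, one_mul] at h2
    rw [h2]
    exact par_mono l Set.inter_subset_right hr

end Pool.Agent.Lib.MP_551055_al.N6
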