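import Mathlib
import Pool.Agent.Lib.MP_551055_al.Trim.N6.StmtsE_17
import Pool.Agent.Lib.MP_551055_al.Trim.N6.Words_17
import Pool.Agent.Lib.MP_551055_al.Trim.RI.Stmts
import Pool.Agent.Lib.MP_551055_al.Trim.W17.Peel
import Pool.Agent.Lib.MP_551055_al.Trim.X.MP_e6f638_al.I1
import Pool.Agent.Lib.MP_551055_al.Trim.X.MP_e6f638_al.Stmts

/-!
# Modules E7, E8: straight passes of type `(t, t)`
-/

set_option autoImplicit false

namespace Pool.Agent.Lib.MP_551055_al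
end Pool.Agent.Lib.MP_551055_al

namespace Pool.Agent.Lib.MP_e6f638_al
end Pool.Agent.Lib.MP_e6f638_al

namespace Pool.Agent.Lib.MP_551055_al.N6

open Pool.Agent.Lib.MP_551055_al

open Pool.Agent.Lib.MP_e6f638_al

namespace E3

variable {S : Type} {l : S → S → ℕ}

theorem mem_Zt {t s : S} (h : l t s = 2) : s ∉ ZZ l t := fun h' => by
  have := h'.2
  omega

open Classical in
theorem wt_pow (c : S) (k : ℤ) : wt l (fun s => if s = c then 1 else 0) (gen l c ^ k) =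
    Multiplicative.ofAdd k := by
  rw [map_zpow, wt_gen, if_pos rfl, ← ofAdd_zsmul]
  simp

open Classical in
theorem wt_pow_ne {c c' : S} (h : c' ≠ c) (k : ℤ) :
    wt l (fun s => if s = c then 1 else 0) (gen l c' ^ k) = 1 := by
  rw [map_zpow, wt_gen, if_neg h]
  simp

theorem pow_not {t c : S} (h : l t c = 2) {k : ℤ} (hk : k ≠ 0) : gen l c ^ k ∉ par l (ZZ l t) := by
  classical
  intro hm
  have h1 := wt_pow (l := l) c k
  rw [wt_par l (X := ZZ l t) (f := fun s => if s = c then 1 else 0) (by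
    intro s hs
    rw [if_neg]
    rintro rfl
    exact mem_Zt h hs) hm] at h1
  exact hk (congrArg Multiplicative.toAdd h1).symm

theorem rho_pow {t c : S} (h : l t c = 2) (k : ℤ) : rho l (ZZ l t) (gen l c ^ k) = 1 := by
  rw [map_zpow, rho_not_mem l (mem_Zt h), one_zpow]

/-- Conjugate powers. -/
theorem conj_pow {c c' : S} {k m : ℤ} (hk : k ≠ 0) {β : EA l}
    (h : gen l c ^ k = β * gen l c' ^ m * β⁻¹) : c' = c ∧ m = k := by
  classical
  have h1 := congrArg (wt l (fun s => if s = c then 1 else 0)) h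
  rw [wt_pow, map_mul, map_mul, map_inv, mul_right_comm, mul_inv_cancel, one_mul] at h1
  by_cases hc : c' = c
  · subst hc
    rw [wt_pow] at h1
    exact ⟨rfl, (Multiplicative.ofAdd.injective h1).symm⟩
  · rw [wt_pow_ne hc] at h1
    exact absurd (congrArg Multiplicative.toAdd h1) hk

theorem par_Z_compl {t c : S} (h : l t c = 2) {X : Set S} {y : EA l} (hy : y ∈ par l (X ∩ ZZ l t)) :
    y ∈ par l {c}ᶜ :=
  par_mono l (show X ∩ ZZ l t ⊆ ({c}ᶜ : Set S) from fun s hs => by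
    rw [Set.mem_compl_iff, Set.mem_singleton_iff]
    rintro rfl
    exact mem_Zt h hs.2) hy

theorem mem3 {Y : Set S} {t c : S} {y : EA l} (h1 : y ∈ par l (Y ∩ ZZ l t))
    (h2 : y ∈ par l (ZZ l c)) : y ∈ par l (Y ∩ ZZ l t ∩ ZZ l c) := par_inter l h1 h2

end E3

/-- Module E7. -/
theorem stStr0a : StStr0a := by
  intro hP hV S _ l hadm C Y hCY t ht c hc htc k hk θ hθ θ' hθ' b hb he
  have hYt : Y ⊆ {t}ᶜ := fun s hs h => ht (h ▸ hs)
  have hcY : c ∈ Y := hCY hc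
  have hct : c ∈ ({t}ᶜ : Set S) := hYt hcY
  obtain ⟨c₁, -, -, β₀, hβ₀, β₁, hβ₁, m, -, h1, h2, h3⟩ := hV S l hadm t (gen l c ^ k)
    (zpow_mem (gen_mem_par l hct) k) b (par_mono l (hCY.trans hYt) hb) θ (par_mono l hYt hθ) θ'
    (par_mono l hYt hθ') he (E3.pow_not htc hk)
  rw [E3.rho_pow htc, mul_one] at h2
  obtain ⟨rfl, rfl⟩ := E3.conj_pow hk h2
  have hρ : rho l (ZZ l t) b ∈ par l (C ∩ ZZ l t) := by
    rw [Set.inter_comm]
    exact rho_par_le l hb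
  have hρC : rho l C (rho l (ZZ l t) b) = rho l (ZZ l t) b :=
    rho_par l (par_mono l Set.inter_subset_left hρ)
  have hρY : rho l Y (rho l (ZZ l t) b) = rho l (ZZ l t) b :=
    rho_par l (par_mono l (Set.inter_subset_left.trans hCY) hρ)
  -- the elements in `par l Y`
  have hn₀ : rho l Y β₀ ∈ par l (Y ∩ ZZ l t) := rho_par_le l hβ₀
  have hγ : rho l Y β₁ ∈ par l (Y ∩ ZZ l t) := rho_par_le l hβ₁
  have e1 : θ = rho l Y β₀ * gen l c₁ * rho l Y β₁ := by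
    rw [← rho_par l hθ, h1, map_mul, map_mul, rho_mem l hcY]
  have e2 : b = (rho l Y β₁)⁻¹ * gen l c₁ ^ m * rho l Y β₁ * rho l (ZZ l t) b := by
    have := congrArg (rho l Y) h3
    rw [rho_par l (par_mono l hCY hb)] at this
    simp only [map_mul, map_inv, map_zpow, rho_mem l hcY, hρY] at this
    exact this
  obtain ⟨γ, hγdef⟩ : ∃ γ, γ = rho l Y β₁ := ⟨_, rfl⟩
  rw [← hγdef] at hγ e1 e2
  have hβ : rho l C γ ∈ par l (C ∩ ZZ l t) :=
    par_mono l (show C ∩ (Y ∩ ZZ l t) ⊆ C ∩ ZZ l t from fun s hs => ⟨hs.1, hs.2.2⟩)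
      (rho_par_le l hγ)
  have e3 : b = (rho l C γ)⁻¹ * gen l c₁ ^ m * rho l C γ * rho l (ZZ l t) b := by
    have := congrArg (rho l C) e2
    rw [rho_par l hb] at this
    simp only [map_mul, map_inv, map_zpow, rho_mem l hc, hρC] at this
    exact this
  have e4 : γ⁻¹ * gen l c₁ ^ m * γ = (rho l C γ)⁻¹ * gen l c₁ ^ m * rho l C γ := by
    have : γ⁻¹ * gen l c₁ ^ m * γ * rho l (ZZ l t) b =
      (rho l C γ)⁻¹ * gen l c₁ ^ m * rho l C γ * rho l (ZZ l t) b := by rw [← e2, ← e3]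
    exact mul_right_cancel this
  have e5 : Commute (gen l c₁ ^ m) (γ * (rho l C γ)⁻¹) := by
    change gen l c₁ ^ m * (γ * (rho l C γ)⁻¹) = γ * (rho l C γ)⁻¹ * gen l c₁ ^ m
    calc gen l c₁ ^ m * (γ * (rho l C γ)⁻¹)
        = γ * (γ⁻¹ * gen l c₁ ^ m * γ) * (rho l C γ)⁻¹ := by group
      _ = _ := by rw [e4]; group
  have hn₁ : γ * (rho l C γ)⁻¹ ∈ par l (Y ∩ ZZ l t) :=
    mul_mem hγ (inv_mem (par_mono l (Set.inter_subset_inter_left _ hCY) hβ))
  have e6 : Commute (gen l c₁ ^ m) β₀ := by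
    change gen l c₁ ^ m * β₀ = β₀ * gen l c₁ ^ m
    conv_lhs => rw [h2]
    group
  have e7 : Commute (gen l c₁ ^ m) (rho l Y β₀) := by
    have := e6.map (rho l Y)
    rwa [map_zpow, rho_mem l hcY] at this
  have m0 := hP S l hadm c₁ m hk _ (E3.par_Z_compl htc hn₀) e7
  have m1 := hP S l hadm c₁ m hk _ (E3.par_Z_compl htc hn₁) e5
  refine ⟨rho l C γ, hβ, rho l C γ * rho l (ZZ l t) b, mul_mem hβ hρ, rho l Y β₀,
    E3.mem3 hn₀ m0, γ * (rho l C γ)⁻¹, E3.mem3 hn₁ m1, ?_, ?_⟩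
  · rw [e1]
    group
  · conv_lhs => rw [e3]
    simp only [mul_assoc]

/-- Module E8. -/
theorem stStr0b : StStr0b := by
  intro hP hV S _ l hadm C Y hCY t ht c hc htc k hk θ hθ θ' hθ' b hb hbt he
  have hYt : Y ⊆ {t}ᶜ := fun s hs h => ht (h ▸ hs)
  have hcY : c ∈ Y := hCY hc
  have hct : c ∈ ({t}ᶜ : Set S) := hYt hcY
  obtain ⟨c₁, -, -, β₀, hβ₀, β₁, hβ₁, m, -, h1, h2, h3⟩ := hV S l hadm t b
    (par_mono l (hCY.trans hYt) hb) (gen l c ^ k) (zpow_mem (gen_mem_par l hct) k) θ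
    (par_mono l hYt hθ) θ' (par_mono l hYt hθ') he hbt
  rw [E3.rho_pow htc, mul_one] at h3
  obtain ⟨rfl, rfl⟩ := E3.conj_pow (β := β₁⁻¹) hk (by rw [inv_inv]; exact h3)
  have hρ : rho l (ZZ l t) b ∈ par l (C ∩ ZZ l t) := by
    rw [Set.inter_comm]
    exact rho_par_le l hb
  have hρC : rho l C (rho l (ZZ l t) b) = rho l (ZZ l t) b :=
    rho_par l (par_mono l Set.inter_subset_left hρ)
  have hρY : rho l Y (rho l (ZZ l t) b) = rho l (ZZ l t) b :=
    rho_par l (par_mono l (Set.inter_subset_left.trans hCY) hρ)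
  have hn₁ : rho l Y β₁ ∈ par l (Y ∩ ZZ l t) := rho_par_le l hβ₁
  have hγ : rho l Y β₀ ∈ par l (Y ∩ ZZ l t) := rho_par_le l hβ₀
  have e1 : θ = rho l Y β₀ * gen l c₁ * rho l Y β₁ := by
    rw [← rho_par l hθ, h1, map_mul, map_mul, rho_mem l hcY]
  have e2 : b = rho l Y β₀ * gen l c₁ ^ m * (rho l Y β₀)⁻¹ * rho l (ZZ l t) b := by
    have := congrArg (rho l Y) h2
    rw [rho_par l (par_mono l hCY hb)] at this
    simp only [map_mul, map_inv, map_zpow, rho_mem l hcY, hρY] at this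
    exact this
  obtain ⟨γ, hγdef⟩ : ∃ γ, γ = rho l Y β₀ := ⟨_, rfl⟩
  rw [← hγdef] at hγ e1 e2
  have hβ : rho l C γ ∈ par l (C ∩ ZZ l t) :=
    par_mono l (show C ∩ (Y ∩ ZZ l t) ⊆ C ∩ ZZ l t from fun s hs => ⟨hs.1, hs.2.2⟩)
      (rho_par_le l hγ)
  have e3 : b = rho l C γ * gen l c₁ ^ m * (rho l C γ)⁻¹ * rho l (ZZ l t) b := by
    have := congrArg (rho l C) e2
    rw [rho_par l hb] at this
    simp only [map_mul, map_inv, map_zpow, rho_mem l hc, hρC] at this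
    exact this
  have e4 : γ * gen l c₁ ^ m * γ⁻¹ = rho l C γ * gen l c₁ ^ m * (rho l C γ)⁻¹ := by
    have : γ * gen l c₁ ^ m * γ⁻¹ * rho l (ZZ l t) b =
      rho l C γ * gen l c₁ ^ m * (rho l C γ)⁻¹ * rho l (ZZ l t) b := by rw [← e2, ← e3]
    exact mul_right_cancel this
  have e5 : Commute (gen l c₁ ^ m) ((rho l C γ)⁻¹ * γ) := by
    change gen l c₁ ^ m * ((rho l C γ)⁻¹ * γ) = (rho l C γ)⁻¹ * γ * gen l c₁ ^ m
    calc gen l c₁ ^ m * ((rho l C γ)⁻¹ * γ)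
        = (rho l C γ)⁻¹ * (rho l C γ * gen l c₁ ^ m * (rho l C γ)⁻¹) * γ := by group
      _ = _ := by rw [← e4]; group
  have hn₀ : (rho l C γ)⁻¹ * γ ∈ par l (Y ∩ ZZ l t) :=
    mul_mem (inv_mem (par_mono l (Set.inter_subset_inter_left _ hCY) hβ)) hγ
  have e6 : Commute (gen l c₁ ^ m) β₁ := by
    change gen l c₁ ^ m * β₁ = β₁ * gen l c₁ ^ m
    conv_rhs => rw [h3]
    group
  have e7 : Commute (gen l c₁ ^ m) (rho l Y β₁) := by
    have := e6.map (rho l Y)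
    rwa [map_zpow, rho_mem l hcY] at this
  have m1 := hP S l hadm c₁ m hk _ (E3.par_Z_compl htc hn₁) e7
  have m0 := hP S l hadm c₁ m hk _ (E3.par_Z_compl htc hn₀) e5
  refine ⟨rho l C γ, hβ, (rho l C γ)⁻¹ * rho l (ZZ l t) b, mul_mem (inv_mem hβ) hρ,
    (rho l C γ)⁻¹ * γ, E3.mem3 hn₀ m0, rho l Y β₁, E3.mem3 hn₁ m1, ?_, ?_⟩
  · rw [e1]
    group
  · conv_lhs => rw [e3]
    simp only [mul_assoc]

end Pool.Agent.Lib.MP_551055_al.N6
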