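import Mathlib
import Pool.Agent.Lib.MP_551055_al.Trim.LS.PStmts
import Pool.Agent.Lib.MP_551055_al.Trim.LS.Ray
import Pool.Agent.Lib.MP_551055_al.Trim.LS.Stmts
import Pool.Agent.Lib.MP_551055_al.Trim.LS.TreeB
import Pool.Agent.Lib.MP_551055_al.Trim.MT.Defs
import Pool.Agent.Lib.MP_551055_al.Trim.N4.Loc_17
import Pool.Agent.Lib.MP_551055_al.Trim.N4.S1_4
import Pool.Agent.Lib.MP_551055_al.Trim.N4.S2_17
import Pool.Agent.Lib.MP_551055_al.Trim.N4.Stmts
import Pool.Agent.Lib.MP_551055_al.Trim.N5.L5_4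
import Pool.Agent.Lib.MP_551055_al.Trim.N5.S1M_4
import Pool.Agent.Lib.MP_551055_al.Trim.N5.Stmts
import Pool.Agent.Lib.MP_551055_al.Trim.N6.Stmts_17
import Pool.Agent.Lib.MP_551055_al.Trim.RI.HNN
import Pool.Agent.Lib.MP_551055_al.Trim.X.MP_e6f638_al.Stmts

/-!
# Module S1M6: the intersection of `E` and its conjugate by `x` in the mixed case with label six
-/

set_option autoImplicit false

namespace Pool.Agent.Lib.MP_551055_al
end Pool.Agent.Lib.MP_551055_al

namespace Pool.Agent.Lib.MP_e6f638_al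
end Pool.Agent.Lib.MP_e6f638_al

namespace Pool.Agent.Lib.MP_551055_al.N4
end Pool.Agent.Lib.MP_551055_al.N4

namespace Pool.Agent.Lib.MP_551055_al.N4.S14
end Pool.Agent.Lib.MP_551055_al.N4.S14

namespace Pool.Agent.Lib.MP_551055_al.N5
end Pool.Agent.Lib.MP_551055_al.N5

namespace Pool.Agent.Lib.MP_551055_al.N5.L54
end Pool.Agent.Lib.MP_551055_al.N5.L54

namespace Pool.Agent.Lib.MP_551055_al.N5.S15
end Pool.Agent.Lib.MP_551055_al.N5.S15

namespace Pool.Agent.Lib.MP_551055_al.N6.S16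
end Pool.Agent.Lib.MP_551055_al.N6.S16

namespace Pool.Agent.Lib.MP_551055_al.N6

open Pool.Agent.Lib.MP_551055_al

open Pool.Agent.Lib.MP_e6f638_al (Dat)

open Pool.Agent.Lib.MP_551055_al.N4

open Pool.Agent.Lib.MP_551055_al.N4.S14 (next_vtx dist_le_one x_eq e_mem')

open Pool.Agent.Lib.MP_551055_al.N5 (MM RRM kk S1M)

open Multiplicative

namespace S16

open Pool.Agent.Lib.MP_551055_al.N5.L54 (mm_B mm_t mm_tt mm_h xi_of xi_inv xi_inv_u tt_h tt_mem kk_mem z_two last_inv trG comm_xi first_S)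

open Pool.Agent.Lib.MP_551055_al.N5.S15 (follow NN nn_div r_M r_z r_kz r_zz conj_z conj_mem r_le r_second MS ms_reach ms_one ms_two)

variable {G : Type} [Group G] {D : Dat G} {a : D.ι}

theorem mm_hom {K : Type} [Group K] {f g : G →* K} (hB : ∀ b ∈ D.B, f b = g b)
    (ht : ∀ i, D.l i = 2 → f (D.t i) = g (D.t i)) {m : G} (hm : m ∈ MM D) : f m = g m := by
  have h1 : MM D ≤ f.eqLocus g := by
    rw [MM, Subgroup.closure_le]
    rintro x (hx | ⟨i, j, b, hi, hj, hb, rfl⟩)
    · exact hB x hx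
    · change f _ = g _
      simp only [map_mul, map_inv, hB b hb, ht i hi, ht j hj]
  exact h1 hm

theorem nn_mn {y : D.Ah} (hy : NN D a y) : Mn D 1 (pt D y) ∨ Mn D (xi D a)⁻¹ (pt D y) := by
  rcases hy with ⟨h1, _⟩ | ⟨h1, _⟩
  · exact Or.inl ⟨y, h1, by rw [one_mul]⟩
  · refine Or.inr ⟨_, h1, ?_⟩
    rw [inv_mul_cancel_left]

variable (hM : Mix3 D a) (hL : LocM3 D a)

include hL in
theorem ne_ms {k e : D.Ah} (he : e ∈ RE D) {i : D.ι} {r : ℕ} (hr : 2 ≤ r) (hr' : r + 2 ≤ D.l i)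
    {v : AV D} (hv : MS D a k v) : pt D (k * e * xi D i ^ r) ≠ v := by
  rintro rfl
  rcases hv with hv | ⟨e', he', hv⟩
  · exact hL.nm k e he i r (by omega) (by omega) hv
  · exact hL.ts k e he e' he' i r hr hr' hv

include hM

theorem ne_a {k : D.ι} (hk : 3 ≤ D.l k) : k ≠ a := by
  rintro rfl
  have := hM.la
  omega

theorem wt3 {k : D.ι} (hk : 3 ≤ D.l k) : ∃ w : G →* Multiplicative ℤ, w (D.t k) = ofAdd 1 ∧
    (∀ i, i ≠ k → w (D.t i) = 1) ∧ (∀ b ∈ D.B, w b = 1) ∧ ∀ m ∈ MM D, w m = 1 := by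
  obtain ⟨w, h1, h2, h3⟩ := hM.wt k
  refine ⟨w, h1, h2, h3, fun m hm => ?_⟩
  refine mm_hom (f := w) (g := 1) (fun b hb => h3 b hb) (fun i hi => h2 i ?_) hm
  rintro rfl
  omega

theorem rt3 {k : D.ι} (hk : 3 ≤ D.l k) : ∃ ρ : G →* G, ρ (D.t k) = 1 ∧
    (∀ i, i ≠ k → ρ (D.t i) = D.t i) ∧ (∀ b ∈ D.B, ρ b = b) ∧ ∀ m ∈ MM D, ρ m = m := by
  obtain ⟨ρ, h1, h2, h3⟩ := hM.rt k
  refine ⟨ρ, h1, h2, h3, fun m hm => ?_⟩
  refine mm_hom (f := ρ) (g := MonoidHom.id G) (fun b hb => h3 b hb) (fun i hi => h2 i ?_) hm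
  rintro rfl
  omega

/-- The last step of both cases. -/
theorem g4 {m₁ m₂ b : G} (h1 : m₁ ∈ MM D) (h2 : m₂ ∈ MM D) (hb : b ∈ D.B)
    (h : (D.t a)⁻¹ * m₁ * D.t a * b = m₂) : m₂ ∈ D.B := by
  refine hM.mm m₂ h2 ?_
  have h3 : D.t a * m₂ * (D.t a)⁻¹ = m₁ * (D.t a * b * (D.t a)⁻¹) := by
    rw [← h]
    group
  rw [h3]
  exact mul_mem h1 (mm_t hM.la hM.la hb)

theorem g4o {c j j' : D.ι} (hc : 3 ≤ D.l c) (hj : j = a ∨ 3 ≤ D.l j) {m₁ m₂ b : G}
    (h1 : m₁ ∈ MM D) (h2 : m₂ ∈ MM D) (hb : b ∈ D.B)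
    (h : m₂ * D.t j' = (kk D a c)⁻¹ * m₁ * D.t j * b) :
    j' = c ∧ m₂ ∈ D.B ∧ Commute m₂ (D.t c) := by
  have hca : c ≠ a := ne_a hM hc
  obtain ⟨w, w1, w2, w3, w4⟩ := wt3 hM hc
  have hw := congrArg (fun x => toAdd (w x)) h
  simp only [kk, mul_inv_rev, inv_inv, map_mul, map_inv, w1, w2 a hca.symm, w3 b hb, w4 m₁ h1,
    w4 m₂ h2, toAdd_mul, toAdd_ofAdd, toAdd_one, toAdd_inv] at hw
  have hj' : j' = c := by
    by_contra hne
    rw [w2 j' hne, toAdd_one] at hw
    by_cases hjc : j = c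
    · rw [hjc, w1, toAdd_ofAdd] at hw
      omega
    · rw [w2 j hjc, toAdd_one] at hw
      omega
  subst hj'
  have hjc : j ≠ j' := by
    rintro rfl
    rw [w1, toAdd_ofAdd] at hw
    omega
  have hja : j = a := by
    rcases hj with hj | hj
    · exact hj
    · exfalso
      obtain ⟨v, v1, v2, v3, v4⟩ := wt3 hM hj
      have hv := congrArg (fun x => toAdd (v x)) h
      simp only [kk, mul_inv_rev, inv_inv, map_mul, map_inv, v1, v2 j' hjc.symm,
        v2 a (ne_a hM hj).symm, v3 b hb, v4 m₁ h1, v4 m₂ h2, toAdd_mul, toAdd_ofAdd, toAdd_one,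
        toAdd_inv] at hv
      omega
  subst hja
  obtain ⟨ρ, r1, r2, r3, r4⟩ := rt3 hM hc
  have hr := congrArg ρ h
  simp only [kk, mul_inv_rev, inv_inv, map_mul, map_inv, r1, r2 j hjc, r3 b hb, r4 m₁ h1,
    r4 m₂ h2, one_mul, mul_one] at hr
  refine ⟨rfl, g4 hM h1 h2 hb hr.symm, ?_⟩
  have h3 : m₂ * D.t j' = D.t j' * m₂ := by
    rw [h, hr, kk]
    group
  exact h3

theorem g4i {c j j' : D.ι} (hc : 3 ≤ D.l c) (hj' : j' = a ∨ 3 ≤ D.l j') {m₁ m₂ b : G}
    (h1 : m₁ ∈ MM D) (h2 : m₂ ∈ MM D) (hb : b ∈ D.B)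
    (h : m₂ * kk D a j' = (kk D a c)⁻¹ * (m₁ * kk D a j) * b) :
    j' = a ∧ m₂ ∈ D.B := by
  have hca : c ≠ a := ne_a hM hc
  obtain ⟨w, w1, w2, w3, w4⟩ := wt3 hM hc
  have hw := congrArg (fun x => toAdd (w x)) h
  simp only [kk, mul_inv_rev, inv_inv, map_mul, map_inv, w1, w2 a hca.symm, w3 b hb, w4 m₁ h1,
    w4 m₂ h2, toAdd_mul, toAdd_ofAdd, toAdd_one, toAdd_inv] at hw
  have hjc : j = c := by
    by_contra hne
    rw [w2 j hne, toAdd_one] at hw
    by_cases hjc : j' = c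
    · rw [hjc, w1, toAdd_ofAdd] at hw
      omega
    · rw [w2 j' hjc, toAdd_one] at hw
      omega
  subst hjc
  have hjc : j' ≠ j := by
    rintro rfl
    rw [w1, toAdd_ofAdd] at hw
    omega
  have hja : j' = a := by
    rcases hj' with hj | hj
    · exact hj
    · exfalso
      obtain ⟨v, v1, v2, v3, v4⟩ := wt3 hM hj
      have hv := congrArg (fun x => toAdd (v x)) h
      simp only [kk, mul_inv_rev, inv_inv, map_mul, map_inv, v1, v2 j hjc.symm,
        v2 a (ne_a hM hj).symm, v3 b hb, v4 m₁ h1, v4 m₂ h2, toAdd_mul, toAdd_ofAdd, toAdd_one,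
        toAdd_inv] at hv
      omega
  subst hja
  obtain ⟨ρ, r1, r2, r3, r4⟩ := rt3 hM hc
  have hr := congrArg ρ h
  simp only [kk, mul_inv_rev, inv_inv, map_mul, map_inv, r1, r2 j' hjc, r3 b hb, r4 m₁ h1,
    r4 m₂ h2, one_mul, mul_one, mul_inv_cancel, inv_one] at hr
  refine ⟨rfl, g4 hM h1 h2 hb ?_⟩
  rw [hr]
  group

include hL

/-- The common edges at a vertex which is of type S in two tile graphs, the names of which differ
by an element of a tile with label six or more. -/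
theorem ss {k k' e e' P : D.Ah} (he : e ∈ RE D) (he' : e' ∈ RE D) {c : D.ι} (hc : 3 ≤ D.l c)
    (h : P * D.ofG (kk D a c)⁻¹ = k * e * xi D a) (h' : P = k' * e' * xi D a) {w : AV D}
    (hw : (TK D k).Adj (pt D P) w) (hw' : (TK D k').Adj (pt D P) w) :
    w = pt D (P * xi D c) ∨ w = pt D (P * (xi D c)⁻¹) := by
  have hp : pt D P = pt D (k * e * xi D a) := by rw [← h, pt_mul_ofG]
  have hp' : pt D P = pt D (k' * e' * xi D a) := by rw [← h']
  rcases hw with hw | hw <;> rcases hw' with hw' | hw'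
  · left
    rw [hp] at hw
    rw [hp'] at hw'
    obtain ⟨m₁, h1, j, hj, h2⟩ := hL.sO k e he w hw
    obtain ⟨m₂, h3, j', hj', h4⟩ := hL.sO k' e' he' w hw'
    rw [← h, mul_assoc P, ← map_mul] at h2
    rw [← h'] at h4
    obtain ⟨b, hb, h5⟩ := out_name (h2.symm.trans h4)
    obtain ⟨rfl, h6, h7⟩ := g4o hM hc hj h1 h3 hb h5
    rw [h4, mul_assoc, (comm_xi h6 h7).eq, ← mul_assoc, pt_mul_ofG]
  · exact (dir_asymm D hw.dir hw'.dir).elim
  · exact (dir_asymm D hw.dir hw'.dir).elim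
  · right
    rw [hp] at hw
    rw [hp'] at hw'
    obtain ⟨m₁, h1, j, hj, h2⟩ := hL.sI k e he w hw
    obtain ⟨m₂, h3, j', hj', h4⟩ := hL.sI k' e' he' w hw'
    rw [← h, mul_assoc P, ← map_mul] at h2
    rw [← h'] at h4
    obtain ⟨b, hb, h5⟩ := in_name (h2.symm.trans h4)
    obtain ⟨rfl, h6⟩ := g4i hM hc hj' h1 h3 hb h5
    rw [h4, kk, mul_inv_cancel, mul_one, mul_assoc, ← u_inv_B h6, ← mul_assoc, pt_mul_ofG,
      in_vertex]

end S16

open S16 in
open Pool.Agent.Lib.MP_551055_al.N5.L54 (mm_B mm_t mm_tt mm_h xi_of xi_inv xi_inv_u tt_h tt_mem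
  kk_mem z_two last_inv trG comm_xi first_S) in
open Pool.Agent.Lib.MP_551055_al.N5.S15 (follow NN nn_div r_M r_z r_kz r_zz conj_z conj_mem r_le
  r_second MS ms_reach ms_one ms_two) in
/-- Module S1M6. -/
theorem stS1M6 : StS1M6 := by
  intro G _ D a hM hW hL
  have ha := hM.la
  -- the claim
  suffices h : ∀ (n : ℕ) (y : D.Ah), NN D a y → (AT D).dist (pt D 1) (pt D y) = n →
      y ∈ RRM D a ∨ y * (xi D a)⁻¹ ∈ RRM D a by
    intro y hy hxy
    have h1 : xi D a * y * (xi D a)⁻¹ ∈ RE D := by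
      have h2 : xi D a * y * (xi D a)⁻¹ = (D.ofG (D.t₀ * (D.t a)⁻¹))⁻¹ *
          (D.x * y * D.x⁻¹) * D.ofG (D.t₀ * (D.t a)⁻¹) := by
        rw [x_eq a]
        group
      rw [h2]
      exact mul_mem (mul_mem (inv_mem (e_mem' a)) hxy) (e_mem' a)
    rcases h _ y (Or.inl ⟨hy, h1⟩) rfl with h2 | h2
    · exact h2
    · exfalso
      have h3 := mul_mem (inv_mem (r_le h2)) hy
      rw [mul_inv_rev, inv_inv, inv_mul_cancel_right] at h3
      refine hW.c1 a 1 1 le_rfl (by omega) ?_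
      rwa [pow_one, map_one, mul_one]
  intro n
  induction n using Nat.strong_induction_on with
  | h n ih =>
  intro y hy hn
  -- the closing step
  have close : ∀ r : D.Ah, r * (xi D a)⁻¹ ∈ RRM D a → (AT D).dist (pt D r) (pt D y) < n →
      y ∈ RRM D a ∨ y * (xi D a)⁻¹ ∈ RRM D a := by
    intro r hr hlt
    obtain ⟨h1, h2⟩ := r_second ha hr
    have h3 := ih _ hlt (r⁻¹ * y) (nn_div h1 h2 hy) (by
      rw [← LS.dist_smul_smul (at_act D) r, smul_pt, smul_pt, mul_one, mul_inv_cancel_left])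
    rcases h3 with h3 | h3
    · right
      have h4 := mul_mem hr (conj_mem ha h3)
      have h5 : y * (xi D a)⁻¹ = r * (xi D a)⁻¹ * (xi D a * (r⁻¹ * y) * (xi D a)⁻¹) := by group
      rwa [h5]
    · left
      have h4 := mul_mem (mul_mem hr (conj_mem ha h3)) (r_zz ha)
      have h5 : y = r * (xi D a)⁻¹ * (xi D a * (r⁻¹ * y * (xi D a)⁻¹) * (xi D a)⁻¹) *
          (xi D a * xi D a) := by group
      rwa [← h5] at h4
  by_cases h0 : pt D 1 = pt D y
  · -- `y` is in `G`
    obtain ⟨g, hg⟩ := (pt_eq D).1 h0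
    rw [one_mul] at hg
    subst hg
    left
    rcases hy with ⟨_, h1⟩ | ⟨h1, _⟩
    · exact r_M (hW.cS g h1)
    · exfalso
      refine hW.c1 a 1 g le_rfl (by omega) ?_
      rwa [pow_one]
  obtain ⟨w, hw, hwd⟩ := N4.S14.next_vtx h0
  have hm1 : MS D a 1 (pt D 1) := Or.inl ⟨1, one_mem _, by rw [one_mul]⟩
  have hp1 : pt D 1 = pt D ((xi D a)⁻¹ * 1 * xi D a) := by rw [mul_one, inv_mul_cancel]
  have hm2 : MS D a (xi D a)⁻¹ (pt D 1) := Or.inr ⟨1, one_mem _, hp1⟩
  obtain ⟨ha1, hr1⟩ := step_mem (at_act D).tree (tk_le D 1) (ms_reach hm1 (ms_one hy)) hw hwd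
  obtain ⟨ha2, hr2⟩ := step_mem (at_act D).tree (tk_le D _) (ms_reach hm2 (ms_two hy)) hw hwd
  have hfin : ∀ (p : ℕ → AV D) (j : D.ι), 3 ≤ D.l j → p 0 = pt D 1 → p 1 = w →
      (∀ s, 1 ≤ s → s < D.l j - 1 → p s ≠ pt D y ∧ ∀ w, (TK D 1).Adj (p s) w →
        (TK D (xi D a)⁻¹).Adj (p s) w → w = p (s + 1) ∨ w = p (s - 1)) →
      (AT D).dist (p (D.l j - 1)) (pt D y) < n := by
    intro p j hj hp0 hp1 hf
    have h1 := follow (at_act D).tree (tk_le D 1) (tk_le D (xi D a)⁻¹)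
      (fun _ _ h => N4.S14.next_vtx h) p (D.l j - 1) hf (by rwa [hp1]) (by rwa [hp1])
      (by rw [hp0, hp1, hwd]) (D.l j - 1) (by omega) le_rfl
    rw [hp0, hn] at h1
    omega
  rcases ha2 with h | h
  · -- outgoing
    rw [hp1] at h
    obtain ⟨m, hm, j, hj, h1⟩ := hL.sO _ 1 (one_mem _) w h
    have h2 : w = pt D (D.ofG m * xi D j) := by
      rw [h1, mul_one, inv_mul_cancel, one_mul]
    by_cases hja : j = a
    · subst hja
      refine close _ ?_ (by rw [← h2]; omega)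
      rw [mul_inv_cancel_right]
      exact r_M hm
    have hj3 : 3 ≤ D.l j := by
      rcases hj with hj | hj
      · exact absurd hj hja
      · exact hj
    have hme : D.ofG m ∈ RE D := ofG_mem_RE D (mm_h hm)
    -- the tile in the second graph
    have he₂ : xi D a * D.ofG m * (xi D j)⁻¹ ∈ RE D := by
      rw [xi_inv a j, ← mul_assoc]
      exact mul_mem (r_le (conj_mem ha (r_M hm))) (kk_mem a j)
    have hk : ∀ s, (xi D a)⁻¹ * (xi D a * D.ofG m * (xi D j)⁻¹) * xi D j ^ (s + 1) =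
        D.ofG m * xi D j ^ s := fun s => by
      rw [pow_succ']
      group
    have hk1 : ∀ s, 1 * D.ofG m * xi D j ^ s = D.ofG m * xi D j ^ s := fun s => by rw [one_mul]
    have h3 := hfin (fun s => pt D (D.ofG m * xi D j ^ s)) j hj3 (by
      show pt D (D.ofG m * xi D j ^ 0) = pt D 1
      rw [pow_zero, mul_one, ← one_mul (D.ofG m), pt_mul_ofG]) (by
      show pt D (D.ofG m * xi D j ^ 1) = w
      rw [h2, pow_one]) (by
      intro s hs hs'
      show pt D (D.ofG m * xi D j ^ s) ≠ pt D y ∧ ∀ w, (TK D 1).Adj (pt D (D.ofG m * xi D j ^ s)) w →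
        (TK D (xi D a)⁻¹).Adj (pt D (D.ofG m * xi D j ^ s)) w →
          w = pt D (D.ofG m * xi D j ^ (s + 1)) ∨ w = pt D (D.ofG m * xi D j ^ (s - 1))
      by_cases hj4 : D.l j = 3
      · have hs1 : s = 1 := by omega
        subst hs1
        refine ⟨?_, ?_⟩
        · intro hpy
          rcases nn_mn hy with hmn | hmn
          · rw [← hpy, ← hk1] at hmn
            exact hL.nm _ _ hme j 1 le_rfl (by omega) hmn
          · rw [← hpy, ← hk] at hmn
            exact hL.nm _ _ he₂ j (1 + 1) (by omega) (by omega) hmn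
        · intro w' h4 h5
          have he₃ : xi D a * D.ofG m * (xi D j)⁻¹ * xi D j ^ D.l j * (xi D a * xi D a)⁻¹ ∈ RE D :=
            mul_mem (mul_mem he₂ (zi_mem_RE D j)) (inv_mem (z_two ha))
          have hxa : xi D a = D.ofG (kk D a j) * xi D j := xi_of j a
          rw [pow_one] at h4 h5
          have h6 := ss hM hL he₃ (mul_mem hme (tt_mem j a)) hj3
            (k := (xi D a)⁻¹) (k' := 1) (P := D.ofG m * xi D j) (by
              have e1 : (xi D a)⁻¹ * (xi D a * D.ofG m * (xi D j)⁻¹ * xi D j ^ D.l j *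
                  (xi D a * xi D a)⁻¹) * xi D a = D.ofG m * xi D j ^ 2 * (xi D a)⁻¹ := by
                rw [hj4]
                group
              rw [e1, hxa, map_inv]
              group) (by
              rw [xi_of a j]
              group) h5 h4
          rcases h6 with h6 | h6
          · left
            rw [h6, pow_succ, pow_one, ← mul_assoc]
          · right
            rw [h6, mul_inv_cancel_right, Nat.sub_self, pow_zero, mul_one]
      by_cases hs1 : s = 1
      · subst hs1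
        refine ⟨?_, ?_⟩
        · rw [← hk]
          exact ne_ms hL he₂ (by omega) (by omega) (ms_two hy)
        · intro w' _ h4
          rw [← hk] at h4
          rcases h4 with h4 | h4
          · left
            rw [← hk]
            exact hL.tO _ _ he₂ j (1 + 1) (by omega) (by omega) _ h4
          · right
            rw [← hk]
            exact hL.tI _ _ he₂ j (1 + 1) (by omega) (by omega) _ h4
      · refine ⟨?_, ?_⟩
        · rw [← hk1]
          exact ne_ms hL hme (by omega) (by omega) (ms_one hy)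
        · intro w' h4 _
          rw [← hk1] at h4
          rcases h4 with h4 | h4
          · left
            rw [← hk1]
            exact hL.tO _ _ hme j s (by omega) (by omega) _ h4
          · right
            rw [← hk1]
            exact hL.tI _ _ hme j s (by omega) (by omega) _ h4)
    have h4 : D.ofG m * xi D j ^ (D.l j - 1) =
        D.ofG m * xi D j ^ D.l j * (xi D a)⁻¹ * D.ofG (kk D a j) := by
      obtain ⟨l', hl'⟩ : ∃ l', D.l j = l' + 1 := ⟨D.l j - 1, by omega⟩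
      rw [mul_assoc _ (xi D a)⁻¹, ← xi_inv, hl', Nat.add_sub_cancel, pow_succ]
      group
    refine close (D.ofG m * xi D j ^ D.l j * (xi D a)⁻¹) ?_ ?_
    · have h5 : D.ofG m * xi D j ^ D.l j * (xi D a)⁻¹ * (xi D a)⁻¹ =
          D.ofG m * xi D j ^ D.l j * (xi D a * xi D a)⁻¹ := by group
      rw [h5]
      exact mul_mem (mul_mem (r_M hm) (r_z j)) (inv_mem (r_zz ha))
    · have h5 : (AT D).dist (pt D (D.ofG m * xi D j ^ (D.l j - 1))) (pt D y) < n := h3
      rwa [h4, pt_mul_ofG] at h5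
  · -- incoming
    rw [hp1] at h
    obtain ⟨m, hm, j, hj, h1⟩ := hL.sI _ 1 (one_mem _) w h
    have h2 : w = pt D (D.ofG (m * kk D a j) * (xi D j)⁻¹) := by
      rw [h1, mul_one, inv_mul_cancel, one_mul, xi_inv_u, ← mul_assoc, pt_mul_ofG]
    by_cases hja : j = a
    · subst hja
      refine close _ ?_ (by rw [← h2]; omega)
      have h5 : D.ofG (m * kk D j j) * (xi D j)⁻¹ * (xi D j)⁻¹ =
          D.ofG m * (xi D j * xi D j)⁻¹ := by
        rw [kk, mul_inv_cancel, mul_one]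
        group
      rw [h5]
      exact mul_mem (r_M hm) (inv_mem (r_zz ha))
    have hj3 : 3 ≤ D.l j := by
      rcases hj with hj | hj
      · exact absurd hj hja
      · exact hj
    have hme : D.ofG (m * kk D a j) * (xi D j ^ D.l j)⁻¹ ∈ RE D := by
      rw [map_mul]
      exact mul_mem (mul_mem (ofG_mem_RE D (mm_h hm)) (kk_mem a j)) (inv_mem (zi_mem_RE D j))
    have hk1 : ∀ r s, r + s = D.l j → 1 * (D.ofG (m * kk D a j) * (xi D j ^ D.l j)⁻¹) *
        xi D j ^ r = D.ofG (m * kk D a j) * (xi D j ^ s)⁻¹ := fun r s hrs => by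
      rw [← hrs, pow_add]
      group
    -- the tile in the second graph
    have he₂ : xi D a * D.ofG (m * kk D a j) * xi D j * (xi D j ^ D.l j)⁻¹ ∈ RE D := by
      refine mul_mem ?_ (inv_mem (zi_mem_RE D j))
      have h5 : xi D a * D.ofG (m * kk D a j) * xi D j = xi D a * D.ofG m * (xi D a)⁻¹ *
          (xi D a * xi D a) := by
        rw [xi_of a j, kk, map_mul, map_mul, map_mul, map_inv, map_inv]
        group
      rw [h5]
      exact mul_mem (r_le (conj_mem ha (r_M hm))) (z_two ha)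
    have hk : ∀ r s, r + s + 1 = D.l j → (xi D a)⁻¹ *
        (xi D a * D.ofG (m * kk D a j) * xi D j * (xi D j ^ D.l j)⁻¹) * xi D j ^ r =
        D.ofG (m * kk D a j) * (xi D j ^ s)⁻¹ := fun r s hrs => by
      rw [← hrs, pow_succ', pow_add]
      group
    have h3 := hfin (fun s => pt D (D.ofG (m * kk D a j) * (xi D j ^ s)⁻¹)) j hj3 (by
      show pt D (D.ofG (m * kk D a j) * (xi D j ^ 0)⁻¹) = pt D 1
      rw [pow_zero, inv_one, mul_one, ← one_mul (D.ofG (m * kk D a j)), pt_mul_ofG]) (by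
      show pt D (D.ofG (m * kk D a j) * (xi D j ^ 1)⁻¹) = w
      rw [h2, pow_one]) (by
      intro s hs hs'
      show pt D (D.ofG (m * kk D a j) * (xi D j ^ s)⁻¹) ≠ pt D y ∧
        ∀ w, (TK D 1).Adj (pt D (D.ofG (m * kk D a j) * (xi D j ^ s)⁻¹)) w →
        (TK D (xi D a)⁻¹).Adj (pt D (D.ofG (m * kk D a j) * (xi D j ^ s)⁻¹)) w →
          w = pt D (D.ofG (m * kk D a j) * (xi D j ^ (s + 1))⁻¹) ∨
            w = pt D (D.ofG (m * kk D a j) * (xi D j ^ (s - 1))⁻¹)
      by_cases hj4 : D.l j = 3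
      · have hs1 : s = 1 := by omega
        subst hs1
        refine ⟨?_, ?_⟩
        · intro hpy
          rcases nn_mn hy with hmn | hmn
          · rw [← hpy, ← hk1 2 1 (by omega)] at hmn
            exact hL.nm _ _ hme j 2 (by omega) (by omega) hmn
          · rw [← hpy, ← hk 1 1 (by omega)] at hmn
            exact hL.nm _ _ he₂ j 1 le_rfl (by omega) hmn
        · intro w' h4 h5
          have he₃ : D.ofG (m * kk D a j) * (xi D a * xi D a)⁻¹ ∈ RE D := by
            rw [map_mul]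
            exact mul_mem (mul_mem (ofG_mem_RE D (mm_h hm)) (kk_mem a j)) (inv_mem (z_two ha))
          have he₄ : xi D a * D.ofG (m * kk D a j) * xi D j * (xi D j ^ D.l j)⁻¹ *
              D.ofG (D.t j * (D.t a)⁻¹) ∈ RE D := mul_mem he₂ (tt_mem j a)
          have hxa : xi D a = D.ofG (kk D a j) * xi D j := xi_of j a
          rw [pow_one] at h4 h5
          have h6 := ss hM hL he₃ he₄ hj3
            (k := 1) (k' := (xi D a)⁻¹) (P := D.ofG (m * kk D a j) * (xi D j)⁻¹) (by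
              rw [hxa, map_inv]
              group) (by
              have h7 : D.ofG (D.t j * (D.t a)⁻¹) * xi D a = xi D j := (xi_of a j).symm
              rw [mul_assoc (xi D a)⁻¹, mul_assoc (_ * (xi D j ^ D.l j)⁻¹), h7, hj4]
              group) h4 h5
          rcases h6 with h6 | h6
          · right
            rw [h6, inv_mul_cancel_right, Nat.sub_self, pow_zero, inv_one, mul_one]
          · left
            rw [h6, pow_succ, pow_one, mul_inv_rev, ← mul_assoc]
      by_cases hs1 : s = 1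
      · subst hs1
        refine ⟨?_, ?_⟩
        · rw [← hk (D.l j - 2) 1 (by omega)]
          exact ne_ms hL he₂ (by omega) (by omega) (ms_two hy)
        · intro w' _ h4
          rw [← hk (D.l j - 2) 1 (by omega)] at h4
          rcases h4 with h4 | h4
          · right
            rw [← hk (D.l j - 2 + 1) (1 - 1) (by omega)]
            exact hL.tO _ _ he₂ j (D.l j - 2) (by omega) (by omega) _ h4
          · left
            rw [← hk (D.l j - 2 - 1) (1 + 1) (by omega)]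
            exact hL.tI _ _ he₂ j (D.l j - 2) (by omega) (by omega) _ h4
      · refine ⟨?_, ?_⟩
        · rw [← hk1 (D.l j - s) s (by omega)]
          exact ne_ms hL hme (by omega) (by omega) (ms_one hy)
        · intro w' h4 _
          rw [← hk1 (D.l j - s) s (by omega)] at h4
          rcases h4 with h4 | h4
          · right
            rw [← hk1 (D.l j - s + 1) (s - 1) (by omega)]
            exact hL.tO _ _ hme j (D.l j - s) (by omega) (by omega) _ h4
          · left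
            rw [← hk1 (D.l j - s - 1) (s + 1) (by omega)]
            exact hL.tI _ _ hme j (D.l j - s) (by omega) (by omega) _ h4)
    refine close (D.ofG (m * kk D a j) * (xi D j ^ (D.l j - 1))⁻¹) ?_ h3
    obtain ⟨l', hl'⟩ : ∃ l', D.l j = l' + 1 := ⟨D.l j - 1, by omega⟩
    have h5 : D.ofG (m * kk D a j) * (xi D j ^ (D.l j - 1))⁻¹ * (xi D a)⁻¹ =
        D.ofG m * (D.ofG (kk D a j) * xi D j ^ D.l j * (D.ofG (kk D a j))⁻¹)⁻¹ := by
      have h6 : (xi D a)⁻¹ = (xi D j)⁻¹ * (D.ofG (kk D a j))⁻¹ := by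
        rw [← mul_inv_rev]
        congr 1
        exact xi_of j a
      rw [h6, hl', Nat.add_sub_cancel, pow_succ', map_mul]
      group
    rw [h5]
    exact mul_mem (r_M hm) (inv_mem (r_kz j))

end Pool.Agent.Lib.MP_551055_al.N6
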