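import Mathlib
import Pool.Agent.Lib.MP_551055_al.Trim.LS.Stmts
import Pool.Agent.Lib.MP_551055_al.Trim.MT.K1
import Pool.Agent.Lib.MP_551055_al.Trim.N4.O_17
import Pool.Agent.Lib.MP_551055_al.Trim.N4.Stmts
import Pool.Agent.Lib.MP_551055_al.Trim.N4.W_95
import Pool.Agent.Lib.MP_551055_al.Trim.N5.AW_95
import Pool.Agent.Lib.MP_551055_al.Trim.N5.Base_17
import Pool.Agent.Lib.MP_551055_al.Trim.N5.Stmts
import Pool.Agent.Lib.MP_551055_al.Trim.N5.StmtsK28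
import Pool.Agent.Lib.MP_551055_al.Trim.N5.StmtsV28
import Pool.Agent.Lib.MP_551055_al.Trim.N5.VA_42
import Pool.Agent.Lib.MP_551055_al.Trim.N5.VB_38
import Pool.Agent.Lib.MP_551055_al.Trim.N5.VL_95
import Pool.Agent.Lib.MP_551055_al.Trim.N5.VM_28
import Pool.Agent.Lib.MP_551055_al.Trim.N5.VP_54
import Pool.Agent.Lib.MP_551055_al.Trim.N5.W6_95
import Pool.Agent.Lib.MP_551055_al.Trim.N6.Words_17
import Pool.Agent.Lib.MP_551055_al.Trim.X.MP_e6f638_al.F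
import Pool.Agent.Lib.MP_551055_al.Trim.X.MP_e6f638_al.GDefs
import Pool.Agent.Lib.MP_551055_al.Trim.X.MP_e6f638_al.I1
import Pool.Agent.Lib.MP_551055_al.Trim.X.MP_e6f638_al.I2
import Pool.Agent.Lib.MP_551055_al.Trim.X.MP_e6f638_al.Stmts

/-!
# Module V16
-/

set_option autoImplicit false

namespace Pool.Agent.Lib.MP_551055_al
end Pool.Agent.Lib.MP_551055_al

namespace Pool.Agent.Lib.MP_e6f638_al
end Pool.Agent.Lib.MP_e6f638_al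

namespace Pool.Agent.Lib.MP_551055_al.N4
end Pool.Agent.Lib.MP_551055_al.N4

namespace Pool.Agent.Lib.MP_551055_al.N5
end Pool.Agent.Lib.MP_551055_al.N5

namespace Pool.Agent.Lib.MP_551055_al.N5K
end Pool.Agent.Lib.MP_551055_al.N5K

namespace Pool.Agent.Lib.MP_551055_al.N5V
end Pool.Agent.Lib.MP_551055_al.N5V

namespace Pool.Agent.Lib.MP_551055_al.N6

open Pool.Agent.Lib.MP_551055_al

open Pool.Agent.Lib.MP_e6f638_al (Dat EA gen par rho del IsDatOf IsAxis)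

open Pool.Agent.Lib.MP_551055_al.N4

open Pool.Agent.Lib.MP_551055_al.N5 (MM x_xi B_le tt_mem kk kk_mem)

open Pool.Agent.Lib.MP_551055_al.N5K (Wd Amal AmalW stAW)

open Pool.Agent.Lib.MP_551055_al.N5V

open Multiplicative

namespace V1

section

variable {A : Type} [Group A] {X : Bool → Subgroup A} {C : Subgroup A}

theorem wordA (hA : Amal X C) {s : Bool} {x g g' b₁ b₂ : A} (hx : x ∈ X s) (hxC : x ∉ C)
    (hg : g ∈ X (!s)) (hg' : g' ∈ X (!s)) (h₁ : b₁ ∈ X (!s)) (h₂ : b₂ ∈ X (!s))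
    (h : x * g * x * b₂ = b₁ * x * g' * x) (hgC : g ∉ C) (hgC' : g' ∉ C) :
    b₂ ∈ C ∧ x * b₂ * x⁻¹ ∈ C := by
  have W := stAW A X C hA
  have hxi : x⁻¹ ∈ X s := inv_mem hx
  have hxiC : x⁻¹ ∉ C := VB.inv_nC hxC
  have hgi : g'⁻¹ ∈ X (!s) := inv_mem hg'
  have hgiC : g'⁻¹ ∉ C := VB.inv_nC hgC'
  have heq : x * g * (x * b₂ * x⁻¹) * g'⁻¹ * x⁻¹ * b₁⁻¹ = 1 := by
    have h3 : x * g * (x * b₂ * x⁻¹) * g'⁻¹ * x⁻¹ * b₁⁻¹ =
        (x * g * x * b₂) * (b₁ * x * g' * x)⁻¹ := by group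
    rw [h3, h, mul_inv_cancel]
  have wg : Wd X C s (!s) (x * g) := W.mul s s (!s) x g (Wd.one s x hx hxC) (Wd.one (!s) g hg hgC)
  have key : ∀ {w : A}, Wd X C s s w → w * g'⁻¹ * x⁻¹ * b₁⁻¹ ≠ 1 := by
    intro w hw
    have w1 : Wd X C s (!s) (w * g'⁻¹) := W.mul s s (!s) _ _ hw (Wd.one (!s) _ hgi hgiC)
    exact VB.ne1 hA (VB.app hA w1 hxi hxiC) (inv_mem h₁)
  by_cases hb : b₂ ∈ C
  · refine ⟨hb, ?_⟩
    by_contra hC
    have h3 : x * b₂ * x⁻¹ ∈ X s := mul_mem (mul_mem hx (hA.le s hb)) hxi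
    exact key (VB.app hA wg h3 hC) heq
  · exfalso
    have w1 : Wd X C s s (x * g * (x * b₂ * x⁻¹)) := by
      refine W.mul s (!s) s _ _ wg ?_
      rw [Bool.not_not]
      exact VB.conj hA hx hxC h₂ hb
    exact key w1 heq

theorem wordB (hA : Amal X C) {s : Bool} {x g g' b₁ b₂ : A} (hx : x ∈ X s) (hxC : x ∉ C)
    (hg' : g' ∈ X (!s)) (h₁ : b₁ ∈ X (!s)) (h₂ : b₂ ∈ X (!s))
    (h : x * g * x * b₂ = b₁ * x * g' * x) (hgC : g ∈ C) : g' ∈ C := by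
  by_contra hgC'
  have W := stAW A X C hA
  have hxi : x⁻¹ ∈ X s := inv_mem hx
  have hxiC : x⁻¹ ∉ C := VB.inv_nC hxC
  have hgi : g'⁻¹ ∈ X (!s) := inv_mem hg'
  have hgiC : g'⁻¹ ∉ C := VB.inv_nC hgC'
  have hy : x * g * x ∈ X s := mul_mem (mul_mem hx (hA.le s hgC)) hx
  have heq : x * g * x * b₂ * x⁻¹ * g'⁻¹ * x⁻¹ * b₁⁻¹ = 1 := by
    have h3 : x * g * x * b₂ * x⁻¹ * g'⁻¹ * x⁻¹ * b₁⁻¹ =
        (x * g * x * b₂) * (b₁ * x * g' * x)⁻¹ := by group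
    rw [h3, h, mul_inv_cancel]
  have key : ∀ {s' : Bool} {w : A}, Wd X C s' s w → w * g'⁻¹ * x⁻¹ * b₁⁻¹ ≠ 1 := by
    intro s' w hw
    have w1 : Wd X C s' (!s) (w * g'⁻¹) := W.mul s' s (!s) _ _ hw (Wd.one (!s) _ hgi hgiC)
    exact VB.ne1 hA (VB.app hA w1 hxi hxiC) (inv_mem h₁)
  by_cases hb : b₂ ∈ C
  · have h3 : x * g * x * b₂ * x⁻¹ ∈ X s := mul_mem (mul_mem hy (hA.le s hb)) hxi
    by_cases hC : x * g * x * b₂ * x⁻¹ ∈ C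
    · have h4 : x * g * x * b₂ * x⁻¹ * g'⁻¹ ∈ X (!s) := mul_mem (hA.le _ hC) hgi
      have h5 : x * g * x * b₂ * x⁻¹ * g'⁻¹ ∉ C := fun hh => hgiC (by
        have h6 := mul_mem (inv_mem hC) hh
        rwa [inv_mul_cancel_left] at h6)
      exact VB.ne1 hA (VB.app hA (Wd.one (!s) _ h4 h5) hxi hxiC) (inv_mem h₁) heq
    · exact key (Wd.one s _ h3 hC) heq
  · by_cases hC : x * g * x ∈ C
    · have h4 : x * g * x * b₂ ∈ X (!s) := mul_mem (hA.le _ hC) h₂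
      have h5 : x * g * x * b₂ ∉ C := fun hh => hb (by
        have h6 := mul_mem (inv_mem hC) hh
        rwa [inv_mul_cancel_left] at h6)
      exact key (VB.app hA (Wd.one (!s) _ h4 h5) hxi hxiC) heq
    · have w1 : Wd X C s (!s) (x * g * x * b₂) :=
        W.mul s s (!s) _ _ (Wd.one s _ hy hC) (Wd.one (!s) _ h₂ hb)
      exact key (VB.app hA w1 hxi hxiC) heq

/-- The words of length four. -/
theorem word (hA : Amal X C) {s : Bool} {x g g' b₁ b₂ : A} (hx : x ∈ X s) (hxC : x ∉ C)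
    (hg : g ∈ X (!s)) (hg' : g' ∈ X (!s)) (h₁ : b₁ ∈ X (!s)) (h₂ : b₂ ∈ X (!s))
    (h : x * g * x * b₂ = b₁ * x * g' * x) :
    (g ∉ C → b₂ ∈ C ∧ b₁ ∈ C ∧ x * b₂ * x⁻¹ ∈ C ∧ x⁻¹ * b₁ * x ∈ C ∧ g' ∉ C) ∧
    (g ∈ C → x * g * x ∉ C → b₂ ∈ C ∧ b₁ ∈ C ∧ g' ∈ C) ∧
    (g ∈ C → x * g * x ∈ C → g' ∈ C ∧ x * g' * x ∈ C) := by
  have hxi : x⁻¹ ∈ X s := inv_mem hx
  have hxiC : x⁻¹ ∉ C := VB.inv_nC hxC
  have h' : x⁻¹ * g'⁻¹ * x⁻¹ * b₁⁻¹ = b₂⁻¹ * x⁻¹ * g⁻¹ * x⁻¹ := by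
    have h3 : x⁻¹ * g'⁻¹ * x⁻¹ * b₁⁻¹ = (b₁ * x * g' * x)⁻¹ := by group
    rw [h3, ← h]
    group
  refine ⟨fun hgC => ?_, fun hgC hy => ?_, fun hgC hy => ?_⟩
  · have hgC' : g' ∉ C := by
      intro hgC'
      have h4 := wordB hA hxi hxiC (inv_mem hg) (inv_mem h₂) (inv_mem h₁) h' (inv_mem hgC')
      exact hgC (inv_mem_iff.1 h4)
    obtain ⟨h4, h5⟩ := wordA hA hx hxC hg hg' h₁ h₂ h hgC hgC'
    obtain ⟨h6, h7⟩ := wordA hA hxi hxiC (inv_mem hg') (inv_mem hg) (inv_mem h₂) (inv_mem h₁) h'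
      (VB.inv_nC hgC') (VB.inv_nC hgC)
    refine ⟨h4, inv_mem_iff.1 h6, h5, ?_, hgC'⟩
    rw [← inv_mem_iff]
    have h8 : (x⁻¹ * b₁ * x)⁻¹ = x⁻¹ * b₁⁻¹ * (x⁻¹)⁻¹ := by group
    rw [h8]
    exact h7
  · have hgC' := wordB hA hx hxC hg' h₁ h₂ h hgC
    have W := stAW A X C hA
    have hyX : x * g * x ∈ X s := mul_mem (mul_mem hx (hA.le s hgC)) hx
    have hyX' : x * g' * x ∈ X s := mul_mem (mul_mem hx (hA.le s hgC')) hx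
    have hy' : x * g' * x ∉ C := by
      intro hC
      refine hy (VB.inter hA hyX ?_)
      have h3 : x * g * x = b₁ * (x * g' * x) * b₂⁻¹ := by
        rw [eq_mul_inv_iff_mul_eq, h]
        simp only [mul_assoc]
      rw [h3]
      exact mul_mem (mul_mem h₁ (hA.le _ hC)) (inv_mem h₂)
    have heq : x * g * x * b₂ * (x * g' * x)⁻¹ * b₁⁻¹ = 1 := by
      rw [h]
      group
    have hb₂ : b₂ ∈ C := by
      by_contra hb
      have w1 : Wd X C s (!s) (x * g * x * b₂) :=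
        W.mul s s (!s) _ _ (Wd.one s _ hyX hy) (Wd.one (!s) _ h₂ hb)
      exact VB.ne1 hA (VB.app hA w1 (inv_mem hyX') (VB.inv_nC hy')) (inv_mem h₁) heq
    refine ⟨hb₂, VB.inter hA ?_ h₁, hgC'⟩
    have h3 : b₁ = x * g * x * b₂ * (x * g' * x)⁻¹ := by
      rw [mul_inv_eq_one] at heq
      exact heq.symm
    rw [h3]
    exact mul_mem (mul_mem hyX (hA.le s hb₂)) (inv_mem hyX')
  · have hgC' := wordB hA hx hxC hg' h₁ h₂ h hgC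
    refine ⟨hgC', VB.inter hA (mul_mem (mul_mem hx (hA.le s hgC')) hx) ?_⟩
    have h3 : x * g' * x = b₁⁻¹ * (x * g * x) * b₂ := by
      rw [mul_assoc b₁⁻¹, h]
      group
    rw [h3]
    exact mul_mem (mul_mem (inv_mem h₁) (hA.le _ hy)) h₂

end

section

variable {G : Type} [Group G] {D : Dat G}

/-- `x θ u` in `E` -/
theorem odd_mem (hW : D.W) {θ : G} (h : D.x * D.ofG θ * D.u ∈ RE D) :
    ∃ j, D.l j = 2 ∧ θ * (D.t j)⁻¹ ∈ MM D := by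
  have hw : D.x * D.ofG θ * D.u = D.ofG D.t₀ * D.hprod [(1, θ), (1, 1)] := by
    unfold Dat.x
    simp [Dat.hprod, mul_assoc]
  have hred : D.HRed [((1 : ℤˣ), θ), (1, 1)] :=
    List.isChain_cons_cons.2 ⟨fun _ => rfl, List.isChain_singleton _⟩
  have hn : D.ofG D.t₀ * D.hprod [(1, θ), (1, 1)] ∉ D.ofG.range := by
    rintro ⟨k, hk⟩
    have h0 : D.HRed [] := List.isChain_nil
    have h1 := (W95.uniq D hred h0 (g := D.t₀) (g' := k)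
      (by rw [← hk]; simp [Dat.hprod])).1
    simp at h1
  rw [hw] at h
  obtain ⟨a, ha⟩ := VL.exists_idx h hn
  obtain ⟨g', κ, j, e, s, y', M', hκ, hN, he, hM', hsig, hg'⟩ :=
    N5.W6.not_G hW ha hred h (by simp)
  rw [N5.W6.lst_sgn] at hsig
  have hlen := congrArg List.length hsig
  simp only [List.map_cons, List.map_nil, List.length_cons, List.length_nil, List.length_append,
    List.length_replicate, List.length_map] at hlen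
  have hM0 : M' = [] := List.length_eq_zero_iff.1 (by omega)
  have hlj : D.l j = 2 := by
    rcases N5.W6.four D j with h4 | h4
    · exact h4
    · exact absurd hM0 (hM' h4)
  subst hM0
  rw [hlj] at hsig
  simp only [List.map_cons, List.map_nil, Nat.reduceSub, zero_add, List.replicate_one,
    List.append_nil, List.cons.injEq, and_true] at hsig
  obtain ⟨rfl, rfl⟩ : e = 1 ∧ s = 1 := ⟨hsig.1.symm, hsig.2.symm⟩
  rw [N5.W6.NN_pp] at hκ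
  have hlst : N5.W6.lst D κ j 1 1 y' [] =
      ((1 : ℤˣ), κ * D.t j ^ ((1 : ℤˣ) : ℤ)) :: [((1 : ℤˣ), y')] := by
    unfold N5.W6.lst
    rw [hlj]
    rfl
  rw [hlst] at he hN
  have h4 := W95.peel D hg' he
  have h5 := (W95.uniq D (List.isChain_cons.1 hred).2 (List.isChain_cons.1 hN).2 h4).2 (by simp)
  refine ⟨j, hlj, ?_⟩
  have h6 : θ * (D.t j)⁻¹ = ((D.t₀)⁻¹ * g') * κ *
      (D.t j * (θ⁻¹ * ((D.t₀)⁻¹ * g' * (κ * D.t j ^ ((1 : ℤˣ) : ℤ))))⁻¹ * (D.t j)⁻¹) := by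
    rw [Units.val_one, zpow_one]
    group
  rw [h6]
  exact mul_mem (mul_mem (B_le hg') hκ) (tt_mem hlj hlj (inv_mem h5))

/-- odd words -/
theorem exists_ow {θ : G} {j : D.ι} (hj : D.l j = 2) (h : θ * (D.t j)⁻¹ ∈ MM D) :
    ∃ β₀ ∈ D.B, ∃ β₁ ∈ D.B, ∃ i, D.l i = 2 ∧ ∃ L, VL.Rd D L ∧
      (∀ y ∈ L.head?, i = y.1 → ¬ Commute β₁ (D.t i)) ∧
      θ = β₀ * D.t i * VL.mw D (-1) β₁ L := by
  have h1 := VL.conj_MM hj h
  obtain ⟨b, hb, L, hL, h2⟩ := VL.exists_mw h1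
  have h3 : θ = D.t j * VL.mw D (-1) b L := by
    rw [← h2]
    group
  by_cases hc : ∀ y ∈ L.head?, j = y.1 → ¬ Commute b (D.t j)
  · exact ⟨1, one_mem _, b, hb, j, hj, L, hL, hc, by rw [one_mul]; exact h3⟩
  · push Not at hc
    obtain ⟨y, hy, hjy, hcomm⟩ := hc
    rcases L with _ | ⟨y', L⟩
    · simp at hy
    obtain rfl : y' = y := by simpa using hy
    obtain ⟨i', c', j', b'⟩ := y'
    obtain ⟨hi', hj', hc', hb', h4⟩ := hL.1 _ List.mem_cons_self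
    simp only at hjy hi' hj' hc' hb' h4
    subst hjy
    refine ⟨b * c', mul_mem hb hc', b', hb', j', hj', L, hL.tail,
      (List.isChain_cons.1 hL.2).1, ?_⟩
    rw [h3, VL.mw_cons]
    simp only [Units.val_neg, Units.val_one, zpow_neg, zpow_one, inv_inv]
    calc D.t j * (b * ((D.t j)⁻¹ * c' * D.t j' * VL.mw D (-1) b' L))
        = (D.t j * b) * (D.t j)⁻¹ * c' * D.t j' * VL.mw D (-1) b' L := by
          simp only [mul_assoc]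
      _ = _ := by rw [← hcomm.eq]; group

/-- The image of an odd word. -/
theorem odd_img (hV : VC D) {θ : G} {e : D.E} (he : D.phi e = D.x * D.ofG θ * D.u) {p : ℤ}
    (hp : p ≠ 0) {g₁ g₂ g₃ : G}
    (h : D.phi (tp D p e) = D.ofG g₁ * D.u * D.ofG g₂ * D.u * D.ofG g₃) :
    ∃ i, D.l i = 2 ∧ ∃ β₀ ∈ D.B, ∃ β₁ ∈ D.B, ∃ γ₀ ∈ D.B, ∃ γ₁ ∈ D.B,
      g₁ = D.t₀ ^ (p + 1) * β₀ * (D.t i ^ p)⁻¹ * γ₀ ∧ g₂ = γ₀⁻¹ * D.t i * γ₁ ∧
      g₃ = γ₁⁻¹ * D.t i ^ p * β₁ * (D.t₀ ^ p)⁻¹ := by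
  have hinj := phi_inj hV.w
  have hmem : D.x * D.ofG θ * D.u ∈ RE D := ⟨e, he⟩
  obtain ⟨j, hj, hθ⟩ := odd_mem hV.w hmem
  obtain ⟨β₀, hβ₀, β₁, hβ₁, i, hi, L, hL, hhead, hθ2⟩ := exists_ow hj hθ
  obtain ⟨e₂, h1, h2⟩ := (VL.base_neg (D := D) p).word L hL β₁ hβ₁
  have hm : D.t₀ * β₀ * (D.t i)⁻¹ ∈ D.h.ker := by
    rw [MonoidHom.mem_ker, map_mul, map_mul, map_inv, D.h_t, D.h_t₀, D.h_B β₀ hβ₀, mul_one,
      mul_inv_cancel]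
  have hub : D.u * D.ofG β₀ = D.ofG β₀ * D.u := (D.commute_u hβ₀).symm.eq
  have hee : e = D.inE ⟨_, hm⟩ * D.z i * e₂ := by
    apply hinj
    rw [he, map_mul, map_mul, D.isPhi_phi.1, VL.phi_z hi, h1, hθ2, Dat.x, VL.U]
    simp only [map_mul, map_inv, inv_inv]
    calc D.ofG D.t₀ * D.u * (D.ofG β₀ * D.ofG (D.t i) * D.ofG (VL.mw D (-1) β₁ L)) * D.u
        = D.ofG D.t₀ * (D.u * D.ofG β₀) * D.ofG (D.t i) * D.ofG (VL.mw D (-1) β₁ L) * D.u := by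
          simp only [mul_assoc]
      _ = _ := by rw [hub]; group
  have hkey : D.phi (tp D p e) = D.ofG (D.t₀ ^ (p + 1) * β₀ * (D.t i ^ p)⁻¹) * VL.U D i *
      D.ofG (D.t i ^ p) * (VL.ww D (-1) p β₁ L * D.ofG (D.t₀ ^ p)⁻¹) := by
    have h0 : D.phi (tp D p (D.inE ⟨_, hm⟩ * D.z i * e₂)) = D.phi (tp D p (D.inE ⟨_, hm⟩)) *
        D.phi (tp D p (D.z i)) * D.phi (tp D p e₂) := by
      simp only [map_mul]
    rw [hee, h0, VL.phi_tp_inE, VL.phi_tp_z p hi, h2]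
    have h3 : D.t₀ ^ p * (D.t₀ * β₀ * (D.t i)⁻¹) * (D.t₀ ^ p)⁻¹ *
        (D.t₀ ^ p * (D.t i ^ p)⁻¹ * D.t i) = D.t₀ ^ (p + 1) * β₀ * (D.t i ^ p)⁻¹ := by
      have h4 : (D.t i)⁻¹ * (D.t i ^ p)⁻¹ * D.t i = (D.t i ^ p)⁻¹ := by
        rw [← mul_inv_rev, ← zpow_add_one, add_comm, zpow_one_add, mul_inv_rev,
          inv_mul_cancel_right]
      calc _ = D.t₀ ^ p * D.t₀ * β₀ * ((D.t i)⁻¹ * (D.t i ^ p)⁻¹ * D.t i) := by group
        _ = _ := by rw [h4, zpow_add_one]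
    rw [← h3]
    simp only [map_mul, map_inv]
    group
  rw [h] at hkey
  have hr : D.ofG g₁ * D.u * D.ofG g₂ * D.u * D.ofG g₃ =
      D.ofG g₁ * D.hprod [(1, g₂), (1, g₃)] := by
    simp [Dat.hprod, mul_assoc]
  have hred : D.HRed [((1 : ℤˣ), g₂), (1, g₃)] :=
    List.isChain_cons_cons.2 ⟨fun _ => rfl, List.isChain_singleton _⟩
  rw [hr] at hkey
  rcases L with _ | ⟨y, L⟩
  · rw [VL.ww_nil] at hkey
    have h3 : D.ofG (D.t₀ ^ (p + 1) * β₀ * (D.t i ^ p)⁻¹) * VL.U D i *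
        D.ofG (D.t i ^ p) * (D.ofG β₁ * D.ofG (D.t₀ ^ p)⁻¹) =
        D.ofG (D.t₀ ^ (p + 1) * β₀ * (D.t i ^ p)⁻¹) *
          D.hprod [(1, D.t i), (1, D.t i ^ p * β₁ * (D.t₀ ^ p)⁻¹)] := by
      rw [D.hprod_cons, D.hprod_cons]
      simp only [Dat.hprod, List.map_nil, List.prod_nil, mul_one, VL.U, Units.val_one, zpow_one,
        map_mul, mul_assoc]
    rw [h3] at hkey
    have hred2 : D.HRed [((1 : ℤˣ), D.t i), (1, D.t i ^ p * β₁ * (D.t₀ ^ p)⁻¹)] :=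
      List.isChain_cons_cons.2 ⟨fun _ => rfl, List.isChain_singleton _⟩
    have k1 := (W95.uniq D hred2 hred hkey.symm).2 (by simp)
    have k2 := W95.peel D k1 hkey.symm
    have k3 := (W95.uniq D (List.isChain_cons.1 hred2).2 (List.isChain_cons.1 hred).2 k2).2
      (by simp)
    have k4 := W95.peel D k3 k2
    have k5 : D.t i ^ p * β₁ * (D.t₀ ^ p)⁻¹ = (D.t i)⁻¹ * ((D.t₀ ^ (p + 1) * β₀ *
        (D.t i ^ p)⁻¹)⁻¹ * g₁ * g₂) * g₃ := by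
      refine HNNExtension.of_injective (φ := MulEquiv.refl D.B) ?_
      simpa [Dat.hprod] using k4
    refine ⟨i, hi, β₀, hβ₀, β₁, hβ₁, _, k1, _, k3, ?_, ?_, ?_⟩
    · group
    · group
    · have k6 : ((D.t i)⁻¹ * ((D.t₀ ^ (p + 1) * β₀ * (D.t i ^ p)⁻¹)⁻¹ * g₁ * g₂))⁻¹ *
          (D.t i ^ p * β₁ * (D.t₀ ^ p)⁻¹) = g₃ := by
        rw [k5, inv_mul_cancel_left]
      rw [← k6]
      simp only [mul_assoc]
  · exfalso
    obtain ⟨l, hl1, hl2, hl3⟩ := VL.exists_word hV (-1) hp L y hL β₁ (D.t₀ ^ p)⁻¹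
    rw [hl3] at hkey
    have h3 : D.ofG (D.t₀ ^ (p + 1) * β₀ * (D.t i ^ p)⁻¹) * VL.U D i *
        D.ofG (D.t i ^ p) * (D.ofG (β₁ * (D.t y.1 ^ p)⁻¹) *
          D.hprod ((-1, D.t y.1 ^ ((-1 : ℤˣ) : ℤ)) :: l)) =
        D.ofG (D.t₀ ^ (p + 1) * β₀ * (D.t i ^ p)⁻¹) *
          D.hprod ((1, D.t i) :: (1, D.t i ^ p * β₁ * (D.t y.1 ^ p)⁻¹) ::
            (-1, D.t y.1 ^ ((-1 : ℤˣ) : ℤ)) :: l) := by
      rw [D.hprod_cons 1, D.hprod_cons 1]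
      simp only [VL.U, Units.val_one, zpow_one, map_mul, map_inv, mul_assoc]
    rw [h3] at hkey
    have hred2 : D.HRed ((1, D.t i) :: (1, D.t i ^ p * β₁ * (D.t y.1 ^ p)⁻¹) ::
        (-1, D.t y.1 ^ ((-1 : ℤˣ) : ℤ)) :: l) := by
      refine List.isChain_cons_cons.2 ⟨fun _ => rfl, List.isChain_cons_cons.2 ⟨fun hB => ?_,
        hl1⟩⟩
      exact absurd hB (VL.not_B hV hp hi hβ₁ (hhead y (by simp)))
    have k1 := congrArg List.length (W95.uniq D hred2 hred hkey.symm).1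
    simp only [List.map_cons, List.map_nil, List.length_cons, List.length_nil,
      List.length_map] at k1
    omega

/-- The equation in `Ah`. -/
theorem ah1 {θ θ' b₁ b₂ : G}
    (h : D.u * D.ofG θ * D.u * D.ofG b₂ = D.ofG b₁ * D.u * D.ofG θ' * D.u) : b₁ ∈ D.B := by
  have h1 : D.HRed [((1 : ℤˣ), θ), (1, b₂)] :=
    List.isChain_cons_cons.2 ⟨fun _ => rfl, List.isChain_singleton _⟩
  have h2 : D.HRed [((1 : ℤˣ), θ'), (1, 1)] :=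
    List.isChain_cons_cons.2 ⟨fun _ => rfl, List.isChain_singleton _⟩
  have h3 := (W95.uniq D h1 h2 (g := 1) (g' := b₁) (by
    simpa [Dat.hprod, mul_assoc] using h)).2 (by simp)
  simpa using h3

theorem conj2 (hφ : D.IsPhi D.phi) (hinj : Function.Injective D.phi) {θ : G}
    (hg : D.h (θ * D.t₀⁻¹) = 1) (hx : D.oQ hφ hinj D.xQ * D.psiG hφ hinj (θ * D.t₀⁻¹) *
      D.oQ hφ hinj D.xQ ∈ CO hφ hinj) :
    ∃ e, D.phi e = D.x * D.ofG θ * D.u ∧ D.oQ hφ hinj (D.phiQ hφ e) =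
      D.oQ hφ hinj D.xQ * D.psiG hφ hinj (θ * D.t₀⁻¹) * D.oQ hφ hinj D.xQ := by
  obtain ⟨_, ⟨e, rfl⟩, h⟩ := hx
  refine ⟨e, ?_, h⟩
  rw [D.psiG_of_one hφ hinj hg, ← map_mul, ← map_mul] at h
  have h1 := congrArg Subtype.val (oQ_inj D hφ hinj h)
  rw [D.phiQ_coe] at h1
  rw [h1]
  change D.x * D.phi (D.inE ⟨θ * D.t₀⁻¹, hg⟩) * D.x = _
  rw [hφ.1]
  simp only [Dat.x, map_mul, map_inv]
  group

theorem allOne (hφ : D.IsPhi D.phi) (hinj : Function.Injective D.phi) {θ θ' b₁ b₂ : G}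
    (h₁ : D.h (θ * D.t₀⁻¹) = 1) (h₂ : D.h (θ' * D.t₀⁻¹) = 1) (hb₁ : D.h b₁ = 1)
    (hb₂ : D.h b₂ = 1)
    (H : D.oQ hφ hinj D.xQ * D.psiG hφ hinj (θ * D.t₀⁻¹) * D.oQ hφ hinj D.xQ *
      D.psiG hφ hinj b₂ = D.psiG hφ hinj (D.t₀ * b₁ * D.t₀⁻¹) * D.oQ hφ hinj D.xQ *
      D.psiG hφ hinj (θ' * D.t₀⁻¹) * D.oQ hφ hinj D.xQ) : b₁ ∈ D.B := by
  have hk : D.h (D.t₀ * b₁ * D.t₀⁻¹) = 1 := by
    rw [map_mul, map_mul, hb₁, mul_one, ← map_mul, mul_inv_cancel, map_one]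
  rw [D.psiG_of_one hφ hinj h₁, D.psiG_of_one hφ hinj h₂, D.psiG_of_one hφ hinj hk,
    D.psiG_of_one hφ hinj hb₂] at H
  simp only [← map_mul] at H
  have h1 := congrArg Subtype.val (oQ_inj D hφ hinj H)
  have h2 : D.x * D.phi (D.inE ⟨θ * D.t₀⁻¹, h₁⟩) * D.x * D.phi (D.inE ⟨b₂, hb₂⟩) =
      D.phi (D.inE ⟨D.t₀ * b₁ * D.t₀⁻¹, hk⟩) * D.x * D.phi (D.inE ⟨θ' * D.t₀⁻¹, h₂⟩) * D.x := h1
  simp only [hφ.1, Dat.x, map_mul, map_inv] at h2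
  refine ah1 (D := D) (θ := θ) (θ' := θ') (b₂ := b₂) ?_
  have h3 : D.u * D.ofG θ * D.u * D.ofG b₂ = (D.ofG D.t₀)⁻¹ * (D.ofG D.t₀ * D.u *
      (D.ofG θ * (D.ofG D.t₀)⁻¹) * (D.ofG D.t₀ * D.u) * D.ofG b₂) := by group
  rw [h3, h2]
  group

theorem caseA (hV : VC D) {g g' b₁ b₂ : G} (hφ : D.IsPhi D.phi)
    (hinj : Function.Injective D.phi) (hp : D.h g ≠ 1) {e₁ e₂ : D.E}
    (he₁ : D.phi e₁ = (D.u)⁻¹ * D.ofG b₁ * D.u) (he₂ : D.phi e₂ = D.x * D.ofG b₂ * (D.x)⁻¹)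
    (h : D.psiG hφ hinj g * D.oQ hφ hinj (D.phiQ hφ e₂) =
      D.oQ hφ hinj (D.phiQ hφ e₁) * D.psiG hφ hinj g') : b₁ ∈ D.B := by
  have hh := congrArg (hO hφ hinj) h
  simp only [map_mul, hO_psiG, hO_oQ, mul_one, one_mul] at hh
  set n := toAdd (D.h g) with hn
  have hn0 : n ≠ 0 := fun h => hp (toAdd_eq_zero.1 h)
  have hm : toAdd (D.h g') = n := by rw [hn, hh]
  have h1 : D.inE (D.kp g) * tp D n e₂ = e₁ * D.inE (D.kp g') := by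
    refine D.phiQ_inj hφ hinj (oQ_inj D hφ hinj ?_)
    refine mul_right_cancel (b := D.T hφ hinj ^ n) ?_
    rw [psiG_eq, psiG_eq, hm, ← hn] at h
    simp only [map_mul]
    rw [mul_assoc, ← T_zpow hφ hinj n e₂, ← mul_assoc, h]
    simp only [mul_assoc]
  have h2 : D.phi (tp D n e₂) = D.ofG ((D.kp g : G))⁻¹ * D.u ^ ((-1 : ℤˣ) : ℤ) * D.ofG b₁ *
      D.u ^ ((- -1 : ℤˣ) : ℤ) * D.ofG (D.kp g' : G) := by
    have h3 := congrArg D.phi h1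
    rw [map_mul, map_mul, hφ.1, hφ.1, he₁] at h3
    rw [neg_neg, Units.val_neg, Units.val_one, zpow_neg, zpow_one, map_inv]
    have h4 : D.phi (tp D n e₂) = (D.ofG (D.kp g : G))⁻¹ *
        (D.ofG (D.kp g : G) * D.phi (tp D n e₂)) := by group
    rw [h4, h3]
    simp only [mul_assoc]
  by_cases hb₂ : b₂ ∈ D.B
  · have hk : D.h (D.t₀ * b₂ * D.t₀⁻¹) = 1 := by
      rw [map_mul, map_mul, D.h_B b₂ hb₂, mul_one, ← map_mul, mul_inv_cancel, map_one]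
    have hub : D.u * D.ofG b₂ = D.ofG b₂ * D.u := (D.commute_u hb₂).symm.eq
    have h3 : e₂ = D.inE ⟨D.t₀ * b₂ * D.t₀⁻¹, hk⟩ := by
      apply hinj
      rw [he₂, hφ.1]
      change _ = D.ofG (D.t₀ * b₂ * D.t₀⁻¹)
      simp only [Dat.x, map_mul, map_inv]
      calc D.ofG D.t₀ * D.u * D.ofG b₂ * (D.ofG D.t₀ * D.u)⁻¹
          = D.ofG D.t₀ * (D.u * D.ofG b₂) * (D.u)⁻¹ * (D.ofG D.t₀)⁻¹ := by group
        _ = _ := by rw [hub]; group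
    obtain ⟨a', ha'⟩ := tp_inE hφ hinj n ⟨D.t₀ * b₂ * D.t₀⁻¹, hk⟩
    rw [h3, ha', hφ.1] at h2
    refine conj_ofG' (D := D) (g' := (D.kp g : G) * a' * (D.kp g' : G)⁻¹) ?_
    rw [neg_neg, Units.val_neg, Units.val_one, zpow_neg, zpow_one, map_inv] at h2
    simp only [map_mul, map_inv]
    rw [h2]
    group
  · exfalso
    have h3 : D.x * D.ofG b₂ * (D.x)⁻¹ ∈ RE D := ⟨e₂, he₂⟩
    have hw : D.x * D.ofG b₂ * (D.x)⁻¹ = D.ofG D.t₀ * D.hprod [(1, b₂), (-1, (D.t₀)⁻¹)] := by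
      unfold Dat.x
      simp [Dat.hprod, mul_assoc]
    obtain ⟨a, -⟩ := VL.exists_idx h3 (by rw [hw]; exact VL.not_range hb₂ 1 _ _)
    have h4 : b₂ ∈ VL.MS D 1 := VL.MM_le (N5.W6.cSx hV.w a b₂ h3)
    exact VL.main hV hn0 (VL.base_pos n) h4 hb₂ he₂ (-1) _ _ _ h2

theorem caseC (hV : VC D) {θ θ' b₁ b₂ : G} (hφ : D.IsPhi D.phi)
    (hinj : Function.Injective D.phi) (hp : D.h b₁ ≠ 1) {e e' : D.E}
    (he : D.phi e = D.x * D.ofG θ * D.u) (he' : D.phi e' = D.x * D.ofG θ' * D.u)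
    (h : D.oQ hφ hinj (D.phiQ hφ e) * D.psiG hφ hinj b₂ =
      D.psiG hφ hinj (D.t₀ * b₁ * D.t₀⁻¹) * D.oQ hφ hinj (D.phiQ hφ e')) :
    ∃ k, D.l k = 2 ∧ ∃ β₀ ∈ D.B, ∃ β₁ ∈ D.B, ∃ γ₀ ∈ D.B, ∃ γ₁ ∈ D.B, ∃ m : ℤ, m ≠ 0 ∧
      θ = β₀ * D.t k * β₁ ∧ b₁ = β₀ * D.t k ^ m * γ₀ ∧ b₂ = β₁⁻¹ * D.t k ^ m * γ₁ := by
  have hc : D.h (D.t₀ * b₁ * D.t₀⁻¹) = D.h b₁ := by
    rw [map_mul, map_mul, map_inv, mul_comm (D.h D.t₀), mul_inv_cancel_right]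
  obtain ⟨c, hcd⟩ : ∃ c, c = D.t₀ * b₁ * D.t₀⁻¹ := ⟨_, rfl⟩
  rw [← hcd] at h hc
  have hh := congrArg (hO hφ hinj) h
  simp only [map_mul, hO_psiG, hO_oQ, mul_one, one_mul, hc] at hh
  set n := toAdd (D.h b₁) with hn
  have hn0 : n ≠ 0 := fun h => hp (toAdd_eq_zero.1 h)
  have hm : toAdd (D.h b₂) = n := by rw [hn, hh]
  have h1 : e * D.inE (D.kp b₂) = D.inE (D.kp c) * tp D n e' := by
    refine D.phiQ_inj hφ hinj (oQ_inj D hφ hinj ?_)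
    refine mul_right_cancel (b := D.T hφ hinj ^ n) ?_
    rw [psiG_eq, psiG_eq, hc, hm, ← hn] at h
    simp only [map_mul]
    rw [mul_assoc (D.oQ hφ hinj (D.phiQ hφ (D.inE (D.kp c)))), ← T_zpow hφ hinj n e',
      ← mul_assoc, ← h]
    simp only [mul_assoc]
  have h2 : D.phi (tp D n e') = D.ofG ((D.kp c : G)⁻¹ * D.t₀) * D.u * D.ofG θ * D.u *
      D.ofG (D.kp b₂ : G) := by
    have h3 := congrArg D.phi h1
    rw [map_mul, map_mul, hφ.1, hφ.1, he] at h3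
    have h4 : D.phi (tp D n e') = (D.ofG (D.kp c : G))⁻¹ *
        (D.ofG (D.kp c : G) * D.phi (tp D n e')) := by group
    rw [h4, ← h3]
    simp only [map_inv, map_mul, Dat.x, mul_assoc]
  obtain ⟨k, hk, β₀, hβ₀, β₁, hβ₁, γ₀, hγ₀, γ₁, hγ₁, k1, k2, k3⟩ := odd_img hV he' hn0 h2
  have hkc : (D.kp c : G) = c * D.t₀ ^ (-n) := by
    change c * D.t₀ ^ (-toAdd (D.h c)) = _
    rw [hc]
  have hkb : (D.kp b₂ : G) = b₂ * D.t₀ ^ (-n) := by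
    change b₂ * D.t₀ ^ (-toAdd (D.h b₂)) = _
    rw [hm]
  rw [hkc, hcd] at k1
  rw [hkb] at k3
  refine ⟨k, hk, γ₀⁻¹, inv_mem hγ₀, γ₁, hγ₁, β₀⁻¹, inv_mem hβ₀, β₁, hβ₁, n, hn0, k2, ?_, ?_⟩
  · have h5 : b₁ = ((D.t₀ * b₁ * D.t₀⁻¹ * D.t₀ ^ (-n))⁻¹ * D.t₀)⁻¹ * D.t₀ ^ (n + 1) := by
      have h6 : D.t₀ ^ n * D.t₀ = D.t₀ * D.t₀ ^ n := (Commute.refl _).zpow_left n
      rw [zpow_add_one, zpow_neg, h6]
      group
    rw [h5, k1]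
    group
  · have h5 : b₂ = b₂ * D.t₀ ^ (-n) * D.t₀ ^ n := by group
    rw [h5, k3]
    group

/-- The theorem for the extension. -/
theorem main (hV : VC D) {A : Type} [Group A] {i : G →* A} {v : A} (hE : D.IsExt A i v)
    {θ θ' b₁ b₂ : G} (h : v * i θ * v * i b₂ = i b₁ * v * i θ' * v) (hb : b₁ ∉ D.B) :
    ∃ k, D.l k = 2 ∧ ∃ β₀ ∈ D.B, ∃ β₁ ∈ D.B, ∃ γ₀ ∈ D.B, ∃ γ₁ ∈ D.B, ∃ m : ℤ, m ≠ 0 ∧
      θ = β₀ * D.t k * β₁ ∧ b₁ = β₀ * D.t k ^ m * γ₀ ∧ b₂ = β₁⁻¹ * D.t k ^ m * γ₁ := by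
  have hφ := D.isPhi_phi
  have hinj : Function.Injective D.phi := phi_inj hV.w
  obtain ⟨ψ, hψ1, hψ2, hψ⟩ := D.exists_psi hφ hinj hE
  have hψi : ∀ g, ψ (i g) = D.psiG hφ hinj g := fun g => DFunLike.congr_fun hψ1 g
  have hT := D.psiG_t₀ hφ hinj
  have H : D.oQ hφ hinj D.xQ * D.psiG hφ hinj (θ * D.t₀⁻¹) * D.oQ hφ hinj D.xQ *
      D.psiG hφ hinj b₂ = D.psiG hφ hinj (D.t₀ * b₁ * D.t₀⁻¹) * D.oQ hφ hinj D.xQ *
      D.psiG hφ hinj (θ' * D.t₀⁻¹) * D.oQ hφ hinj D.xQ := by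
    have h1 := congrArg ψ h
    simp only [map_mul, hψi, hψ2, Dat.psiv] at h1
    simp only [map_mul, map_inv, hT]
    calc _ = D.T hφ hinj * ((D.T hφ hinj)⁻¹ * D.oQ hφ hinj D.xQ * D.psiG hφ hinj θ *
          ((D.T hφ hinj)⁻¹ * D.oQ hφ hinj D.xQ) * D.psiG hφ hinj b₂) := by group
      _ = _ := by rw [h1]; group
  have hX : D.oQ hφ hinj D.xQ ∉ CO hφ hinj := by
    rw [mem_CO]
    exact x_not hV.w
  have hc : D.h (D.t₀ * b₁ * D.t₀⁻¹) = D.h b₁ := by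
    rw [map_mul, map_mul, map_inv, mul_comm (D.h D.t₀), mul_inv_cancel_right]
  obtain ⟨w1, w2, w3⟩ := word (stVA _ (D.phiQ hφ).range (D.tauQ hφ hinj)) (s := false)
    (oQ_XA hφ hinj D.xQ) hX (psiG_XA hφ hinj (θ * D.t₀⁻¹)) (psiG_XA hφ hinj (θ' * D.t₀⁻¹))
    (psiG_XA hφ hinj (D.t₀ * b₁ * D.t₀⁻¹)) (psiG_XA hφ hinj b₂) H
  by_cases k1 : D.h (θ * D.t₀⁻¹) = 1
  · by_cases k2 : D.oQ hφ hinj D.xQ * D.psiG hφ hinj (θ * D.t₀⁻¹) * D.oQ hφ hinj D.xQ ∈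
        CO hφ hinj
    · obtain ⟨k3, k4⟩ := w3 ((psiG_CO hφ hinj _).2 k1) k2
      have k3' := (psiG_CO hφ hinj _).1 k3
      by_cases k5 : D.h b₁ = 1
      · exfalso
        have hh := congrArg (hO hφ hinj) H
        simp only [map_mul (hO hφ hinj), hO_psiG, hO_oQ, mul_one, one_mul, hc, k1, k3', k5] at hh
        exact hb (allOne hφ hinj k1 k3' k5 hh H)
      · obtain ⟨e, he, he2⟩ := conj2 hφ hinj k1 k2
        obtain ⟨e', he', he2'⟩ := conj2 hφ hinj k3' k4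
        refine caseC hV hφ hinj k5 he he' ?_
        rw [he2, he2', H]
        simp only [mul_assoc]
    · exfalso
      obtain ⟨k3, k4, k5⟩ := w2 ((psiG_CO hφ hinj _).2 k1) k2
      refine hb (allOne hφ hinj k1 ((psiG_CO hφ hinj _).1 k5) ?_ ((psiG_CO hφ hinj _).1 k3) H)
      rw [← hc]
      exact (psiG_CO hφ hinj _).1 k4
  · exfalso
    obtain ⟨k3, k4, k5, k6, k7⟩ := w1 (fun h => k1 ((psiG_CO hφ hinj _).1 h))
    have k4' := (psiG_CO hφ hinj _).1 k4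
    rw [hc] at k4'
    obtain ⟨e₁, he₁, he1⟩ := conj1 hφ hinj (b := b₁) k4' k6
    obtain ⟨e₂, he₂, he2⟩ := conj3 hφ hinj ((psiG_CO hφ hinj _).1 k3) k5
    refine hb (caseA hV (g := θ * D.t₀⁻¹) (g' := θ' * D.t₀⁻¹) hφ hinj k1 he₁ he₂ ?_)
    rw [he1, he2]
    calc _ = (D.oQ hφ hinj D.xQ)⁻¹ * (D.oQ hφ hinj D.xQ * D.psiG hφ hinj (θ * D.t₀⁻¹) *
          D.oQ hφ hinj D.xQ * D.psiG hφ hinj b₂) * (D.oQ hφ hinj D.xQ)⁻¹ := by group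
      _ = _ := by rw [H]; group

end

end V1

/-- Module V16. -/
theorem stV16 : StV16 := by
  intro S _ l hadm t b₁ hb₁ b₂ hb₂ θ hθ θ' hθ' h hb
  by_cases hex : ∃ s : {x : S // x ≠ t}, l t s ≠ 1
  · obtain ⟨D, hD, i, hi, hinj, hA⟩ := Pool.Agent.Lib.MP_e6f638_al.stI2 S l hadm.symm t hex
    have hV : VC D := stVP S l hadm.symm hadm.no t D hD
    have hlift : ∀ y ∈ par l {t}ᶜ, ∃ g, i g = y := by
      intro y hy
      have h1 : par l {t}ᶜ ≤ i.range := by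
        rw [par, Subgroup.closure_le]
        rintro x ⟨s, hs, rfl⟩
        exact ⟨_, hi ⟨s, hs⟩⟩
      exact h1 hy
    have hBi : ∀ b ∈ D.B, i b ∈ par l (ZZ l t) := by
      intro b hb
      have h1 : D.B ≤ (par l (ZZ l t)).comap i := by
        rw [hD.B, par, Subgroup.closure_le]
        rintro x ⟨s, hs, rfl⟩
        change i _ ∈ par l (ZZ l t)
        rw [hi]
        exact Subgroup.subset_closure ⟨s, ⟨s.2, hs⟩, rfl⟩
      exact h1 hb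
    obtain ⟨b₁, rfl⟩ := hlift b₁ hb₁
    obtain ⟨b₂, rfl⟩ := hlift b₂ hb₂
    obtain ⟨θ, rfl⟩ := hlift θ hθ
    obtain ⟨θ', rfl⟩ := hlift θ' hθ'
    obtain ⟨k, hk, β₀, h0, β₁, h1, γ₀, h2, γ₁, h3, m, hm, e1, e2, e3⟩ :=
      V1.main hV hA h (fun hh => hb (hBi _ hh))
    obtain ⟨s, hs, hls⟩ := hD.t k
    have hc : (s : S) ∉ ZZ l t := by
      rintro ⟨-, h4⟩
      omega
    have hrc : rho l (ZZ l t) (gen l s) = 1 := Pool.Agent.Lib.MP_e6f638_al.rho_not_mem l hc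
    have hr : ∀ b ∈ D.B, rho l (ZZ l t) (i b) = i b := fun b hb =>
      Pool.Agent.Lib.MP_e6f638_al.rho_par l (hBi b hb)
    refine ⟨s, s.2, by rw [hls, hk], i β₀, hBi _ h0, i β₁, hBi _ h1, m, hm, ?_, ?_, ?_⟩
    · rw [e1, map_mul, map_mul, hs, hi]
    · rw [e2, hs]
      simp only [map_mul, map_zpow, hi, hrc, one_zpow, mul_one, hr β₀ h0, hr γ₀ h2]
      group
    · rw [e3, hs]
      simp only [map_mul, map_inv, map_zpow, hi, hrc, one_zpow, mul_one, hr β₁ h1, hr γ₁ h3]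
      group
  · exfalso
    push Not at hex
    refine hb ?_
    have h1 : ({t}ᶜ : Set S) ⊆ ZZ l t := fun s hs => ⟨hs, hex ⟨s, hs⟩⟩
    exact Pool.Agent.Lib.MP_e6f638_al.par_mono l h1 hb₁

end Pool.Agent.Lib.MP_551055_al.N6
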