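import Mathlib
import Pool.Agent.Lib.MP_551055_al.Trim.N4.Rules_17
import Pool.Agent.Lib.MP_551055_al.Trim.N5.Km_28
import Pool.Agent.Lib.MP_551055_al.Trim.N5.VSf_29
import Pool.Agent.Lib.MP_551055_al.Trim.N6.Asm_54
import Pool.Agent.Lib.MP_551055_al.Trim.N6.E1_38
import Pool.Agent.Lib.MP_551055_al.Trim.N6.E2_42
import Pool.Agent.Lib.MP_551055_al.Trim.N6.E3_95
import Pool.Agent.Lib.MP_551055_al.Trim.N6.L6_4
import Pool.Agent.Lib.MP_551055_al.Trim.N6.S1_4
import Pool.Agent.Lib.MP_551055_al.Trim.N6.S2F_17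
import Pool.Agent.Lib.MP_551055_al.Trim.N6.Stmts_17
import Pool.Agent.Lib.MP_551055_al.Trim.N6.V1_28
import Pool.Agent.Lib.MP_551055_al.Trim.N6.V6_95
import Pool.Agent.Lib.MP_551055_al.Trim.X.MP_e6f638_al.Stmts

/-!
# Finite even Artin groups without triangles 4, 4, 2
-/

set_option autoImplicit false

namespace Pool.Agent.Lib.MP_551055_al
end Pool.Agent.Lib.MP_551055_al

namespace Pool.Agent.Lib.MP_e6f638_al
end Pool.Agent.Lib.MP_e6f638_al

namespace Pool.Agent.Lib.MP_551055_al.N4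
end Pool.Agent.Lib.MP_551055_al.N4

namespace Pool.Agent.Lib.MP_551055_al.N5
end Pool.Agent.Lib.MP_551055_al.N5

namespace Pool.Agent.Lib.MP_551055_al.N6

open Pool.Agent.Lib.MP_551055_al

open Pool.Agent.Lib.MP_e6f638_al (EA)

open Pool.Agent.Lib.MP_551055_al.N4

open Pool.Agent.Lib.MP_551055_al.N5 (stKmf)

/-- Module S2M6. -/
theorem stS2M6 : StS2M6 :=
  stS2M6_of stCorner0 stCorner1 stStr1 stNf1 stNf0 stStr0 stStr0a stStr0b stEnd0

/-- All modules. -/
theorem mods : Mods where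
  l6 := stL6
  s1 := stS1M6
  s2 := stS2M6
  v6 := v6_of N5V.stVSf
  v16 := stV16

/-- Finite even Artin groups without triangles `4, 4, 2`. -/
theorem finiteNo {P : ∀ (G : Type) [Group G], Prop} (hP : Rules P)
    (h0 : P Unit) (hprod : ∀ (G H : Type) [Group G] [Group H], P G → P H → P (G × H))
    (S : Type) [Finite S] (l : S → S → ℕ) (hl : No l) : P (EA l) :=
  finite6 stKmf mods hP h0 hprod (Nat.card S) S l rfl hl

end Pool.Agent.Lib.MP_551055_al.N6
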