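import Mathlib
import Pool.Agent.Lib.MP_551055_al.Trim.LS.PStmts
import Pool.Agent.Lib.MP_551055_al.Trim.LS.Ray
import Pool.Agent.Lib.MP_551055_al.Trim.LS.Stmts
import Pool.Agent.Lib.MP_551055_al.Trim.MT.Defs
import Pool.Agent.Lib.MP_551055_al.Trim.N4.Loc_17
import Pool.Agent.Lib.MP_551055_al.Trim.N4.S2_17
import Pool.Agent.Lib.MP_551055_al.Trim.N4.Stmts
import Pool.Agent.Lib.MP_551055_al.Trim.N5.Base_17
import Pool.Agent.Lib.MP_551055_al.Trim.N5.S2M_17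
import Pool.Agent.Lib.MP_551055_al.Trim.N5.Stmts
import Pool.Agent.Lib.MP_551055_al.Trim.N6.S2A_17
import Pool.Agent.Lib.MP_551055_al.Trim.N6.S2B_17
import Pool.Agent.Lib.MP_551055_al.Trim.N6.S2C_17
import Pool.Agent.Lib.MP_551055_al.Trim.N6.StmtsE_17
import Pool.Agent.Lib.MP_551055_al.Trim.N6.Stmts_17
import Pool.Agent.Lib.MP_551055_al.Trim.N6.Words_17
import Pool.Agent.Lib.MP_551055_al.Trim.RI.HNN
import Pool.Agent.Lib.MP_551055_al.Trim.RI.Stmts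
import Pool.Agent.Lib.MP_551055_al.Trim.W17.Peel
import Pool.Agent.Lib.MP_551055_al.Trim.X.MP_e6f638_al.F
import Pool.Agent.Lib.MP_551055_al.Trim.X.MP_e6f638_al.I1
import Pool.Agent.Lib.MP_551055_al.Trim.X.MP_e6f638_al.I2
import Pool.Agent.Lib.MP_551055_al.Trim.X.MP_e6f638_al.Stmts

/-!
# Module S2M6, fourth part: the steps along the axis
-/

set_option autoImplicit false

namespace Pool.Agent.Lib.MP_551055_al
end Pool.Agent.Lib.MP_551055_al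

namespace Pool.Agent.Lib.MP_e6f638_al
end Pool.Agent.Lib.MP_e6f638_al

namespace Pool.Agent.Lib.MP_551055_al.N4
end Pool.Agent.Lib.MP_551055_al.N4

namespace Pool.Agent.Lib.MP_551055_al.N5
end Pool.Agent.Lib.MP_551055_al.N5

namespace Pool.Agent.Lib.MP_551055_al.N6

open Pool.Agent.Lib.MP_551055_al

open Pool.Agent.Lib.MP_e6f638_al (Dat EA gen par rho del IsDatOf IsAxis inD killD inD_gen killD_gen killD_self hom_ext_EA rho_mem rho_not_mem rho_par rho_mem_par gen_mem_par par_mono par_inter rho_par_le inD_injective gen_injective)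

open Pool.Agent.Lib.MP_551055_al.N4

open Pool.Agent.Lib.MP_551055_al.N5 (MM RRM kk S1M B_le tt_mem kk_self kk_mem mm_hom mm_h kk_h xbx xx xi_eq kk_RE xsq_mem xmul_mem xMM xMMx x_xi tt0_RE NC nc_of xi_comm pt_xi_u pt_mul_u TV SV SSv mul_ofG_inv OT IT ofAdd_ne ofAdd_inv_ne ofAdd_inv_ne' ss_of TT)

open Multiplicative

section

variable {G : Type} [Group G] {D : Dat G}

/-- The element `p` is a name of the edge between `v` and `w`. -/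
def Eg (D : Dat G) (p : D.Ah) (v w : AV D) : Prop :=
  (v = pt D p ∧ w = pt D (p * D.u)) ∨ (w = pt D p ∧ v = pt D (p * D.u))

theorem Eg.mulB {p : D.Ah} {v w : AV D} (h : Eg D p v w) {β : G} (hβ : β ∈ D.B) :
    Eg D (p * D.ofG β) v w := by
  have h1 : pt D (p * D.ofG β * D.u) = pt D (p * D.u) := by
    rw [mul_assoc, ← D.u_comm hβ, ← mul_assoc, pt_mul_ofG]
  rcases h with ⟨h2, h3⟩ | ⟨h2, h3⟩
  · exact Or.inl ⟨by rw [pt_mul_ofG, h2], by rw [h1, h3]⟩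
  · exact Or.inr ⟨by rw [pt_mul_ofG, h2], by rw [h1, h3]⟩

theorem Eg.uniq {p p' : D.Ah} {v w : AV D} (h : Eg D p v w) (h' : Eg D p' v w) :
    ∃ β ∈ D.B, p' = p * D.ofG β := by
  rcases h with ⟨h1, h2⟩ | ⟨h1, h2⟩
  · rcases h' with ⟨h3, h4⟩ | ⟨h3, h4⟩
    · exact dir_uniq D (h1.symm.trans h3) (h2.symm.trans h4)
    · exact (dir_asymm D ⟨p, h1, h2⟩ ⟨p', h3, h4⟩).elim
  · rcases h' with ⟨h3, h4⟩ | ⟨h3, h4⟩
    · exact (dir_asymm D ⟨p, h1, h2⟩ ⟨p', h3, h4⟩).elim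
    · exact dir_uniq D (h1.symm.trans h3) (h2.symm.trans h4)

theorem Eg.smul {p : D.Ah} {v w : AV D} (h : Eg D p v w) (y : D.Ah) :
    Eg D (y * p) (y • v) (y • w) := by
  rcases h with ⟨rfl, rfl⟩ | ⟨rfl, rfl⟩
  · exact Or.inl ⟨smul_pt D y p, by rw [smul_pt, mul_assoc]⟩
  · exact Or.inr ⟨smul_pt D y p, by rw [smul_pt, mul_assoc]⟩

end

section

variable {S : Type} [Finite S] {l : S → S → ℕ} {u : S} {D : Dat (EA (del l u))} {a : D.ι}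
  {k k' : D.Ah}

/-- The context. -/
structure Cx (l : S → S → ℕ) (u : S) (D : Dat (EA (del l u))) (a : D.ι) (k k' : D.Ah) :
    Prop where
  p6 : StP6
  v6 : StV6
  v16 : StV16
  c0 : StCorner0
  c1 : StCorner1
  s1 : StStr1
  n1 : StNf1
  n0 : StNf0
  s0 : StStr0
  s0a : StStr0a
  s0b : StStr0b
  e0 : StEnd0
  A : Adm l
  d : IsDatOf l u D
  M : Mix3 D a
  W : WdM3 D a
  n : NC D a k k'

omit [Finite S] in
theorem lab (hD : IsDatOf l u D) {j : D.ι} {s : {x : S // x ≠ u}}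
    (hs : D.t j = gen (del l u) s) : l u s = D.l j := by
  obtain ⟨s', hs', h1⟩ := hD.t j
  rw [← h1, gen_injective _ (hs.symm.trans hs')]

omit [Finite S] in
theorem mu_YY (c : Cx l u D a k k') {m : EA (del l u)} (hm : m ∈ MM D) :
    (D.t a)⁻¹ * m * D.t a ∈ par (del l u) (YY l u) := by
  have h1 := ta_YY c.d c.M.la
  exact mul_mem (mul_mem (inv_mem h1) (mm_YY c.d hm)) h1

omit [Finite S] in
theorem th_YY (c : Cx l u D a k k') {m : EA (del l u)} (hm : m ∈ MM D) :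
    (D.t a)⁻¹ * m ∈ par (del l u) (YY l u) :=
  mul_mem (inv_mem (ta_YY c.d c.M.la)) (mm_YY c.d hm)

/-- Corners. -/
theorem corn (c : Cx l u D a k k') {p₁ : D.Ah} {b₁ : EA (del l u)} {j j' : D.ι}
    (h₁ : XN D k k' p₁ b₁ j j') {s s' : {x : S // x ≠ u}} (hs : D.t j = gen (del l u) s)
    (hs' : D.t j' = gen (del l u) s') (ε : ℤˣ) {m m' b₂ : EA (del l u)}
    (hm : m ∈ par (del l u) (YY l u)) (hm' : m' ∈ par (del l u) (YY l u)) (hb₂ : b₂ ∈ D.B)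
    (h : D.t j ^ (ε : ℤ) * m * D.t j ^ ((-ε : ℤˣ) : ℤ) * b₂ =
      b₁ * D.t j' ^ (ε : ℤ) * m' * D.t j' ^ ((-ε : ℤˣ) : ℤ)) :
    m ∈ par (del l u) (ZZ (del l u) s) ∧ m' ∈ par (del l u) (ZZ (del l u) s') ∧
      m * b₂ = b₁ * m' := by
  have l1 : l u s = 3 := (lab c.d hs).trans h₁.l.1
  have l2 : l u s' = 3 := (lab c.d hs').trans h₁.r.1
  have hb1 := (mem_B_iff c.d).1 h₁.m
  have hb2 := (mem_B_iff c.d).1 hb₂
  rw [hs, hs'] at h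
  by_cases hss : s = s'
  · subst hss
    have hjj : j = j' := c.d.inj (hs.trans hs'.symm)
    subst hjj
    have hnc : b₁ ∉ par (del l u) (ZZ (del l u) s) := by
      intro h2
      apply h₁.not_comm c.n
      rw [hs]
      exact commute_ZZ (c.A.del u).symm h2
    obtain ⟨h3, h4⟩ := c.c0 c.v6 _ (del l u) (c.A.del u) (CC l u) (YY l u) CC_le s (not_YY l1)
      ε m hm m' hm' b₁ hb1 b₂ hb2 hnc h
    refine ⟨h3, h4, ?_⟩
    have c3 : Commute (gen (del l u) s ^ (ε : ℤ)) m :=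
      (commute_ZZ (c.A.del u).symm h3).symm.zpow_left _
    have c4 : Commute (gen (del l u) s ^ (ε : ℤ)) m' :=
      (commute_ZZ (c.A.del u).symm h4).symm.zpow_left _
    have e1 : gen (del l u) s ^ ((-ε : ℤˣ) : ℤ) = (gen (del l u) s ^ (ε : ℤ))⁻¹ := by
      rw [Units.val_neg, zpow_neg]
    rw [e1, c3.eq, mul_inv_cancel_right, mul_assoc b₁ _ m', c4.eq, ← mul_assoc,
      mul_inv_cancel_right] at h
    exact h
  · exact c.c1 c.p6 _ (del l u) (c.A.del u) (CC l u) (YY l u) CC_le s s' (not_YY l1)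
      (not_YY l2) hss ε m hm m' hm' b₁ hb1 b₂ hb2 h

/-- Outgoing corners. -/
theorem cornOO (c : Cx l u D a k k') {p₁ p₂ : D.Ah} {b₁ b₂ : EA (del l u)} {j₁ j₁' j₂ j₂' : D.ι}
    (h₁ : XN D k k' p₁ b₁ j₁ j₁') (h₂ : XN D k k' p₂ b₂ j₂ j₂') (h : pt D p₁ = pt D p₂)
    {s s' : {x : S // x ≠ u}} (hs : D.t j₁ = gen (del l u) s)
    (hs' : D.t j₁' = gen (del l u) s') :
    j₂ = j₁ ∧ j₂' = j₁' ∧ ∃ m ∈ MM D, ∃ m' ∈ MM D, m ∈ par (del l u) (ZZ (del l u) s) ∧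
      m' ∈ par (del l u) (ZZ (del l u) s') ∧ p₂ = p₁ * D.ofG m ∧ m * b₂ = b₁ * m' := by
  obtain ⟨rfl, rfl, m, hm, m', hm', h3, h4⟩ := trOO c.M c.W c.n h₁ h₂ h
  obtain ⟨h5, h6, h7⟩ := corn c h₁ hs hs' (-1) (mm_YY c.d hm) (mm_YY c.d hm') h₂.m (by
    rw [units_neg_one_zpow, neg_neg, units_one_zpow, units_neg_one_zpow, units_one_zpow]
    exact h4)
  refine ⟨rfl, rfl, m, hm, m', hm', h5, h6, ?_, h7⟩
  have h8 := commute_ZZ (c.A.del u).symm h5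
  rw [h3, hs, mul_assoc _ m, h8.eq, inv_mul_cancel_left]

/-- Incoming corners. -/
theorem cornII (c : Cx l u D a k k') {p₁ p₂ : D.Ah} {b₁ b₂ : EA (del l u)} {j₁ j₁' j₂ j₂' : D.ι}
    (h₁ : XN D k k' p₁ b₁ j₁ j₁') (h₂ : XN D k k' p₂ b₂ j₂ j₂')
    (h : pt D (p₁ * D.u) = pt D (p₂ * D.u))
    {s s' : {x : S // x ≠ u}} (hs : D.t j₁ = gen (del l u) s)
    (hs' : D.t j₁' = gen (del l u) s') :
    j₂ = j₁ ∧ j₂' = j₁' ∧ ∃ m ∈ MM D, ∃ m' ∈ MM D,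
      (D.t a)⁻¹ * m * D.t a ∈ par (del l u) (ZZ (del l u) s) ∧
      (D.t a)⁻¹ * m' * D.t a ∈ par (del l u) (ZZ (del l u) s') ∧
      p₂ = p₁ * D.u * D.ofG ((D.t a)⁻¹ * m * D.t a) * D.u⁻¹ ∧
      (D.t a)⁻¹ * m * D.t a * b₂ = b₁ * ((D.t a)⁻¹ * m' * D.t a) := by
  obtain ⟨rfl, rfl, m, hm, m', hm', h3, h4⟩ := trII c.M c.W c.n h₁ h₂ h
  obtain ⟨h5, h6, h7⟩ := corn c h₁ hs hs' 1 (mu_YY c hm) (mu_YY c hm') h₂.m (by
    rw [units_one_zpow, units_one_zpow, units_neg_one_zpow, units_neg_one_zpow]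
    exact h4)
  refine ⟨rfl, rfl, m, hm, m', hm', h5, h6, ?_, h7⟩
  have h8 := commute_ZZ (c.A.del u).symm h5
  rw [h3, hs, ← h8.eq, mul_inv_cancel_right]

/-! ### Types `(j, j')` -/

variable (l u) in
/-- The set for the types `(s, s')`. -/
def X1 (s s' : {x : S // x ≠ u}) : Set {x : S // x ≠ u} :=
  {s, s'} ∪ (YY l u ∩ ZZ (del l u) s ∩ ZZ (del l u) s')

omit [Finite S] in
theorem X1_comm (s s' : {x : S // x ≠ u}) : X1 l u s s' = X1 l u s' s := by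
  rw [X1, X1, Set.pair_comm, Set.inter_right_comm]

omit [Finite S] in
theorem X1_n {s s' : {x : S // x ≠ u}} {n : EA (del l u)}
    (hn : n ∈ par (del l u) (YY l u ∩ ZZ (del l u) s ∩ ZZ (del l u) s')) :
    D.ofG n ∈ HX D (X1 l u s s') := ofG_HX (par_mono _ Set.subset_union_right hn)

omit [Finite S] in
theorem X1_n' {s s' : {x : S // x ≠ u}} {n : EA (del l u)}
    (hn : n ∈ par (del l u) (YY l u ∩ ZZ (del l u) s' ∩ ZZ (del l u) s)) :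
    D.ofG n ∈ HX D (X1 l u s s') := by
  rw [X1_comm]
  exact X1_n hn

omit [Finite S] in
theorem X1_s (s s' : {x : S // x ≠ u}) : D.ofG (gen (del l u) s) ∈ HX D (X1 l u s s') :=
  ofG_HX (gen_mem_par _ (Or.inl (Or.inl rfl)))

omit [Finite S] in
theorem X1_s' (s s' : {x : S // x ≠ u}) : D.ofG (gen (del l u) s') ∈ HX D (X1 l u s s') :=
  ofG_HX (gen_mem_par _ (Or.inl (Or.inr rfl)))

/-- The normalised names. -/
theorem xn_mk (c : Cx l u D a k k') {p b : _} {j j' : D.ι} (h : XN D k k' p b j j')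
    {s s' : {x : S // x ≠ u}} (hs : D.t j = gen (del l u) s) (hs' : D.t j' = gen (del l u) s')
    {β β' b₀ : EA (del l u)} (hβ : β ∈ par (del l u) (CC l u ∩ ZZ (del l u) s))
    (hβ' : β' ∈ par (del l u) (CC l u ∩ ZZ (del l u) s')) (hb₀ : b₀ ∈ D.B)
    (h1 : b = β * b₀ * β') : XN D k k' (p * D.ofG β) b₀ j j' := by
  refine ⟨nm_B h.l (cz_B c.d hβ) (by rw [hs]; exact cz_comm c.A hβ), hb₀, ?_⟩
  have h2 := nm_B h.r (inv_mem (cz_B c.d hβ'))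
    (by rw [hs']; exact (cz_comm c.A hβ').inv_left)
  have h3 : p * D.ofG β * D.ofG b₀ = p * D.ofG b * D.ofG β'⁻¹ := by
    rw [h1]
    simp only [map_mul, map_inv]
    group
  rw [h3]
  exact h2

/-- Step at an outgoing corner. -/
theorem s1OO (c : Cx l u D a k k') {p₁ p₂ : D.Ah} {b₂ : EA (del l u)} {j₁ j₁' j₂ j₂' : D.ι}
    (h₁ : XN D k k' p₁ 1 j₁ j₁') (h₂ : XN D k k' p₂ b₂ j₂ j₂') (h : pt D p₁ = pt D p₂)
    {s s' : {x : S // x ≠ u}} (hs : D.t j₁ = gen (del l u) s)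
    (hs' : D.t j₁' = gen (del l u) s') :
    j₂ = j₁ ∧ j₂' = j₁' ∧ ∃ h ∈ HX D (X1 l u s s'), ∃ β ∈ D.B, p₂ * D.ofG β = p₁ * h ∧
      XN D k k' (p₂ * D.ofG β) 1 j₂ j₂' := by
  have l1 : l u s = 3 := (lab c.d hs).trans h₁.l.1
  have l2 : l u s' = 3 := (lab c.d hs').trans h₁.r.1
  obtain ⟨rfl, rfl, m, hm, m', hm', h3, h4, h5, h6⟩ := cornOO c h₁ h₂ h hs hs'
  rw [one_mul] at h6
  obtain ⟨β, hβ, β', hβ', n, hn, e1, e2, e3⟩ := c.n1 _ (del l u) (c.A.del u) (CC l u) (YY l u)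
    CC_le s s' (not_YY l1) (not_YY l2) m (mm_YY c.d hm) m' (mm_YY c.d hm') b₂
    ((mem_B_iff c.d).1 h₂.m) h3 h4 h6
  refine ⟨rfl, rfl, D.ofG n, X1_n hn, β⁻¹, inv_mem (cz_B c.d hβ), ?_,
    xn_mk c h₂ hs hs' (inv_mem hβ) hβ' (one_mem _) (by rw [mul_one, e1])⟩
  rw [h5, e2, mul_assoc, ← map_mul, mul_inv_cancel_right]

/-- Step at an incoming corner. -/
theorem s1II (c : Cx l u D a k k') {p₁ p₂ : D.Ah} {b₂ : EA (del l u)} {j₁ j₁' j₂ j₂' : D.ι}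
    (h₁ : XN D k k' p₁ 1 j₁ j₁') (h₂ : XN D k k' p₂ b₂ j₂ j₂')
    (h : pt D (p₁ * D.u) = pt D (p₂ * D.u))
    {s s' : {x : S // x ≠ u}} (hs : D.t j₁ = gen (del l u) s)
    (hs' : D.t j₁' = gen (del l u) s') :
    j₂ = j₁ ∧ j₂' = j₁' ∧ ∃ h ∈ HX D (X1 l u s s'), ∃ β ∈ D.B, p₂ * D.ofG β = p₁ * h ∧
      XN D k k' (p₂ * D.ofG β) 1 j₂ j₂' := by
  have l1 : l u s = 3 := (lab c.d hs).trans h₁.l.1
  have l2 : l u s' = 3 := (lab c.d hs').trans h₁.r.1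
  obtain ⟨rfl, rfl, m, hm, m', hm', h3, h4, h5, h6⟩ := cornII c h₁ h₂ h hs hs'
  rw [one_mul] at h6
  obtain ⟨β, hβ, β', hβ', n, hn, e1, e2, e3⟩ := c.n1 _ (del l u) (c.A.del u) (CC l u) (YY l u)
    CC_le s s' (not_YY l1) (not_YY l2) _ (mu_YY c hm) _ (mu_YY c hm') b₂
    ((mem_B_iff c.d).1 h₂.m) h3 h4 h6
  refine ⟨rfl, rfl, D.u * D.ofG n * D.u⁻¹,
    mul_mem (mul_mem (u_HX _) (X1_n hn)) (inv_mem (u_HX _)), β⁻¹, inv_mem (cz_B c.d hβ), ?_,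
    xn_mk c h₂ hs hs' (inv_mem hβ) hβ' (one_mem _) (by rw [mul_one, e1])⟩
  have h7 := u_inv_B (cz_B c.d hβ)
  rw [h5, e2, map_mul D.ofG n, map_inv]
  calc p₁ * D.u * (D.ofG n * D.ofG β) * D.u⁻¹ * (D.ofG β)⁻¹ =
      p₁ * D.u * D.ofG n * (D.ofG β * D.u⁻¹) * (D.ofG β)⁻¹ := by group
    _ = _ := by
      rw [← h7]
      group

/-- Step at a straight pass, forwards. -/
theorem s1IO (c : Cx l u D a k k') {p₁ p₂ : D.Ah} {b₂ : EA (del l u)} {j₁ j₁' j₂ j₂' : D.ι}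
    (h₁ : XN D k k' p₁ 1 j₁ j₁') (h₂ : XN D k k' p₂ b₂ j₂ j₂')
    (h : pt D (p₁ * D.u) = pt D p₂)
    {s s' : {x : S // x ≠ u}} (hs : D.t j₁ = gen (del l u) s)
    (hs' : D.t j₁' = gen (del l u) s') (hss : s ≠ s') :
    j₂ = j₁' ∧ j₂' = j₁ ∧ ∃ h ∈ HX D (X1 l u s s'), ∃ β ∈ D.B, p₂ * D.ofG β = p₁ * h ∧
      XN D k k' (p₂ * D.ofG β) 1 j₂ j₂' := by
  have l1 : l u s = 3 := (lab c.d hs).trans h₁.l.1
  have l2 : l u s' = 3 := (lab c.d hs').trans h₁.r.1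
  obtain ⟨rfl, rfl, m, hm, m', hm', h3, h4⟩ := trIO c.M c.W c.n h₁ h₂ h
  rw [hs, hs'] at h4
  obtain ⟨_, _, h5, _⟩ := c.s1 c.p6 _ (del l u) (c.A.del u) (CC l u) (YY l u)
    CC_le s s' (not_YY l1) (not_YY l2) hss _ (th_YY c hm) _ (th_YY c hm') 1 (one_mem _) b₂
    ((mem_B_iff c.d).1 h₂.m) h4
  obtain ⟨h6, h7, h8⟩ := h5 rfl
  obtain ⟨β, hβ, β', hβ', n, hn, e1, e2, e3⟩ := c.n1 _ (del l u) (c.A.del u) (CC l u) (YY l u)
    CC_le s' s (not_YY l2) (not_YY l1) _ (th_YY c hm) _ (th_YY c hm') b₂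
    ((mem_B_iff c.d).1 h₂.m) h6 h7 h8
  refine ⟨rfl, rfl, D.u * (D.ofG (gen (del l u) s) * D.ofG n * D.ofG (gen (del l u) s')),
    mul_mem (u_HX _) (mul_mem (mul_mem (X1_s _ _) (X1_n' hn)) (X1_s' _ _)), β⁻¹,
    inv_mem (cz_B c.d hβ), ?_,
    xn_mk c h₂ hs' hs (inv_mem hβ) hβ' (one_mem _) (by rw [mul_one, e1])⟩
  have h9 := cz_comm c.A hβ
  rw [h3, hs, hs', e2]
  have h10 : gen (del l u) s * (n * β) * gen (del l u) s' * β⁻¹ =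
      gen (del l u) s * n * gen (del l u) s' := by
    rw [← mul_assoc _ n β, mul_assoc _ β, h9.eq]
    group
  rw [mul_assoc (p₁ * D.u), ← map_mul, h10]
  simp only [map_mul, mul_assoc]

/-- Step at a straight pass, backwards. -/
theorem s1OI (c : Cx l u D a k k') {p₁ p₂ : D.Ah} {b₂ : EA (del l u)} {j₁ j₁' j₂ j₂' : D.ι}
    (h₁ : XN D k k' p₁ 1 j₁ j₁') (h₂ : XN D k k' p₂ b₂ j₂ j₂')
    (h : pt D (p₂ * D.u) = pt D p₁)
    {s s' : {x : S // x ≠ u}} (hs : D.t j₁ = gen (del l u) s)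
    (hs' : D.t j₁' = gen (del l u) s') (hss : s ≠ s') :
    j₂ = j₁' ∧ j₂' = j₁ ∧ ∃ h ∈ HX D (X1 l u s s'), ∃ β ∈ D.B, p₂ * D.ofG β = p₁ * h ∧
      XN D k k' (p₂ * D.ofG β) 1 j₂ j₂' := by
  have l1 : l u s = 3 := (lab c.d hs).trans h₁.l.1
  have l2 : l u s' = 3 := (lab c.d hs').trans h₁.r.1
  obtain ⟨rfl, rfl, m, hm, m', hm', h3, h4⟩ := trIO c.M c.W c.n h₂ h₁ h
  rw [hs, hs'] at h4
  obtain ⟨_, _, _, h5⟩ := c.s1 c.p6 _ (del l u) (c.A.del u) (CC l u) (YY l u)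
    CC_le s' s (not_YY l2) (not_YY l1) hss.symm _ (th_YY c hm) _ (th_YY c hm') b₂
    ((mem_B_iff c.d).1 h₂.m) 1 (one_mem _) h4
  obtain ⟨h6, h7, h8⟩ := h5 rfl
  obtain ⟨β, hβ, β', hβ', n, hn, e1, e2, e3⟩ := c.n1 _ (del l u) (c.A.del u) (CC l u) (YY l u)
    CC_le s' s (not_YY l2) (not_YY l1) _ (inv_mem (th_YY c hm)) _ (inv_mem (th_YY c hm')) b₂
    ((mem_B_iff c.d).1 h₂.m) (inv_mem h6) (inv_mem h7) (by
      rw [h8]
      group)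
  refine ⟨rfl, rfl,
    (D.u * (D.ofG (gen (del l u) s') * D.ofG n⁻¹ * D.ofG (gen (del l u) s)))⁻¹,
    inv_mem (mul_mem (u_HX _) (mul_mem (mul_mem (X1_s' _ _) (X1_n' (inv_mem hn)))
      (X1_s _ _))), β⁻¹, inv_mem (cz_B c.d hβ), ?_,
    xn_mk c h₂ hs' hs (inv_mem hβ) hβ' (one_mem _) (by rw [mul_one, e1])⟩
  have h9 := cz_comm c.A hβ
  have h11 : (D.t a)⁻¹ * m = β⁻¹ * n⁻¹ := by
    rw [← inv_inv ((D.t a)⁻¹ * m), e2]
    group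
  have h10 : gen (del l u) s' * (β⁻¹ * n⁻¹) * gen (del l u) s =
      β⁻¹ * (gen (del l u) s' * n⁻¹ * gen (del l u) s) := by
    rw [← mul_assoc _ β⁻¹, ← h9.inv_left.eq]
    group
  rw [eq_mul_inv_iff_mul_eq, h3, hs, hs', h11, h10, map_mul D.ofG β⁻¹, ← mul_assoc _ D.u,
    mul_assoc p₂, ← D.u_comm (inv_mem (cz_B c.d hβ))]
  simp only [map_mul, mul_assoc]

end

end Pool.Agent.Lib.MP_551055_al.N6
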