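import Mathlib
import Pool.Agent.Lib.MP_551055_al.Trim.LS.Ray
import Pool.Agent.Lib.MP_551055_al.Trim.MT.Defs
import Pool.Agent.Lib.MP_551055_al.Trim.N4.Loc_17
import Pool.Agent.Lib.MP_551055_al.Trim.N4.S2_17
import Pool.Agent.Lib.MP_551055_al.Trim.N4.Stmts
import Pool.Agent.Lib.MP_551055_al.Trim.N5.Base_17
import Pool.Agent.Lib.MP_551055_al.Trim.N5.S2M_17
import Pool.Agent.Lib.MP_551055_al.Trim.N5.Stmts
import Pool.Agent.Lib.MP_551055_al.Trim.N6.S2B_17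
import Pool.Agent.Lib.MP_551055_al.Trim.N6.S2C_17
import Pool.Agent.Lib.MP_551055_al.Trim.N6.S2D_17
import Pool.Agent.Lib.MP_551055_al.Trim.N6.Words_17
import Pool.Agent.Lib.MP_551055_al.Trim.RI.Stmts
import Pool.Agent.Lib.MP_551055_al.Trim.W17.Peel
import Pool.Agent.Lib.MP_551055_al.Trim.X.MP_e6f638_al.F
import Pool.Agent.Lib.MP_551055_al.Trim.X.MP_e6f638_al.I1
import Pool.Agent.Lib.MP_551055_al.Trim.X.MP_e6f638_al.I2
import Pool.Agent.Lib.MP_551055_al.Trim.X.MP_e6f638_al.Stmts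

/-!
# Module S2M6, fifth part: types `(j, j)`, iteration
-/

set_option autoImplicit false

namespace Pool.Agent.Lib.MP_551055_al
end Pool.Agent.Lib.MP_551055_al

namespace Pool.Agent.Lib.MP_e6f638_al
end Pool.Agent.Lib.MP_e6f638_al

namespace Pool.Agent.Lib.MP_551055_al.N4
end Pool.Agent.Lib.MP_551055_al.N4

namespace Pool.Agent.Lib.MP_551055_al.N5
end Pool.Agent.Lib.MP_551055_al.N5

namespace Pool.Agent.Lib.MP_551055_al.N6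

open Pool.Agent.Lib.MP_551055_al

open Pool.Agent.Lib.MP_e6f638_al (Dat EA gen par rho del IsDatOf IsAxis inD killD inD_gen killD_gen killD_self hom_ext_EA rho_mem rho_not_mem rho_par rho_mem_par gen_mem_par par_mono par_inter rho_par_le inD_injective gen_injective)

open Pool.Agent.Lib.MP_551055_al.N4

open Pool.Agent.Lib.MP_551055_al.N5 (MM RRM kk S1M B_le tt_mem kk_self kk_mem mm_hom mm_h kk_h xbx xx xi_eq kk_RE xsq_mem xmul_mem xMM xMMx x_xi tt0_RE NC nc_of xi_comm pt_xi_u pt_mul_u TV SV SSv mul_ofG_inv OT IT ofAdd_ne ofAdd_inv_ne ofAdd_inv_ne' ss_of TT)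

open Multiplicative

section

variable {S : Type} [Finite S] {l : S → S → ℕ} {u : S} {D : Dat (EA (del l u))} {a : D.ι}
  {k k' : D.Ah}

/-! ### Types `(j, j)` -/

variable (l u) in
/-- The set for the types `(s, s)` and the generator `c`. -/
def X0 (s c : {x : S // x ≠ u}) : Set {x : S // x ≠ u} :=
  {s, c} ∪ (YY l u ∩ ZZ (del l u) s ∩ ZZ (del l u) c)

omit [Finite S] in
theorem X0_n {s v : {x : S // x ≠ u}} {n : EA (del l u)}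
    (hn : n ∈ par (del l u) (YY l u ∩ ZZ (del l u) s ∩ ZZ (del l u) v)) :
    D.ofG n ∈ HX D (X0 l u s v) := ofG_HX (par_mono _ Set.subset_union_right hn)

omit [Finite S] in
theorem X0_s (s v : {x : S // x ≠ u}) : D.ofG (gen (del l u) s) ∈ HX D (X0 l u s v) :=
  ofG_HX (gen_mem_par _ (Or.inl (Or.inl rfl)))

omit [Finite S] in
theorem X0_c (s v : {x : S // x ≠ u}) : D.ofG (gen (del l u) v) ∈ HX D (X0 l u s v) :=
  ofG_HX (gen_mem_par _ (Or.inl (Or.inr rfl)))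

omit [Finite S] in
theorem pow_B (c : Cx l u D a k k') {v : {x : S // x ≠ u}} (hv : v ∈ CC l u) (κ : ℤ) :
    gen (del l u) v ^ κ ∈ D.B :=
  (mem_B_iff c.d).2 (zpow_mem (gen_mem_par _ hv) κ)

/-- Step at an outgoing corner. -/
theorem s0OO (c : Cx l u D a k k') {p₁ p₂ : D.Ah} {b₂ : EA (del l u)} {j₁ j₂ j₂' : D.ι}
    {v : {x : S // x ≠ u}} {κ : ℤ} (hv : v ∈ CC l u) (hκ : κ ≠ 0)
    (h₁ : XN D k k' p₁ (gen (del l u) v ^ κ) j₁ j₁) (h₂ : XN D k k' p₂ b₂ j₂ j₂')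
    (h : pt D p₁ = pt D p₂) {s : {x : S // x ≠ u}} (hs : D.t j₁ = gen (del l u) s)
    (hsv : l s v = 2) :
    j₂ = j₁ ∧ j₂' = j₁ ∧ ∃ h ∈ HX D (X0 l u s v), ∃ β ∈ D.B, p₂ * D.ofG β = p₁ * h ∧
      XN D k k' (p₂ * D.ofG β) (gen (del l u) v ^ κ) j₂ j₂' := by
  have l1 : l u s = 3 := (lab c.d hs).trans h₁.l.1
  obtain ⟨rfl, rfl, m, hm, m', hm', h3, h4, h5, h6⟩ := cornOO c h₁ h₂ h hs hs
  obtain ⟨β, hβ, β', hβ', n, hn, e1, e2, e3⟩ := c.n0 c.p6 _ (del l u) (c.A.del u) (CC l u)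
    (YY l u) CC_le s (not_YY l1) v hv hsv κ hκ m (mm_YY c.d hm) m' (mm_YY c.d hm') b₂
    ((mem_B_iff c.d).1 h₂.m) h3 h4 h6
  refine ⟨rfl, rfl, D.ofG n, X0_n hn, β⁻¹, inv_mem (cz_B c.d hβ), ?_,
    xn_mk c h₂ hs hs (inv_mem hβ) hβ' (pow_B c hv κ) e1⟩
  rw [h5, e2, mul_assoc, ← map_mul, mul_inv_cancel_right]

/-- Step at an incoming corner. -/
theorem s0II (c : Cx l u D a k k') {p₁ p₂ : D.Ah} {b₂ : EA (del l u)} {j₁ j₂ j₂' : D.ι}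
    {v : {x : S // x ≠ u}} {κ : ℤ} (hv : v ∈ CC l u) (hκ : κ ≠ 0)
    (h₁ : XN D k k' p₁ (gen (del l u) v ^ κ) j₁ j₁) (h₂ : XN D k k' p₂ b₂ j₂ j₂')
    (h : pt D (p₁ * D.u) = pt D (p₂ * D.u))
    {s : {x : S // x ≠ u}} (hs : D.t j₁ = gen (del l u) s) (hsv : l s v = 2) :
    j₂ = j₁ ∧ j₂' = j₁ ∧ ∃ h ∈ HX D (X0 l u s v), ∃ β ∈ D.B, p₂ * D.ofG β = p₁ * h ∧
      XN D k k' (p₂ * D.ofG β) (gen (del l u) v ^ κ) j₂ j₂' := by
  have l1 : l u s = 3 := (lab c.d hs).trans h₁.l.1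
  obtain ⟨rfl, rfl, m, hm, m', hm', h3, h4, h5, h6⟩ := cornII c h₁ h₂ h hs hs
  obtain ⟨β, hβ, β', hβ', n, hn, e1, e2, e3⟩ := c.n0 c.p6 _ (del l u) (c.A.del u) (CC l u)
    (YY l u) CC_le s (not_YY l1) v hv hsv κ hκ _ (mu_YY c hm) _ (mu_YY c hm') b₂
    ((mem_B_iff c.d).1 h₂.m) h3 h4 h6
  refine ⟨rfl, rfl, D.u * D.ofG n * D.u⁻¹,
    mul_mem (mul_mem (u_HX _) (X0_n hn)) (inv_mem (u_HX _)), β⁻¹, inv_mem (cz_B c.d hβ), ?_,
    xn_mk c h₂ hs hs (inv_mem hβ) hβ' (pow_B c hv κ) e1⟩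
  have h7 := u_inv_B (cz_B c.d hβ)
  rw [h5, e2, map_mul D.ofG n, map_inv]
  calc p₁ * D.u * (D.ofG n * D.ofG β) * D.u⁻¹ * (D.ofG β)⁻¹ =
      p₁ * D.u * D.ofG n * (D.ofG β * D.u⁻¹) * (D.ofG β)⁻¹ := by group
    _ = _ := by
      rw [← h7]
      group

/-- Step at a straight pass, forwards. -/
theorem s0IO (c : Cx l u D a k k') {p₁ p₂ : D.Ah} {b₂ : EA (del l u)} {j₁ j₂ j₂' : D.ι}
    {v : {x : S // x ≠ u}} {κ : ℤ} (hv : v ∈ CC l u) (hκ : κ ≠ 0)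
    (h₁ : XN D k k' p₁ (gen (del l u) v ^ κ) j₁ j₁) (h₂ : XN D k k' p₂ b₂ j₂ j₂')
    (h : pt D (p₁ * D.u) = pt D p₂)
    {s : {x : S // x ≠ u}} (hs : D.t j₁ = gen (del l u) s) (hsv : l s v = 2) :
    j₂ = j₁ ∧ j₂' = j₁ ∧ ∃ h ∈ HX D (X0 l u s v), ∃ β ∈ D.B, p₂ * D.ofG β = p₁ * h ∧
      XN D k k' (p₂ * D.ofG β) (gen (del l u) v ^ κ) j₂ j₂' := by
  have l1 : l u s = 3 := (lab c.d hs).trans h₁.l.1
  obtain ⟨rfl, rfl, m, hm, m', hm', h3, h4⟩ := trIO c.M c.W c.n h₁ h₂ h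
  rw [hs] at h4
  obtain ⟨β, hβ, β', hβ', n₀, hn₀, n₁, hn₁, e1, e2⟩ := c.s0a c.p6 c.v16 _ (del l u)
    (c.A.del u) (CC l u) (YY l u) CC_le s (not_YY l1) v hv hsv κ hκ _ (th_YY c hm) _
    (th_YY c hm') b₂ ((mem_B_iff c.d).1 h₂.m) h4
  refine ⟨rfl, rfl, D.u * (D.ofG (gen (del l u) s) * (D.ofG n₀ * D.ofG (gen (del l u) v) *
    D.ofG n₁) * D.ofG (gen (del l u) s)),
    mul_mem (u_HX _) (mul_mem (mul_mem (X0_s _ _) (mul_mem (mul_mem (X0_n hn₀) (X0_c _ _))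
      (X0_n hn₁))) (X0_s _ _)), β⁻¹,
    inv_mem (cz_B c.d hβ), ?_,
    xn_mk c h₂ hs hs (inv_mem hβ) hβ' (pow_B c hv κ) e2⟩
  have h9 := cz_comm c.A hβ
  rw [h3, hs, e1]
  have h10 : gen (del l u) s * (n₀ * gen (del l u) v * n₁ * β) * gen (del l u) s * β⁻¹ =
      gen (del l u) s * (n₀ * gen (del l u) v * n₁) * gen (del l u) s := by
    rw [← mul_assoc _ _ β, mul_assoc _ β, h9.eq]
    group
  rw [mul_assoc (p₁ * D.u), ← map_mul, h10]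
  simp only [map_mul, mul_assoc]

/-- Step at a straight pass, backwards. -/
theorem s0OI (c : Cx l u D a k k') {p₁ p₂ : D.Ah} {b₂ : EA (del l u)} {j₁ j₂ j₂' : D.ι}
    {v : {x : S // x ≠ u}} {κ : ℤ} (hv : v ∈ CC l u) (hκ : κ ≠ 0)
    (h₁ : XN D k k' p₁ (gen (del l u) v ^ κ) j₁ j₁) (h₂ : XN D k k' p₂ b₂ j₂ j₂')
    (h : pt D (p₂ * D.u) = pt D p₁)
    {s : {x : S // x ≠ u}} (hs : D.t j₁ = gen (del l u) s) (hsv : l s v = 2) :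
    j₂ = j₁ ∧ j₂' = j₁ ∧ ∃ h ∈ HX D (X0 l u s v), ∃ β ∈ D.B, p₂ * D.ofG β = p₁ * h ∧
      XN D k k' (p₂ * D.ofG β) (gen (del l u) v ^ κ) j₂ j₂' := by
  have l1 : l u s = 3 := (lab c.d hs).trans h₁.l.1
  obtain ⟨h0, h0', m, hm, m', hm', h3, h4⟩ := trIO c.M c.W c.n h₂ h₁ h
  subst h0
  subst h0'
  rw [hs] at h4
  have hnc : b₂ ∉ par (del l u) (ZZ (del l u) s) := by
    intro h5
    apply h₂.not_comm c.n
    rw [hs]
    exact commute_ZZ (c.A.del u).symm h5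
  obtain ⟨β, hβ, β', hβ', n₀, hn₀, n₁, hn₁, e1, e2⟩ := c.s0b c.p6 c.v16 _ (del l u)
    (c.A.del u) (CC l u) (YY l u) CC_le s (not_YY l1) v hv hsv κ hκ _ (th_YY c hm) _
    (th_YY c hm') b₂ ((mem_B_iff c.d).1 h₂.m) hnc h4
  refine ⟨rfl, rfl, (D.u * (D.ofG (gen (del l u) s) * (D.ofG n₀ * D.ofG (gen (del l u) v) *
    D.ofG n₁) * D.ofG (gen (del l u) s)))⁻¹,
    inv_mem (mul_mem (u_HX _) (mul_mem (mul_mem (X0_s _ _) (mul_mem (mul_mem (X0_n hn₀)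
      (X0_c _ _)) (X0_n hn₁))) (X0_s _ _))), β, cz_B c.d hβ, ?_,
    xn_mk c h₂ hs hs hβ hβ' (pow_B c hv κ) e2⟩
  have h9 := cz_comm c.A hβ
  have h10 : gen (del l u) s * (β * n₀ * gen (del l u) v * n₁) * gen (del l u) s =
      β * (gen (del l u) s * (n₀ * gen (del l u) v * n₁) * gen (del l u) s) := by
    rw [mul_assoc β, mul_assoc β, ← mul_assoc _ β, ← h9.eq]
    group
  rw [eq_mul_inv_iff_mul_eq, h3, hs, e1, h10, map_mul D.ofG β, ← mul_assoc _ D.u,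
    mul_assoc p₂, ← D.u_comm (cz_B c.d hβ)]
  simp only [map_mul, mul_assoc]

end

end Pool.Agent.Lib.MP_551055_al.N6
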