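import Mathlib
import Pool.Agent.Lib.MP_551055_al.Trim.LS.Ray
import Pool.Agent.Lib.MP_551055_al.Trim.LS.Stmts
import Pool.Agent.Lib.MP_551055_al.Trim.MT.Defs
import Pool.Agent.Lib.MP_551055_al.Trim.MT.Flow2
import Pool.Agent.Lib.MP_551055_al.Trim.MT.K1
import Pool.Agent.Lib.MP_551055_al.Trim.N4.Loc_17
import Pool.Agent.Lib.MP_551055_al.Trim.N4.O_17
import Pool.Agent.Lib.MP_551055_al.Trim.N4.S2_17
import Pool.Agent.Lib.MP_551055_al.Trim.N4.Stmts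
import Pool.Agent.Lib.MP_551055_al.Trim.N5.Base_17
import Pool.Agent.Lib.MP_551055_al.Trim.N5.S2M_17
import Pool.Agent.Lib.MP_551055_al.Trim.N5.Stmts
import Pool.Agent.Lib.MP_551055_al.Trim.N6.Base_17
import Pool.Agent.Lib.MP_551055_al.Trim.N6.S2A_17
import Pool.Agent.Lib.MP_551055_al.Trim.N6.S2B_17
import Pool.Agent.Lib.MP_551055_al.Trim.N6.S2C_17
import Pool.Agent.Lib.MP_551055_al.Trim.N6.S2D_17
import Pool.Agent.Lib.MP_551055_al.Trim.N6.S2E_17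
import Pool.Agent.Lib.MP_551055_al.Trim.N6.StmtsE_17
import Pool.Agent.Lib.MP_551055_al.Trim.N6.Stmts_17
import Pool.Agent.Lib.MP_551055_al.Trim.N6.Words_17
import Pool.Agent.Lib.MP_551055_al.Trim.RI.HNN
import Pool.Agent.Lib.MP_551055_al.Trim.RI.Stmts
import Pool.Agent.Lib.MP_551055_al.Trim.W17.Peel
import Pool.Agent.Lib.MP_551055_al.Trim.X.MP_e6f638_al.F
import Pool.Agent.Lib.MP_551055_al.Trim.X.MP_e6f638_al.I1
import Pool.Agent.Lib.MP_551055_al.Trim.X.MP_e6f638_al.I2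
import Pool.Agent.Lib.MP_551055_al.Trim.X.MP_e6f638_al.Stmts

/-!
# Module S2M6, last part
-/

set_option autoImplicit false

namespace Pool.Agent.Lib.MP_551055_al
end Pool.Agent.Lib.MP_551055_al

namespace Pool.Agent.Lib.MP_e6f638_al
end Pool.Agent.Lib.MP_e6f638_al

namespace Pool.Agent.Lib.MP_551055_al.N4
end Pool.Agent.Lib.MP_551055_al.N4

namespace Pool.Agent.Lib.MP_551055_al.N5
end Pool.Agent.Lib.MP_551055_al.N5

namespace Pool.Agent.Lib.MP_551055_al.N6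

open Pool.Agent.Lib.MP_551055_al

open Pool.Agent.Lib.MP_e6f638_al (Dat EA gen par rho del IsDatOf IsAxis inD killD inD_gen killD_gen killD_self hom_ext_EA rho_mem rho_not_mem rho_par rho_mem_par gen_mem_par par_mono par_inter rho_par_le inD_injective gen_injective)

open Pool.Agent.Lib.MP_551055_al.N4

open Pool.Agent.Lib.MP_551055_al.N5 (MM RRM kk S1M B_le tt_mem kk_self kk_mem mm_hom mm_h kk_h xbx xx xi_eq kk_RE xsq_mem xmul_mem xMM xMMx x_xi tt0_RE NC nc_of xi_comm pt_xi_u pt_mul_u TV SV SSv mul_ofG_inv OT IT ofAdd_ne ofAdd_inv_ne ofAdd_inv_ne' ss_of TT)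

open Multiplicative

section

variable {G : Type} [Group G] {D : Dat G}

/-- Iteration of a step. -/
theorem iter {Gd : D.Ah → AV D → AV D → Prop} {H : Subgroup D.Ah} {γ : ℤ → AV D}
    (hstep : ∀ p i, Gd p (γ i) (γ (i + 1)) → ∃ h ∈ H, Gd (p * h) (γ (i + 1)) (γ (i + 1 + 1)))
    {p : D.Ah} {i : ℤ} (h0 : Gd p (γ i) (γ (i + 1))) (n : ℕ) :
    ∃ h ∈ H, Gd (p * h) (γ (i + n)) (γ (i + n + 1)) := by
  induction n with
  | zero => exact ⟨1, one_mem _, by simpa using h0⟩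
  | succ n ih =>
    obtain ⟨h, hh, h1⟩ := ih
    obtain ⟨h', hh', h2⟩ := hstep _ _ h1
    refine ⟨h * h', mul_mem hh hh', ?_⟩
    have e1 : i + ((n + 1 : ℕ) : ℤ) = i + n + 1 := by push_cast; ring
    rw [e1, ← mul_assoc]
    exact h2

/-- The axis: all edges have names. -/
structure Ax (D : Dat G) (k k' : D.Ah) (γ : ℤ → AV D) (y : D.Ah) (n : ℕ) : Prop where
  pos : 0 < n
  hy : ∀ i, y • γ i = γ (i + n)
  ne : ∀ i, γ i ≠ γ (i + 2)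
  e : ∀ i, ∃ p b j j', XN D k k' p b j j' ∧ Eg D p (γ i) (γ (i + 1))
  hk : k⁻¹ * y * k ∈ RE D
  hk' : k'⁻¹ * y * k' ∈ RE D

theorem xn_smul {k k' p y : D.Ah} {b : G} {j j' : D.ι} (h : XN D k k' p b j j')
    (hy : k⁻¹ * y * k ∈ RE D) (hy' : k'⁻¹ * y * k' ∈ RE D) : XN D k k' (y * p) b j j' := by
  refine ⟨nm_smul h.l hy, h.m, ?_⟩
  rw [mul_assoc]
  exact nm_smul h.r hy'

end

section

variable {S : Type} [Finite S] {l : S → S → ℕ} {u : S} {D : Dat (EA (del l u))} {a : D.ι}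
  {k k' : D.Ah}

/-! ### Types `(j, j')` -/

/-- Normalised edges with types `(j, j')` or `(j', j)`. -/
def Gd1 (D : Dat (EA (del l u))) (k k' : D.Ah) (j j' : D.ι) (p : D.Ah) (v w : AV D) : Prop :=
  (XN D k k' p 1 j j' ∨ XN D k k' p 1 j' j) ∧ Eg D p v w

theorem step1_aux (c : Cx l u D a k k') {j j' i i' : D.ι} {s s' : {x : S // x ≠ u}}
    (hs : D.t j = gen (del l u) s) (hs' : D.t j' = gen (del l u) s') (hss : s ≠ s')
    {p₁ p₂ : D.Ah} {b₂ : EA (del l u)} {v₁ v₂ v₃ : AV D} (h₁ : XN D k k' p₁ 1 j j')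
    (g₁ : Eg D p₁ v₁ v₂) (h₂ : XN D k k' p₂ b₂ i i') (g₂ : Eg D p₂ v₂ v₃) :
    ∃ h ∈ HX D (X1 l u s s'), Gd1 D k k' j j' (p₁ * h) v₂ v₃ := by
  rcases g₁ with ⟨e1, e2⟩ | ⟨e1, e2⟩
  · rcases g₂ with ⟨e3, e4⟩ | ⟨e3, e4⟩
    · obtain ⟨rfl, rfl, h, hh, β, hβ, h3, h4⟩ := s1IO c h₁ h₂ (e2.symm.trans e3) hs hs' hss
      refine ⟨h, hh, ?_, ?_⟩
      · rw [← h3]
        exact Or.inr h4
      · rw [← h3]
        exact Eg.mulB (Or.inl ⟨e3, e4⟩) hβ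
    · obtain ⟨rfl, rfl, h, hh, β, hβ, h3, h4⟩ := s1II c h₁ h₂ (e2.symm.trans e4) hs hs'
      refine ⟨h, hh, ?_, ?_⟩
      · rw [← h3]
        exact Or.inl h4
      · rw [← h3]
        exact Eg.mulB (Or.inr ⟨e3, e4⟩) hβ
  · rcases g₂ with ⟨e3, e4⟩ | ⟨e3, e4⟩
    · obtain ⟨rfl, rfl, h, hh, β, hβ, h3, h4⟩ := s1OO c h₁ h₂ (e1.symm.trans e3) hs hs'
      refine ⟨h, hh, ?_, ?_⟩
      · rw [← h3]
        exact Or.inl h4
      · rw [← h3]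
        exact Eg.mulB (Or.inl ⟨e3, e4⟩) hβ
    · obtain ⟨rfl, rfl, h, hh, β, hβ, h3, h4⟩ := s1OI c h₁ h₂ (e4.symm.trans e1) hs hs' hss
      refine ⟨h, hh, ?_, ?_⟩
      · rw [← h3]
        exact Or.inr h4
      · rw [← h3]
        exact Eg.mulB (Or.inr ⟨e3, e4⟩) hβ

theorem step1 (c : Cx l u D a k k') {j j' : D.ι} {s s' : {x : S // x ≠ u}}
    (hs : D.t j = gen (del l u) s) (hs' : D.t j' = gen (del l u) s') (hss : s ≠ s')
    {p₁ : D.Ah} {v₁ v₂ v₃ : AV D} (h₁ : Gd1 D k k' j j' p₁ v₁ v₂)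
    (h₂ : ∃ p b i i', XN D k k' p b i i' ∧ Eg D p v₂ v₃) :
    ∃ h ∈ HX D (X1 l u s s'), Gd1 D k k' j j' (p₁ * h) v₂ v₃ := by
  obtain ⟨p₂, b₂, i, i', h3, g₂⟩ := h₂
  obtain ⟨h₁ | h₁, g₁⟩ := h₁
  · exact step1_aux c hs hs' hss h₁ g₁ h3 g₂
  · obtain ⟨h, hh, h4, h5⟩ := step1_aux c hs' hs hss.symm h₁ g₁ h3 g₂
    rw [X1_comm] at hh
    exact ⟨h, hh, h4.symm, h5⟩

/-- The end for the types `(j, j')`. -/
theorem end1 (c : Cx l u D a k k') {j j' : D.ι} {s s' : {x : S // x ≠ u}}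
    (hs : D.t j = gen (del l u) s) (hs' : D.t j' = gen (del l u) s') {p p' y : D.Ah}
    {v w : AV D} (h₁ : Gd1 D k k' j j' p v w) (h₂ : Gd1 D k k' j j' p' (y • v) (y • w))
    (hy : k⁻¹ * y * k ∈ RE D) (hy' : k'⁻¹ * y * k' ∈ RE D) :
    ∃ β ∈ HX D (X1 l u s s'), y * p = p' * β := by
  obtain ⟨β, hβ, h3⟩ := h₂.2.uniq (h₁.2.smul y)
  refine ⟨D.ofG β, ?_, h3⟩
  have key : ∀ {i i' i₂ i₂' : D.ι}, XN D k k' p' 1 i i' → XN D k k' p 1 i₂ i₂' →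
      Commute β (D.t i) ∧ Commute β (D.t i') := by
    intro i i' i₂ i₂' h4 h5
    have h6 := xn_smul h5 hy hy'
    rw [h3] at h6
    obtain ⟨_, h7⟩ := nm_uniq c.M c.W hβ h4.l h6.l
    have h8 := h4.r
    have h9 := h6.r
    rw [map_one, mul_one] at h8 h9
    obtain ⟨_, h10⟩ := nm_uniq c.M c.W hβ h8 h9
    exact ⟨h7, h10⟩
  have h4 : Commute β (D.t j) ∧ Commute β (D.t j') ∧ D.l j = 3 ∧ D.l j' = 3 := by
    obtain ⟨h5 | h5, _⟩ := h₁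
    · obtain ⟨h6 | h6, _⟩ := h₂
      · have h7 := key h6 h5
        exact ⟨h7.1, h7.2, h6.l.1, h6.r.1⟩
      · have h7 := key h6 h5
        exact ⟨h7.2, h7.1, h6.r.1, h6.l.1⟩
    · obtain ⟨h6 | h6, _⟩ := h₂
      · have h7 := key h6 h5
        exact ⟨h7.1, h7.2, h6.l.1, h6.r.1⟩
      · have h7 := key h6 h5
        exact ⟨h7.2, h7.1, h6.r.1, h6.l.1⟩
  obtain ⟨h5, h6, l1, l2⟩ := h4
  rw [hs] at h5
  rw [hs'] at h6
  have h7 := b_ZZ c.p6 c.A c.d hβ ((lab c.d hs).trans l1) h5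
  have h8 := b_ZZ c.p6 c.A c.d hβ ((lab c.d hs').trans l2) h6
  refine X1_n (par_mono _ ?_ (par_inter _ h7 h8))
  rintro x ⟨⟨h9, h10⟩, _, h11⟩
  exact ⟨⟨CC_le h9, h10⟩, h11⟩

/-! ### Types `(j, j)` -/

/-- Normalised edges with types `(j, j)`. -/
def Gd0 (D : Dat (EA (del l u))) (k k' : D.Ah) (j : D.ι) (v : {x : S // x ≠ u}) (κ : ℤ)
    (p : D.Ah) (w w' : AV D) : Prop :=
  XN D k k' p (gen (del l u) v ^ κ) j j ∧ Eg D p w w'

theorem step0 (c : Cx l u D a k k') {j : D.ι} {s v : {x : S // x ≠ u}} {κ : ℤ}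
    (hs : D.t j = gen (del l u) s) (hv : v ∈ CC l u) (hκ : κ ≠ 0) (hsv : l s v = 2)
    {p₁ : D.Ah} {v₁ v₂ v₃ : AV D} (h₁ : Gd0 D k k' j v κ p₁ v₁ v₂)
    (h₂ : ∃ p b i i', XN D k k' p b i i' ∧ Eg D p v₂ v₃) :
    ∃ h ∈ HX D (X0 l u s v), Gd0 D k k' j v κ (p₁ * h) v₂ v₃ := by
  obtain ⟨p₂, b₂, i, i', h3, g₂⟩ := h₂
  obtain ⟨h₁, g₁⟩ := h₁
  rcases g₁ with ⟨e1, e2⟩ | ⟨e1, e2⟩
  · rcases g₂ with ⟨e3, e4⟩ | ⟨e3, e4⟩
    · obtain ⟨rfl, rfl, h, hh, β, hβ, h5, h4⟩ := s0IO c hv hκ h₁ h3 (e2.symm.trans e3) hs hsv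
      refine ⟨h, hh, ?_, ?_⟩
      · rw [← h5]
        exact h4
      · rw [← h5]
        exact Eg.mulB (Or.inl ⟨e3, e4⟩) hβ
    · obtain ⟨rfl, rfl, h, hh, β, hβ, h5, h4⟩ := s0II c hv hκ h₁ h3 (e2.symm.trans e4) hs hsv
      refine ⟨h, hh, ?_, ?_⟩
      · rw [← h5]
        exact h4
      · rw [← h5]
        exact Eg.mulB (Or.inr ⟨e3, e4⟩) hβ
  · rcases g₂ with ⟨e3, e4⟩ | ⟨e3, e4⟩
    · obtain ⟨rfl, rfl, h, hh, β, hβ, h5, h4⟩ := s0OO c hv hκ h₁ h3 (e1.symm.trans e3) hs hsv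
      refine ⟨h, hh, ?_, ?_⟩
      · rw [← h5]
        exact h4
      · rw [← h5]
        exact Eg.mulB (Or.inl ⟨e3, e4⟩) hβ
    · obtain ⟨rfl, rfl, h, hh, β, hβ, h5, h4⟩ := s0OI c hv hκ h₁ h3 (e4.symm.trans e1) hs hsv
      refine ⟨h, hh, ?_, ?_⟩
      · rw [← h5]
        exact h4
      · rw [← h5]
        exact Eg.mulB (Or.inr ⟨e3, e4⟩) hβ

/-- The end for the types `(j, j)`. -/
theorem end0 (c : Cx l u D a k k') {j : D.ι} {s v : {x : S // x ≠ u}} {κ : ℤ}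
    (hs : D.t j = gen (del l u) s) (hv : v ∈ CC l u) (hκ : κ ≠ 0) (hsv : l s v = 2)
    {p p' y : D.Ah} {w w' : AV D} (h₁ : Gd0 D k k' j v κ p w w')
    (h₂ : Gd0 D k k' j v κ p' (y • w) (y • w'))
    (hy : k⁻¹ * y * k ∈ RE D) (hy' : k'⁻¹ * y * k' ∈ RE D) :
    ∃ β ∈ HX D (X0 l u s v), y * p = p' * β := by
  obtain ⟨β, hβ, h3⟩ := h₂.2.uniq (h₁.2.smul y)
  refine ⟨D.ofG β, ?_, h3⟩
  have h6 := xn_smul h₁.1 hy hy'
  rw [h3] at h6
  obtain ⟨_, h7⟩ := nm_uniq c.M c.W hβ h₂.1.l h6.l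
  have hcB := pow_B c hv κ
  obtain ⟨β', hβ'⟩ : ∃ β', β' = (gen (del l u) v ^ κ)⁻¹ * β * gen (del l u) v ^ κ := ⟨_, rfl⟩
  have hβB : β' ∈ D.B := by
    rw [hβ']
    exact mul_mem (mul_mem (inv_mem hcB) hβ) hcB
  have h9 := h6.r
  have h10 : p' * D.ofG β * D.ofG (gen (del l u) v ^ κ) =
      p' * D.ofG (gen (del l u) v ^ κ) * D.ofG β' := by
    rw [hβ']
    simp only [map_mul, map_inv]
    group
  rw [h10] at h9
  obtain ⟨_, h11⟩ := nm_uniq c.M c.W hβB h₂.1.r h9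
  rw [hs] at h7 h11
  have l1 : l u s = 3 := (lab c.d hs).trans h₁.1.l.1
  have h12 := b_ZZ c.p6 c.A c.d hβ l1 h7
  have h13 := b_ZZ c.p6 c.A c.d hβB l1 h11
  have hsC : s ∉ CC l u := by
    intro h14
    have h15 : l u s = 1 := h14
    omega
  have h14 := c.e0 c.p6 _ (del l u) (c.A.del u) (CC l u) s hsC v hv hsv κ hκ β h12 β' h13 (by
    rw [hβ']
    group)
  refine X0_n (par_mono _ ?_ h14)
  rintro x ⟨⟨h9, h10⟩, h11⟩
  exact ⟨⟨CC_le h9, h10⟩, h11⟩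

/-! ### Corners only -/

/-- Edges with a name of type `j` for `k`. -/
def GdN (D : Dat (EA (del l u))) (k k' : D.Ah) (j : D.ι) (p : D.Ah) (w w' : AV D) : Prop :=
  (∃ b j', XN D k k' p b j j') ∧ Eg D p w w'

/-- Straight passes. -/
def Str (D : Dat (EA (del l u))) (v₁ v₂ v₃ : AV D) : Prop :=
  (Dir D v₁ v₂ ∧ Dir D v₂ v₃) ∨ (Dir D v₂ v₁ ∧ Dir D v₃ v₂)

theorem stepN (c : Cx l u D a k k') {j : D.ι}
    {p₁ : D.Ah} {v₁ v₂ v₃ : AV D} (hst : ¬ Str D v₁ v₂ v₃) (h₁ : GdN D k k' j p₁ v₁ v₂)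
    (h₂ : ∃ p b i i', XN D k k' p b i i' ∧ Eg D p v₂ v₃) :
    ∃ h ∈ HX D (YY l u), GdN D k k' j (p₁ * h) v₂ v₃ := by
  obtain ⟨p₂, b₂, i, i', h3, g₂⟩ := h₂
  obtain ⟨⟨b₁, j', h₁⟩, g₁⟩ := h₁
  obtain ⟨s, hs, _⟩ := c.d.t j
  obtain ⟨s', hs', _⟩ := c.d.t j'
  rcases g₁ with ⟨e1, e2⟩ | ⟨e1, e2⟩
  · rcases g₂ with ⟨e3, e4⟩ | ⟨e3, e4⟩
    · exact absurd (Or.inl ⟨⟨p₁, e1, e2⟩, ⟨p₂, e3, e4⟩⟩) hst
    · obtain ⟨rfl, rfl, m, hm, m', hm', h4, h5, h6, h7⟩ := cornII c h₁ h3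
        (e2.symm.trans e4) hs hs'
      refine ⟨D.u * D.ofG ((D.t a)⁻¹ * m * D.t a) * D.u⁻¹,
        mul_mem (mul_mem (u_HX _) (ofG_HX (mu_YY c hm))) (inv_mem (u_HX _)), ?_⟩
      have h8 : p₁ * (D.u * D.ofG ((D.t a)⁻¹ * m * D.t a) * D.u⁻¹) = p₂ := by
        rw [h6]
        simp only [mul_assoc]
      rw [h8]
      exact ⟨⟨b₂, i', h3⟩, Or.inr ⟨e3, e4⟩⟩
  · rcases g₂ with ⟨e3, e4⟩ | ⟨e3, e4⟩
    · obtain ⟨rfl, rfl, m, hm, m', hm', h4, h5, h6, h7⟩ := cornOO c h₁ h3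
        (e1.symm.trans e3) hs hs'
      refine ⟨D.ofG m, ofG_HX (mm_YY c.d hm), ?_⟩
      rw [← h6]
      exact ⟨⟨b₂, i', h3⟩, Or.inl ⟨e3, e4⟩⟩
    · exact absurd (Or.inr ⟨⟨p₁, e1, e2⟩, ⟨p₂, e3, e4⟩⟩) hst

omit [Finite S] in
theorem endN (c : Cx l u D a k k') {j : D.ι} {p p' y : D.Ah} {w w' : AV D}
    (h₁ : GdN D k k' j p w w') (h₂ : GdN D k k' j p' (y • w) (y • w')) :
    ∃ β ∈ HX D (YY l u), y * p = p' * β := by
  obtain ⟨β, hβ, h3⟩ := h₂.2.uniq (h₁.2.smul y)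
  exact ⟨D.ofG β, ofG_HX (par_mono _ CC_le ((mem_B_iff c.d).1 hβ)), h3⟩

/-! ### The case `MM = B` -/

/-- The weight of a name. -/
noncomputable def wr {G : Type} [Group G] (D : Dat G) (p : D.Ah) : Multiplicative ℤ :=
  D.h (ret D p)

theorem stepB (c : Cx l u D a k k') (hB : ∀ m ∈ MM D, m ∈ D.B) {p₁ p₂ : D.Ah}
    {b₁ b₂ : EA (del l u)} {j j' i i' : D.ι} {v₁ v₂ v₃ : AV D} (hne : v₁ ≠ v₃)
    (h₁ : XN D k k' p₁ b₁ j j') (g₁ : Eg D p₁ v₁ v₂)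
    (h₂ : XN D k k' p₂ b₂ i i') (g₂ : Eg D p₂ v₂ v₃) :
    ((v₁ = pt D p₁ ∧ v₂ = pt D (p₁ * D.u)) ∧ (v₂ = pt D p₂ ∧ v₃ = pt D (p₂ * D.u)) ∧
      wr D p₂ = wr D p₁ * ofAdd 1) ∨
    ((v₂ = pt D p₁ ∧ v₁ = pt D (p₁ * D.u)) ∧ (v₃ = pt D p₂ ∧ v₂ = pt D (p₂ * D.u)) ∧
      wr D p₁ = wr D p₂ * ofAdd 1) := by
  obtain ⟨s, hs, _⟩ := c.d.t j
  obtain ⟨s', hs', _⟩ := c.d.t j'
  have hwt : ∀ (p : D.Ah) (i i' : D.ι) (m : EA (del l u)), m ∈ MM D →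
      wr D (p * D.u * D.ofG (D.t i * ((D.t a)⁻¹ * m) * D.t i')) = wr D p * ofAdd 1 := by
    intro p i i' m hm
    simp only [wr, map_mul, map_inv, ret_u, ret_ofG, D.h_t, mm_h hm, mul_one]
    rw [inv_mul_cancel_right]
  rcases g₁ with ⟨e1, e2⟩ | ⟨e1, e2⟩
  · rcases g₂ with ⟨e3, e4⟩ | ⟨e3, e4⟩
    · left
      obtain ⟨rfl, rfl, m, hm, m', hm', h3, h4⟩ := trIO c.M c.W c.n h₁ h₂ (e2.symm.trans e3)
      refine ⟨⟨e1, e2⟩, ⟨e3, e4⟩, ?_⟩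
      rw [h3]
      exact hwt _ _ _ _ hm
    · exfalso
      obtain ⟨rfl, rfl, m, hm, m', hm', h4, h5, h6, h7⟩ := cornII c h₁ h₂
        (e2.symm.trans e4) hs hs'
      apply hne
      have hmB := hB m hm
      obtain ⟨_, h8⟩ := two_pos c.M hmB (hB _ (tbt c.M hmB))
      have h9 : (D.t a)⁻¹ * m * D.t a = m := by
        rw [mul_assoc, h8.eq, inv_mul_cancel_left]
      rw [h9] at h6
      rw [e1, e3, h6, mul_assoc p₁, D.u_comm hmB, ← mul_assoc, mul_inv_cancel_right,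
        pt_mul_ofG]
  · rcases g₂ with ⟨e3, e4⟩ | ⟨e3, e4⟩
    · exfalso
      obtain ⟨rfl, rfl, m, hm, m', hm', h4, h5, h6, h7⟩ := cornOO c h₁ h₂
        (e1.symm.trans e3) hs hs'
      apply hne
      have hmB := hB m hm
      rw [e2, e4, h6, mul_assoc p₁, ← D.u_comm hmB, ← mul_assoc, pt_mul_ofG]
    · right
      obtain ⟨rfl, rfl, m, hm, m', hm', h3, h4⟩ := trIO c.M c.W c.n h₂ h₁ (e4.symm.trans e1)
      refine ⟨⟨e1, e2⟩, ⟨e3, e4⟩, ?_⟩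
      rw [h3]
      exact hwt _ _ _ _ hm

theorem caseB (c : Cx l u D a k k') (hB : ∀ m ∈ MM D, m ∈ D.B) {γ : ℤ → AV D} {y : D.Ah}
    {n : ℕ} (hx : Ax D k k' γ y n) (hr : ret D y = 1) : False := by
  choose p b j j' h1 h2 using hx.e
  have hst : ∀ i, _ := fun i => stepB c hB (by
    have h3 := hx.ne i
    rwa [show i + 2 = i + 1 + 1 by ring] at h3) (h1 i) (h2 i) (h1 (i + 1)) (h2 (i + 1))
  have hyp : wr D (y * p 0) = wr D (p n) := by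
    have h3 := (h2 0).smul y
    rw [hx.hy, hx.hy] at h3
    have h4 := h2 n
    rw [show (0 : ℤ) + 1 + n = n + 1 by ring, show (0 : ℤ) + n = n by ring] at h3
    obtain ⟨β, hβ, h5⟩ := h4.uniq h3
    rw [h5, wr, wr, map_mul, ret_ofG, map_mul, D.h_B β hβ, mul_one]
  rw [wr, map_mul, hr, one_mul] at hyp
  have hn := hx.pos
  rcases h2 0 with h3 | h3
  · have key : ∀ m : ℕ, (γ m = pt D (p m) ∧ γ (m + 1) = pt D (p m * D.u)) ∧
        wr D (p m) = wr D (p 0) * ofAdd (m : ℤ) := by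
      intro m
      induction m with
      | zero => exact ⟨by simpa using h3, by simp⟩
      | succ m ih =>
        rcases hst m with ⟨_, h4, h5⟩ | ⟨h4, _, _⟩
        · push_cast
          refine ⟨h4, ?_⟩
          rw [h5, ih.2, mul_assoc, ← ofAdd_add]
        · exact (dir_asymm D ⟨_, ih.1.1, ih.1.2⟩ ⟨_, h4.1, h4.2⟩).elim
    have h4 := (key n).2
    rw [← hyp] at h4
    have h5 := mul_left_cancel (a := wr D (p 0)) (b := 1) (c := ofAdd (n : ℤ))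
      (by rw [mul_one]; exact h4)
    have h6 : (n : ℤ) = 0 := by
      have h7 := congrArg toAdd h5
      simpa using h7.symm
    omega
  · have key : ∀ m : ℕ, (γ (m + 1) = pt D (p m) ∧ γ m = pt D (p m * D.u)) ∧
        wr D (p 0) = wr D (p m) * ofAdd (m : ℤ) := by
      intro m
      induction m with
      | zero => exact ⟨by simpa using h3, by simp⟩
      | succ m ih =>
        rcases hst m with ⟨h4, _, _⟩ | ⟨_, h4, h5⟩
        · exact (dir_asymm D ⟨_, h4.1, h4.2⟩ ⟨_, ih.1.1, ih.1.2⟩).elim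
        · push_cast
          refine ⟨h4, ?_⟩
          rw [ih.2, h5, mul_assoc, ← ofAdd_add, add_comm]
    have h4 := (key n).2
    rw [← hyp] at h4
    have h5 := mul_left_cancel (a := wr D (p 0)) (b := 1) (c := ofAdd (n : ℤ))
      (by rw [mul_one]; exact h4)
    have h6 : (n : ℤ) = 0 := by
      have h7 := congrArg toAdd h5
      simpa using h7.symm
    omega

/-! ### The end -/

/-- From good edges to the conclusion. -/
theorem fin (Gd : D.Ah → AV D → AV D → Prop) {X : Set {x : S // x ≠ u}} {γ : ℤ → AV D}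
    {y : D.Ah} {n : ℕ} (hx : Ax D k k' γ y n)
    (hstep : ∀ p i, Gd p (γ i) (γ (i + 1)) →
      ∃ h ∈ HX D X, Gd (p * h) (γ (i + 1)) (γ (i + 1 + 1)))
    (hend : ∀ p p' v w, Gd p v w → Gd p' (y • v) (y • w) → ∃ β ∈ HX D X, y * p = p' * β)
    {p : D.Ah} {i : ℤ} (h0 : Gd p (γ i) (γ (i + 1))) : ∃ h ∈ HX D X, y = p * h * p⁻¹ := by
  obtain ⟨h, hh, h1⟩ := iter (H := HX D X) hstep h0 n
  obtain ⟨β, hβ, h2⟩ := hend p (p * h) (γ i) (γ (i + 1)) h0 (by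
    rw [hx.hy, hx.hy, show i + 1 + (n : ℤ) = i + n + 1 by ring]
    exact h1)
  refine ⟨h * β, mul_mem hh hβ, ?_⟩
  rw [← mul_assoc, ← h2, mul_inv_cancel_right]

end

/-- The map `killD l u` after `lam` is the retraction. -/
theorem kill_lam {S : Type} {l : S → S → ℕ} {u : S} {D : Dat (EA (del l u))}
    {lam : D.Ah →* EA l} (h1 : ∀ g, lam (D.ofG g) = inD l u g) (h2 : lam D.u = gen l u)
    (y : D.Ah) : killD l u (lam y) = ret D y := by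
  have h3 : (killD l u).comp lam = ret D := by
    refine HNNExtension.hom_ext ?_ ?_
    · refine MonoidHom.ext fun g => ?_
      change killD l u (lam (D.ofG g)) = ret D (D.ofG g)
      rw [h1, Pool.Agent.Lib.MP_e6f638_al.killD_inD, ret_ofG]
    · change killD l u (lam D.u) = ret D D.u
      rw [h2, killD_self, ret_u]
  exact DFunLike.congr_fun h3 y

/-- Module S2M6. -/
theorem stS2M6_of (c0 : StCorner0) (c1 : StCorner1) (s1 : StStr1) (n1 : StNf1) (n0 : StNf0)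
    (s0 : StStr0) (s0a : StStr0a) (s0b : StStr0b) (e0 : StEnd0) : StS2M6 := by
  intro hP6 hV6 hV16 S _ l hA hfour u D hD a hM hW hL hO lam h1 h2 hinj q hq y hyE hy1 hk hyq
  by_contra hS
  have hr : ret D y = 1 := by
    rw [← kill_lam h1 h2, hk]
  obtain ⟨hn, γ, n, hn0, hyγ, hne, hxe⟩ := exc_axis hM hL hq hyE hy1 hr hyq hS
  have c : Cx l u D a 1 q := ⟨hP6, hV6, hV16, c0, c1, s1, n1, n0, s0, s0a, s0b, e0, hA, hD, hM,
    hW, hn⟩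
  obtain ⟨N, rfl⟩ : ∃ N : ℕ, n = N := ⟨n.toNat, by omega⟩
  have hx : Ax D 1 q γ y N := by
    refine ⟨by omega, hyγ, hne, fun i => ?_, by simpa using hyE, hyq⟩
    rcases hxe i with ⟨p, b, j, j', h3, h4, h5, h6, h7⟩ | ⟨p, b, j, j', h3, h4, h5, h6, h7⟩
    · exact ⟨p, b, j, j', ⟨h3, h4, h5⟩, Or.inl ⟨h6, h7⟩⟩
    · exact ⟨p, b, j, j', ⟨h3, h4, h5⟩, Or.inr ⟨h6, h7⟩⟩
  by_cases hB : ∀ m ∈ MM D, m ∈ D.B
  · exact caseB c hB hx hr
  have hO2 : ¬ O2 l u := hO.resolve_right hB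
  by_cases hstr : ∃ i, Str D (γ i) (γ (i + 1)) (γ (i + 1 + 1))
  · obtain ⟨i₀, hi₀⟩ := hstr
    -- an edge `i` and its successor in the direction of the edges
    obtain ⟨i, p, b, j, j', p', b', i₂, i₂', h3, h4, h5, h6⟩ : ∃ (i : ℤ) (p : D.Ah)
        (b : EA (del l u)) (j j' : D.ι) (p' : D.Ah) (b' : EA (del l u)) (i₂ i₂' : D.ι),
        XN D 1 q p b j j' ∧ Eg D p (γ i) (γ (i + 1)) ∧ XN D 1 q p' b' i₂ i₂' ∧
          pt D (p * D.u) = pt D p' := by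
      obtain ⟨p₁, b₁, j₁, j₁', h3, h4⟩ := hx.e i₀
      obtain ⟨p₂, b₂, j₂, j₂', h5, h6⟩ := hx.e (i₀ + 1)
      rcases hi₀ with ⟨d1, d2⟩ | ⟨d1, d2⟩
      · refine ⟨i₀, p₁, b₁, j₁, j₁', p₂, b₂, j₂, j₂', h3, h4, h5, ?_⟩
        rcases h4 with ⟨e1, e2⟩ | ⟨e1, e2⟩
        · rcases h6 with ⟨e3, e4⟩ | ⟨e3, e4⟩
          · exact e2.symm.trans e3
          · exact (dir_asymm D d2 ⟨_, e3, e4⟩).elim
        · exact (dir_asymm D d1 ⟨_, e1, e2⟩).elim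
      · refine ⟨i₀ + 1, p₂, b₂, j₂, j₂', p₁, b₁, j₁, j₁', h5, h6, h3, ?_⟩
        rcases h4 with ⟨e1, e2⟩ | ⟨e1, e2⟩
        · exact (dir_asymm D d1 ⟨_, e1, e2⟩).elim
        · rcases h6 with ⟨e3, e4⟩ | ⟨e3, e4⟩
          · exact (dir_asymm D d2 ⟨_, e3, e4⟩).elim
          · exact e4.symm.trans e1
    obtain ⟨rfl, rfl, m, hm, m', hm', h7, h8⟩ := trIO hM hW hn h3 h5 h6
    obtain ⟨s, hs, ls⟩ := hD.t i₂'
    obtain ⟨s', hs', ls'⟩ := hD.t i₂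
    have l1 : l u s = 3 := ls.trans h3.l.1
    have l2 : l u s' = 3 := ls'.trans h3.r.1
    rw [hs, hs'] at h8
    by_cases hss : s = s'
    · subst hss
      have hjj : i₂' = i₂ := hD.inj (hs.trans hs'.symm)
      subst hjj
      have hnc : b ∉ par (del l u) (ZZ (del l u) s) := by
        intro h9
        apply h3.not_comm hn
        rw [hs]
        exact commute_ZZ (hA.del u).symm h9
      obtain ⟨v, hv, hsv, κ, hκ, β, hβ, β', hβ', h9⟩ := s0 hP6 hV16 _ (del l u) (hA.del u)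
        (CC l u) (YY l u) CC_le s (not_YY l1) _ (th_YY c hm) _ (th_YY c hm') b
        ((mem_B_iff hD).1 h3.m) b' ((mem_B_iff hD).1 h5.m) hnc h8
      have h10 := xn_mk c h3 hs hs hβ hβ' (pow_B c hv κ) h9
      have h11 : ∃ x, x ∉ X0 l u s v := by
        by_contra hcon
        push Not at hcon
        apply hO2
        have hsv' : s ≠ v := by
          rintro rfl
          have h12 : l u s = 1 := hv
          omega
        refine ⟨s, v, s.2, v.2, fun h => hsv' (Subtype.ext h), l1, hsv, hv, ?_⟩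
        intro x hxu hxs hxv
        rcases hcon ⟨x, hxu⟩ with (h12 | h12) | ⟨⟨h12, h13⟩, h14⟩
        · exact absurd (congrArg Subtype.val h12) hxs
        · exact absurd (congrArg Subtype.val h12) hxv
        · refine ⟨h13.2, h14.2, ?_⟩
          rcases h12 with h12 | h12
          · have h15 : l u x = 1 := h12
            omega
          · have h15 : l u x = 2 := h12
            omega
      obtain ⟨x, hx0⟩ := h11
      obtain ⟨h, hh, h12⟩ := fin (Gd0 D 1 q i₂' v κ) hx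
        (fun p i hp => step0 c hs hv hκ hsv hp (hx.e (i + 1)))
        (fun p p' v₁ w₁ hp hp' => end0 c hs hv hκ hsv hp hp' hx.hk hx.hk')
        ⟨h10, h4.mulB (cz_B hD hβ)⟩
      exact hy1 (finish h1 h2 hinj hyE hk hx0 hh h12)
    · obtain ⟨h9, ⟨β, hβ, β', hβ', h10⟩, _, _⟩ := s1 hP6 _ (del l u) (hA.del u) (CC l u)
        (YY l u) CC_le s s' (not_YY l1) (not_YY l2) hss _ (th_YY c hm) _ (th_YY c hm') b
        ((mem_B_iff hD).1 h3.m) b' ((mem_B_iff hD).1 h5.m) h8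
      have h11 := xn_mk c h3 hs hs' hβ hβ' (one_mem _) (by rw [mul_one, h10])
      obtain ⟨r, hr1, hr2⟩ := hfour s
      have hru : r ≠ u := by
        rintro rfl
        rw [hA.symm] at hr2
        omega
      have hx0 : (⟨r, hru⟩ : {x : S // x ≠ u}) ∉ X1 l u s s' := by
        have h9' : l s s' = 1 := h9
        rintro ((h12 | h12) | ⟨⟨_, h13⟩, _⟩)
        · exact hr1 (congrArg Subtype.val h12)
        · have h13 : r = s' := congrArg Subtype.val h12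
          rw [h13] at hr2
          omega
        · have h14 : l s r = 1 := h13.2
          omega
      obtain ⟨h, hh, h12⟩ := fin (Gd1 D 1 q i₂' i₂) hx
        (fun p i hp => step1 c hs hs' hss hp (hx.e (i + 1)))
        (fun p p' v₁ w₁ hp hp' => end1 c hs hs' hp hp' hx.hk hx.hk')
        ⟨Or.inl h11, h4.mulB (cz_B hD hβ)⟩
      exact hy1 (finish h1 h2 hinj hyE hk hx0 hh h12)
  · push Not at hstr
    obtain ⟨p, b, j, j', h3, h4⟩ := hx.e 0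
    obtain ⟨s, hs, ls⟩ := hD.t j
    obtain ⟨h, hh, h12⟩ := fin (GdN D 1 q j) hx
      (fun p i hp => stepN c (hstr i) hp (hx.e (i + 1)))
      (fun p p' v₁ w₁ hp hp' => endN c hp hp') ⟨⟨b, j', h3⟩, h4⟩
    exact hy1 (finish h1 h2 hinj hyE hk (not_YY (ls.trans h3.l.1)) hh h12)

end Pool.Agent.Lib.MP_551055_al.N6
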