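import Mathlib
import Pool.Agent.Lib.MP_551055_al.Trim.N4.Uni_17
import Pool.Agent.Lib.MP_551055_al.Trim.N5.U5_54
import Pool.Agent.Lib.MP_551055_al.Trim.N6.Asm_54
import Pool.Agent.Lib.MP_551055_al.Trim.N6.Final_17
import Pool.Agent.Lib.MP_551055_al.Trim.X.MP_e6f638_al.Stmts

/-!
# Good sets of generators: sets without triangles 4, 4, 2
-/

set_option autoImplicit false

namespace Pool.Agent.Lib.MP_551055_al
end Pool.Agent.Lib.MP_551055_al

namespace Pool.Agent.Lib.MP_551055_al.N4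
end Pool.Agent.Lib.MP_551055_al.N4

namespace Pool.Agent.Lib.MP_551055_al.N5
end Pool.Agent.Lib.MP_551055_al.N5

namespace Pool.Agent.Lib.MP_551055_al.N6

open Pool.Agent.Lib.MP_551055_al

open Pool.Agent.Lib.MP_551055_al.N4

open Pool.Agent.Lib.MP_551055_al.N5 (U5)

/-- Finite sets without triangles `4, 4, 2`. -/
theorem u5_no244 {S : Type} {l : S → S → ℕ} (hl : ∀ s t, l s t = l t s)
    {X : Set S} (hX : X.Finite) (h : ∀ s ∈ X, ∀ t ∈ X, ∀ v ∈ X, s ≠ t → s ≠ v → t ≠ v →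
      ¬ (l s t = 2 ∧ l s v = 2 ∧ l t v = 1)) : U5 l X := by
  have : Finite X := hX
  exact ⟨hX, fun j => finiteNo (uni_rules j) (uni_subsingleton Unit inferInstance)
    (fun _ _ _ _ hG hH => hG.prod hH) X _ ⟨fun a b => hl a b, fun s t v h1 h2 h3 =>
      h s s.2 t t.2 v v.2 (fun h' => h1 (Subtype.ext h')) (fun h' => h2 (Subtype.ext h'))
        fun h' => h3 (Subtype.ext h')⟩⟩

end Pool.Agent.Lib.MP_551055_al.N6
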